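import Pool.Agent.Work.MP_e24068_el.InterfaceB

/-! # ALN: cuts between blocks (helper70) -/

set_option autoImplicit false

namespace Pool.FE

open Pool.Agent.Work.MP_e24068_lc (Letter code HasFactorization Inst Cl Var LL to3 varsL)

theorem aln_inj {α β : Type} {φ : α → List β} {m : ℕ} {S : Set α}
    (hm : 0 < m) (hφ : ∀ x ∈ S, (φ x).length = m) (hi : Set.InjOn φ S) :
    ∀ v v' : List α, (∀ x ∈ v, x ∈ S) → (∀ x ∈ v', x ∈ S) → v.flatMap φ = v'.flatMap φ →
      v = v' := by
  intro v
  induction v with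
  | nil =>
    intro v' _ hv' h
    cases v' with
    | nil => rfl
    | cons y v' =>
      exfalso
      have h1 := congrArg List.length h
      have h2 := hφ y (hv' y (by simp))
      simp only [List.flatMap_nil, List.length_nil, List.flatMap_cons, List.length_append] at h1
      omega
  | cons x v ih =>
    intro v' hv hv' h
    cases v' with
    | nil =>
      exfalso
      have h1 := congrArg List.length h
      have h2 := hφ x (hv x (by simp))
      simp only [List.flatMap_nil, List.length_nil, List.flatMap_cons, List.length_append] at h1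
      omega
    | cons y v' =>
      have h2 := hφ x (hv x (by simp))
      have h3 := hφ y (hv' y (by simp))
      rw [List.flatMap_cons, List.flatMap_cons] at h
      obtain ⟨e1, e2⟩ := List.append_inj h (h2.trans h3.symm)
      rw [hi (hv x (by simp)) (hv' y (by simp)) e1,
        ih v' (fun z hz => hv z (by simp [hz])) (fun z hz => hv' z (by simp [hz])) e2]

theorem aln_len {α β : Type} {φ : α → List β} {m : ℕ} {S : Set α}
    (hφ : ∀ x ∈ S, (φ x).length = m) :
    ∀ v : List α, (∀ x ∈ v, x ∈ S) → (v.flatMap φ).length = v.length * m := by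
  intro v
  induction v with
  | nil => simp
  | cons x v ih =>
    intro hv
    rw [List.flatMap_cons, List.length_append, hφ x (hv x (by simp)),
      ih (fun z hz => hv z (by simp [hz])), List.length_cons]
    ring

theorem aln_split {α β : Type} {φ : α → List β} {m : ℕ} {S : Set α}
    (hφ : ∀ x ∈ S, (φ x).length = m) (v : List α) (p q : List β) (hv : ∀ x ∈ v, x ∈ S)
    (h : v.flatMap φ = p ++ q) (hd : m ∣ p.length) (hm : 0 < m) :
    ∃ v₁ v₂, v = v₁ ++ v₂ ∧ v₁.flatMap φ = p ∧ v₂.flatMap φ = q := by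
  obtain ⟨k, hk⟩ := hd
  have hl := congrArg List.length h
  rw [aln_len hφ v hv, List.length_append, hk] at hl
  have hkv : k ≤ v.length := by
    by_contra hc
    push Not at hc
    have : v.length * m < k * m := Nat.mul_lt_mul_of_pos_right hc hm
    rw [mul_comm k m] at this
    omega
  refine ⟨v.take k, v.drop k, (List.take_append_drop k v).symm, ?_⟩
  have h1 : (v.take k).flatMap φ ++ (v.drop k).flatMap φ = p ++ q := by
    rw [← List.flatMap_append, List.take_append_drop, h]
  have h2 : ((v.take k).flatMap φ).length = p.length := by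
    rw [aln_len hφ _ (fun x hx => hv x (List.mem_of_mem_take hx)), List.length_take,
      Nat.min_eq_left hkv, hk, mul_comm]
  exact List.append_inj h1 h2

theorem p_ALN : Stmt_ALN := by
  intro α β φ m S L M M₁ M₂ hm hφ hi hLS hfin hne hM hMM h1 h2 hu
  obtain ⟨u, hu1, hu2⟩ := hu
  have hML : ∀ w ∈ M, m ∣ w.length := by
    intro w hw
    obtain ⟨v, hv, rfl⟩ := (hM w).1 hw
    rw [aln_len hφ v (hLS v hv)]
    exact Dvd.intro_left _ rfl
  obtain ⟨w₀, hw₀⟩ := hne
  have hM0 : w₀.flatMap φ ∈ M := (hM _).2 ⟨w₀, hw₀, rfl⟩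
  rw [hMM, Language.mem_mul] at hM0
  obtain ⟨a₀, ha₀, b₀, hb₀, -⟩ := hM0
  have hd2 : ∀ q ∈ M₂, m ∣ q.length := by
    intro q hq
    have h3 : u ++ q ∈ M := by rw [hMM]; exact Language.append_mem_mul hu1 hq
    have h4 := hML _ h3
    rw [List.length_append] at h4
    exact (Nat.dvd_add_right hu2).1 h4
  have hd1 : ∀ p ∈ M₁, m ∣ p.length := by
    intro p hp
    have h3 : p ++ b₀ ∈ M := by rw [hMM]; exact Language.append_mem_mul hp hb₀
    have h4 := hML _ h3
    rw [List.length_append] at h4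
    exact (Nat.dvd_add_left (hd2 _ hb₀)).1 h4
  set L₁ : Language α := {v | v.flatMap φ ∈ M₁ ∧ ∀ x ∈ v, x ∈ S} with hL₁
  set L₂ : Language α := {v | v.flatMap φ ∈ M₂ ∧ ∀ x ∈ v, x ∈ S} with hL₂
  have hL : L = L₁ * L₂ := by
    ext w
    rw [Language.mem_mul]
    constructor
    · intro hw
      have h3 : w.flatMap φ ∈ M := (hM _).2 ⟨w, hw, rfl⟩
      rw [hMM, Language.mem_mul] at h3
      obtain ⟨p, hp, q, hq, hpq⟩ := h3
      obtain ⟨w₁, w₂, e0, e1, e2⟩ := aln_split hφ w p q (hLS w hw) hpq.symm (hd1 p hp) hm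
      subst e0
      refine ⟨w₁, ⟨e1 ▸ hp, fun x hx => hLS _ hw x (by simp [hx])⟩, w₂,
        ⟨e2 ▸ hq, fun x hx => hLS _ hw x (by simp [hx])⟩, rfl⟩
    · rintro ⟨p, ⟨hp, hpS⟩, q, ⟨hq, hqS⟩, rfl⟩
      have h3 : (p ++ q).flatMap φ ∈ M := by
        rw [hMM, List.flatMap_append]
        exact Language.append_mem_mul hp hq
      obtain ⟨v, hv, hv'⟩ := (hM _).1 h3
      rw [← aln_inj hm hφ hi v (p ++ q) (hLS v hv) ?_ hv']
      · exact hv
      · intro x hx
        rcases List.mem_append.1 hx with h | h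
        · exact hpS x h
        · exact hqS x h
  have hw₀' := hw₀
  rw [hL, Language.mem_mul] at hw₀'
  obtain ⟨p₀, hp₀, q₀, hq₀, -⟩ := hw₀'
  have key : ∀ p ∈ M₁, ∀ q ∈ M₂, ∃ v₁ v₂, v₁ ∈ L₁ ∧ v₂ ∈ L₂ ∧ v₁.flatMap φ = p ∧
      v₂.flatMap φ = q := by
    intro p hp q hq
    have h3 : p ++ q ∈ M := by
      rw [hMM]
      exact Language.append_mem_mul hp hq
    obtain ⟨v, hv, hv'⟩ := (hM _).1 h3
    obtain ⟨w₁, w₂, e0, e1, e2⟩ := aln_split hφ v p q (hLS v hv) hv' (hd1 p hp) hm
    subst e0
    exact ⟨w₁, w₂, ⟨e1 ▸ hp, fun x hx => hLS _ hv x (by simp [hx])⟩,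
      ⟨e2 ▸ hq, fun x hx => hLS _ hv x (by simp [hx])⟩, e1, e2⟩
  refine ⟨L₁, L₂, ?_, ?_, hL, ?_, ?_⟩
  · refine Set.Finite.of_finite_image (f := fun x => x ++ q₀) (hfin.subset ?_) ?_
    · rintro w ⟨x, hx, rfl⟩
      show x ++ q₀ ∈ L
      rw [hL]
      exact Language.append_mem_mul hx hq₀
    · intro x _ x' _ hxx
      exact List.append_cancel_right hxx
  · refine Set.Finite.of_finite_image (f := fun x => p₀ ++ x) (hfin.subset ?_) ?_
    · rintro w ⟨x, hx, rfl⟩
      show p₀ ++ x ∈ L
      rw [hL]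
      exact Language.append_mem_mul hp₀ hx
    · intro x _ x' _ hxx
      exact List.append_cancel_left hxx
  · intro h
    apply h1
    have hnil : ([] : List α) ∈ L₁ := by rw [h]; exact Language.nil_mem_one
    have hnil' : ([] : List β) ∈ M₁ := by simpa using hnil.1
    ext p
    rw [Language.mem_one]
    constructor
    · intro hp
      obtain ⟨v₁, v₂, h3, h4, h5, h6⟩ := key p hp _ hq₀.1
      rw [h, Language.mem_one] at h3
      rw [← h5, h3]
      rfl
    · rintro rfl
      exact hnil'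
  · intro h
    apply h2
    have hnil : ([] : List α) ∈ L₂ := by rw [h]; exact Language.nil_mem_one
    have hnil' : ([] : List β) ∈ M₂ := by simpa using hnil.1
    ext p
    rw [Language.mem_one]
    constructor
    · intro hp
      obtain ⟨v₁, v₂, h3, h4, h5, h6⟩ := key _ hp₀.1 p hp
      rw [h, Language.mem_one] at h4
      rw [← h6, h4]
      rfl
    · rintro rfl
      exact hnil'

end Pool.FE
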