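import Pool.Agent.Work.MP_e24068_el.InterfaceB

set_option autoImplicit false

namespace Pool.FE

theorem brf_oh_length {N k : ℕ} (hk : k ≤ N) : (oh N k).length = N + 1 := by
  simp only [oh, List.length_append, List.length_replicate, List.length_cons]
  omega

theorem brf_length {N k : ℕ} (e f : Bool) (hk : k ≤ N) : (blk N e f k).length = N + 9 := by
  simp only [blk, List.length_cons, List.length_append, brf_oh_length hk, List.length_nil]

theorem brf_get {N k j : ℕ} (e f : Bool) (hk : k ≤ N) (hj : j ≤ N) :
    (blk N e f k)[6 + j]? = (oh N k)[j]? := by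
  have h : (blk N e f k)[6 + j]? = (oh N k ++ [0, bit f])[j]? := by
    rw [Nat.add_comm]
    rfl
  rw [h, List.getElem?_append_left (by rw [brf_oh_length hk]; omega)]

theorem brf_one {N k : ℕ} (e f : Bool) (hk : k ≤ N) : (blk N e f k)[6 + k]? = some 1 := by
  rw [brf_get e f hk hk, oh, List.getElem?_append_right (by simp)]
  simp

theorem brf_uniq {N k j : ℕ} (e f : Bool) (hk : k ≤ N) (hj : j ≤ N)
    (h : (blk N e f k)[6 + j]? = some 1) : j = k := by
  rw [brf_get e f hk hj, oh] at h
  rcases lt_trichotomy j k with h1 | h1 | h1
  · rw [List.getElem?_append_left (by simpa using h1), List.getElem?_replicate, if_pos h1] at h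
    simp at h
  · exact h1
  · rw [List.getElem?_append_right (by simpa using h1.le), List.length_replicate] at h
    obtain ⟨i, hi⟩ : ∃ i, j - k = i + 1 := ⟨j - k - 1, by omega⟩
    rw [hi, List.getElem?_cons_succ, List.getElem?_replicate] at h
    split_ifs at h
    simp at h

theorem p_BRF : Stmt_BRF := by
  intro α e f c N S hc hinj
  have key : ∀ x ∈ S, ∀ y ∈ S, (blk N (e x) (f x) (c x))[6 + c y]? = some 1 → x = y := by
    intro x hx y hy h
    exact (hinj hy hx (brf_uniq _ _ (hc x hx) (hc y hy) h)).symm
  have one : ∀ x ∈ S, (blk N (e x) (f x) (c x))[6 + c x]? = some 1 :=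
    fun x hx => brf_one _ _ (hc x hx)
  refine ⟨fun x hx => brf_length _ _ (hc x hx), ?_, ?_⟩
  · intro x hx y hy hxy
    apply key x hx y hy
    have : blk N (e x) (f x) (c x) = blk N (e y) (f y) (c y) := hxy
    rw [this]
    exact one y hy
  · intro s Y Z hs hsN hY hZ hYn hZn hw
    have len : ∀ x ∈ S, (blk N (e x) (f x) (c x)).length = N + 9 :=
      fun x hx => brf_length _ _ (hc x hx)
    -- pieces
    have tk : ∀ x ∈ S, ∀ y ∈ S, ∀ j, j < s →
        (blk N (e x) (f x) (c x)).take s = (blk N (e y) (f y) (c y)).take s →
        (blk N (e x) (f x) (c x))[j]? = (blk N (e y) (f y) (c y))[j]? := by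
      intro x hx y hy j hj h
      have h1 : ((blk N (e x) (f x) (c x)).take s)[j]? = ((blk N (e y) (f y) (c y)).take s)[j]? := by
        rw [h]
      rwa [List.getElem?_take_of_lt hj, List.getElem?_take_of_lt hj] at h1
    have dr : ∀ x ∈ S, ∀ y ∈ S, ∀ j, s ≤ j →
        (blk N (e x) (f x) (c x)).drop s = (blk N (e y) (f y) (c y)).drop s →
        (blk N (e x) (f x) (c x))[j]? = (blk N (e y) (f y) (c y))[j]? := by
      intro x hx y hy j hj h
      have h1 : ((blk N (e x) (f x) (c x)).drop s)[j - s]? =
          ((blk N (e y) (f y) (c y)).drop s)[j - s]? := by rw [h]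
      rw [List.getElem?_drop, List.getElem?_drop] at h1
      rwa [show s + (j - s) = j by omega] at h1
    -- every pair
    have pair : ∀ y ∈ Y, ∀ z ∈ Z,
        (blk N (e y) (f y) (c y)).drop s = (blk N (e z) (f z) (c z)).drop s ∨
        (blk N (e y) (f y) (c y)).take s = (blk N (e z) (f z) (c z)).take s := by
      intro y hy z hz
      obtain ⟨w, hwS, hwe⟩ := hw y hy z hz
      have hyS := hY hy
      have hzS := hZ hz
      have ly : ((blk N (e y) (f y) (c y)).take s).length = s := by
        rw [List.length_take, len y hyS]; omega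
      have e1 : (blk N (e w) (f w) (c w)).take s = (blk N (e y) (f y) (c y)).take s := by
        rw [hwe, List.take_append_of_le_length (by rw [ly]), List.take_take, min_self]
      have e2 : (blk N (e w) (f w) (c w)).drop s = (blk N (e z) (f z) (c z)).drop s := by
        rw [hwe, List.drop_append_of_le_length (by rw [ly]), List.drop_take]
        simp
      by_cases h : 6 + c w < s
      · left
        have h1 := tk w hwS y hyS (6 + c w) h e1
        rw [one w hwS] at h1
        have h2 : y = w := key y hyS w hwS h1.symm
        rw [← e2, h2]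
      · right
        have h1 := dr w hwS z hzS (6 + c w) (by omega) e2
        rw [one w hwS] at h1
        have h2 : z = w := key z hzS w hwS h1.symm
        rw [← e1, h2]
    by_contra hcon
    push Not at hcon
    obtain ⟨⟨y, hy, y', hy', hyy⟩, z, hz, z', hz', hzz⟩ := hcon
    -- the crossing lemma
    have cross : ∀ y ∈ S, ∀ y' ∈ S, ∀ z ∈ S, ∀ z' ∈ S,
        (blk N (e y) (f y) (c y)).drop s = (blk N (e z) (f z) (c z)).drop s →
        (blk N (e y) (f y) (c y)).take s = (blk N (e z') (f z') (c z')).take s →
        (blk N (e y') (f y') (c y')).take s = (blk N (e z) (f z) (c z)).take s →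
        (blk N (e y') (f y') (c y')).drop s = (blk N (e z') (f z') (c z')).drop s →
        (blk N (e y) (f y) (c y)).take s = (blk N (e y') (f y') (c y')).take s ∨
        (blk N (e z) (f z) (c z)).drop s = (blk N (e z') (f z') (c z')).drop s := by
      intro y hy y' hy' z hz z' hz' h1 h2 h3 h4
      by_cases h : 6 + c y < s
      · right
        have h5 := tk y hy z' hz' (6 + c y) h h2
        rw [one y hy] at h5
        have h6 : z' = y := key z' hz' y hy h5.symm
        rw [← h1, h6]
      · left
        have h5 := dr y hy z hz (6 + c y) (by omega) h1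
        rw [one y hy] at h5
        have h6 : z = y := key z hz y hy h5.symm
        rw [h3, h6]
    rcases pair y hy z hz with a1 | a1
    · rcases pair y hy z' hz' with a2 | a2
      · exact hzz (a1.symm.trans a2)
      · rcases pair y' hy' z' hz' with a3 | a3
        · rcases pair y' hy' z hz with a4 | a4
          · exact hzz (a4.symm.trans a3)
          · rcases cross y (hY hy) y' (hY hy') z (hZ hz) z' (hZ hz') a1 a2 a4 a3 with h | h
            · exact hyy h
            · exact hzz h
        · exact hyy (a2.trans a3.symm)
    · rcases pair y' hy' z hz with a2 | a2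
      · rcases pair y' hy' z' hz' with a3 | a3
        · exact hzz (a2.symm.trans a3)
        · rcases pair y hy z' hz' with a4 | a4
          · rcases cross y (hY hy) y' (hY hy') z' (hZ hz') z (hZ hz) a4 a1 a3 a2 with h | h
            · exact hyy h
            · exact hzz h.symm
          · exact hyy (a4.trans a3.symm)
      · exact hyy (a1.trans a2.symm)

end Pool.FE
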