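import Pool.Agent.Work.MP_e24068_el.InterfaceB

set_option autoImplicit false

namespace Pool.FE

open Pool.Agent.Work.MP_e24068_lc (Letter code HasFactorization Inst Cl Var LL to3 varsL wordsOf bound
  encNum code_inj code_le_bound mem_LLl mem_LL finite_LL factorization_iff polyF_wordsOf polyF_bound
  comp_he_nil_dN comp_he_nil_dF sat3_to3)
open Pool.Agent.Work.TMLib

/-- The instance of a formula. -/
def cfb_inst (φ : CNF) : Inst :=
  ⟨2, (wordsOf φ).map fun w => w.flatMap (blkL (bound φ))⟩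

theorem cfb_mem {φ : CNF} {w : List (Fin 2)} :
    w ∈ (cfb_inst φ).lang ↔
      ∃ v ∈ LL (to3 φ) (varsL (to3 φ)), (v.flatMap (blkL (bound φ))) = w := by
  show w ∈ (wordsOf φ).map _ ↔ _
  rw [List.mem_map]
  simp only [wordsOf, mem_LLl]

theorem cfb_lens (φ : CNF) : (cfb_inst φ).2.map List.length =
    (wordsOf φ).map fun w => (w.flatMap (blkL (bound φ))).length := by
  unfold cfb_inst
  simp only [List.map_map]
  rfl

theorem cfb_oh_val (N k : ℕ) : (oh N k).map Fin.val =
    (units k).map (fun _ => 0) ++ 1 :: (units (N - k)).map (fun _ => 0) := by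
  simp [oh, units]

theorem cfb_bit_val (b : Bool) : (bit b).val = bif b then 1 else 0 := by
  cases b <;> rfl

/-- The word of a letter as numbers. -/
def cfb_nat (N : ℕ) (x : Letter) : List ℕ :=
  (bif !decide (toTT x = (4, 0, 0)) then 1 else 0) :: 0 :: 1 :: 1 :: 1 :: 0 ::
    (((units (code x)).map (fun _ => 0) ++ 1 :: (units (N - code x)).map (fun _ => 0)) ++
      [0, (bif decide (toTT x = (6, 0, 0)) then 1 else 0)])
where
  /-- letters as triples -/
  toTT (x : Letter) : ℕ × ℕ × ℕ := Pool.Agent.Work.MP_e24068_lc.toT x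

theorem cfb_he (x : Letter) : decide (cfb_nat.toTT x = (4, 0, 0)) = decide (x = Letter.he) := by
  cases x <;> simp [cfb_nat.toTT, Pool.Agent.Work.MP_e24068_lc.toT]

theorem cfb_dF (x : Letter) : decide (cfb_nat.toTT x = (6, 0, 0)) = decide (x = Letter.dF) := by
  cases x <;> simp [cfb_nat.toTT, Pool.Agent.Work.MP_e24068_lc.toT]

theorem cfb_val (N : ℕ) (x : Letter) : (blkL N x).map Fin.val = cfb_nat N x := by
  rw [blkL, blk, cfb_nat, cfb_he, cfb_dF, ← cfb_oh_val]
  simp [cfb_bit_val]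

theorem cfb_polyF_toTT {α : Type} [DE α] {f : α → Letter} (hf : PolyF f) :
    PolyF (fun x => cfb_nat.toTT (f x)) :=
  Pool.Agent.Work.MP_e24068_lc.PolyF.toT hf

theorem cfb_polyF_zeros {α : Type} [DE α] {f : α → ℕ} (hf : PolyF f) :
    PolyF (fun x => (units (f x)).map (fun _ => 0)) :=
  PolyF.map (l := fun x => units (f x)) (f := fun _ _ => 0) (by fun_prop) (by fun_prop)

theorem cfb_polyF_nat {α : Type} [DE α] {f : α → ℕ} {g : α → Letter} (hf : PolyF f)
    (hg : PolyF g) : PolyF (fun x => cfb_nat (f x) (g x)) := by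
  unfold cfb_nat
  have h1 := cfb_polyF_toTT hg
  have h2 : PolyF (fun x => code (g x)) := by fun_prop
  have h3 := cfb_polyF_zeros h2
  have h4 := cfb_polyF_zeros (PolyF.sub hf h2)
  have h5 : PolyF (fun x => decide (cfb_nat.toTT (g x) = (4, 0, 0))) :=
    PolyF.eq h1 (by fun_prop)
  have h6 : PolyF (fun x => decide (cfb_nat.toTT (g x) = (6, 0, 0))) :=
    PolyF.eq h1 (by fun_prop)
  fun_prop

/-- The string of the instance of a formula. -/
def cfb_str (φ : CNF) : List (Fin 3) :=
  encNum 2 ++ (wordsOf φ).flatMap fun w =>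
    (w.flatMap fun x => (cfb_nat (bound φ) x).flatMap fun b => encNum b) ++ [2]

theorem cfb_enc (φ : CNF) : (cfb_inst φ).enc = cfb_str φ := by
  unfold Inst.enc cfb_inst cfb_str
  simp only
  rw [List.flatMap_map]
  congr 1
  refine List.flatMap_congr fun w _ => ?_
  congr 1
  rw [List.flatMap_assoc]
  refine List.flatMap_congr fun x _ => ?_
  rw [← cfb_val, List.flatMap_map]

theorem cfb_polyF_str : PolyF cfb_str := by
  have hw := polyF_wordsOf
  have hb := polyF_bound
  unfold cfb_str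
  refine PolyF.append (by fun_prop) ?_
  refine PolyF.flatMap (l := fun φ : CNF => wordsOf φ)
    (f := fun φ w => (w.flatMap fun x => (cfb_nat (bound φ) x).flatMap fun b => encNum b) ++ [2])
    hw ?_
  refine PolyF.append ?_ (by fun_prop)
  refine PolyF.flatMap (l := fun p : CNF × List Letter => p.2)
    (f := fun p x => (cfb_nat (bound p.1) x).flatMap fun b => encNum b) (by fun_prop) ?_
  refine PolyF.flatMap (l := fun q : (CNF × List Letter) × Letter => cfb_nat (bound q.1.1) q.2)
    (f := fun _ b => encNum b) ?_ (by fun_prop)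
  exact cfb_polyF_nat (PolyF.comp (f := bound) (g := fun q : (CNF × List Letter) × Letter => q.1.1)
    hb (by fun_prop)) (by fun_prop)

/-- The letters of the words. -/
def cfb_S (φ : CNF) : Set Letter := {x | ∃ w ∈ wordsOf φ, x ∈ w}

theorem cfb_last (N : ℕ) (x : Letter) :
    (blkL N x).getLast? = some (bit (decide (x = Letter.dF))) := by
  have : blkL N x = (bit (!decide (x = Letter.he)) :: 0 :: 1 :: 1 :: 1 :: 0 :: (oh N (code x) ++ [0])) ++
      [bit (decide (x = Letter.dF))] := by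
    simp [blkL, blk]
  rw [this, List.getLast?_append]
  simp

theorem cfb_sat (hIMG : Stmt_IMG) (hUMO : Stmt_UMO) (hBRF : Stmt_BRF) (φ : CNF) :
    HasFactorization (cfb_inst φ).lang ↔ Sat φ := by
  have hne : ∃ w, w ∈ LL (to3 φ) (varsL (to3 φ)) := ⟨_, mem_LL.2 comp_he_nil_dN⟩
  have hS : ∀ w ∈ LL (to3 φ) (varsL (to3 φ)), ∀ x ∈ w, x ∈ cfb_S φ :=
    fun w hw x hx => ⟨w, mem_LLl.2 hw, hx⟩
  have hc : ∀ x ∈ cfb_S φ, code x ≤ bound φ := by
    rintro x ⟨w, hw, hx⟩
    exact code_le_bound hw hx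
  obtain ⟨b1, b2, b3⟩ := hBRF Letter (fun x => !decide (x = Letter.he)) (fun x => decide (x = Letter.dF))
    code (bound φ) (cfb_S φ) hc (fun x _ y _ h => code_inj h)
  constructor
  · intro h
    by_cases h3 : to3 φ = []
    · rw [← sat3_to3, h3]
      exact ⟨fun _ => true, by simp⟩
    · rw [← factorization_iff]
      have hm : ∀ v ∈ LL (to3 φ) (varsL (to3 φ)), v.flatMap (blkL (bound φ)) ∈ (cfb_inst φ).lang :=
        fun v hv => cfb_mem.2 ⟨v, hv, rfl⟩
      have m1 := hm _ (mem_LL.2 comp_he_nil_dN)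
      have m2 := hm _ (mem_LL.2 comp_he_nil_dF)
      obtain ⟨c, l, hcl⟩ := List.exists_cons_of_ne_nil h3
      have hc0 : (to3 φ)[0]? = some c := by rw [hcl]; rfl
      have hcomp : Pool.Agent.Work.MP_e24068_lc.Comp (to3 φ) (varsL (to3 φ)) (Letter.h 0) Letter.dN [] :=
        .inl ⟨0, c, hc0, rfl, rfl, [], [], .inl ⟨0, .inl rfl, rfl⟩, ⟨0, by omega, [], .inl rfl, rfl⟩, rfl⟩
      have m3 := hm _ (mem_LL.2 hcomp)
      refine hUMO Letter (Fin 2) (blkL (bound φ)) (bound φ + 9) (cfb_S φ) (LL (to3 φ) (varsL (to3 φ)))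
        (cfb_inst φ).lang (by omega) b1 b2 hS (finite_LL _ _) hne (fun w => cfb_mem) b3 ?_ ?_ h
      · refine ⟨_, m1, _, m3, ?_⟩
        simp [blkL, blk, bit]
      · refine ⟨_, m1, _, m2, ?_⟩
        simp only [List.nil_append, List.flatMap_cons, List.flatMap_nil, List.append_nil,
          List.getLast?_append, cfb_last]
        simp [bit]
  · intro h
    refine hIMG Letter (Fin 2) (blkL (bound φ)) (LL (to3 φ) (varsL (to3 φ))) (cfb_inst φ).lang ?_
      (fun w => cfb_mem) hne ((factorization_iff φ).2 h)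
    intro w _ x _
    simp [blkL, blk]

theorem cfb_props (hBRF : Stmt_BRF) (hCFI : Stmt_CFI) (hCFO : Stmt_CFO) (φ : CNF) :
    (cfb_inst φ).2 ≠ [] ∧ CommaFree (cfb_inst φ).lang ∧
      ((cfb_inst φ).2.map List.length).toFinset.card ≤ 14 := by
  have hS : ∀ w ∈ LL (to3 φ) (varsL (to3 φ)), ∀ x ∈ w, x ∈ cfb_S φ :=
    fun w hw x hx => ⟨w, mem_LLl.2 hw, hx⟩
  have hc : ∀ x ∈ cfb_S φ, code x ≤ bound φ := by
    rintro x ⟨w, hw, hx⟩
    exact code_le_bound hw hx
  obtain ⟨b1, -, -⟩ := hBRF Letter (fun x => !decide (x = Letter.he))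
    (fun x => decide (x = Letter.dF)) code (bound φ) (cfb_S φ) hc (fun x _ y _ h => code_inj h)
  obtain ⟨hcf, hlen⟩ := hCFO (to3 φ) (varsL (to3 φ))
  refine ⟨?_, ?_, ?_⟩
  · intro h
    have h1 : ([Letter.he, Letter.dN] : List Letter) ∈ wordsOf φ :=
      mem_LLl.2 (mem_LL.2 comp_he_nil_dN)
    have h2 : (wordsOf φ).map (fun w => w.flatMap (blkL (bound φ))) = [] := h
    rw [List.map_eq_nil_iff] at h2
    rw [h2] at h1
    simp at h1
  · exact hCFI Letter (fun x => !decide (x = Letter.he)) (fun x => decide (x = Letter.dF)) code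
      (bound φ) (cfb_S φ) (LL (to3 φ) (varsL (to3 φ))) (cfb_inst φ).lang hc
      (fun x _ y _ h => code_inj h) hS hcf (fun w => cfb_mem)
  · have key : ∀ v : List Letter, (∀ x ∈ v, x ∈ cfb_S φ) →
        (v.flatMap (blkL (bound φ))).length = v.length * (bound φ + 9) := by
      intro v
      induction v with
      | nil => intro _; simp
      | cons x v ih =>
        intro hv
        have h1 : (blkL (bound φ) x).length = bound φ + 9 := b1 x (hv x (by simp))
        rw [List.flatMap_cons, List.length_append, h1, ih (fun y hy => hv y (by simp [hy])),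
          List.length_cons]
        ring
    have hsub : (((wordsOf φ).map fun w => (w.flatMap (blkL (bound φ))).length).toFinset) ⊆
        (Finset.Icc 2 15).image (fun i => i * (bound φ + 9)) := by
      intro n hn
      rw [List.mem_toFinset, List.mem_map] at hn
      obtain ⟨v, hv, rfl⟩ := hn
      have hv' := mem_LLl.1 hv
      rw [key v (hS v hv'), Finset.mem_image]
      refine ⟨v.length, ?_, rfl⟩
      rw [Finset.mem_Icc]
      exact hlen v hv'
    have h1 := Finset.card_le_card hsub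
    have h2 : ((Finset.Icc 2 15).image (fun i => i * (bound φ + 9))).card ≤
        (Finset.Icc 2 15).card := Finset.card_image_le
    have h3 : (Finset.Icc 2 15).card = 14 := by simp
    rw [cfb_lens]
    exact h1.trans (h2.trans h3.le)

theorem p_CFB (hIMG : Stmt_IMG) (hUMO : Stmt_UMO) (hBRF : Stmt_BRF) (hCFI : Stmt_CFI)
    (hCFO : Stmt_CFO) : Stmt_CFB := by
  intro L hL
  obtain ⟨g, hg, hgL⟩ := cook_levin L hL
  refine ⟨fun w => cfb_inst (g w), ?_, ?_⟩
  · refine PolyTime.of_PolyF (A := Bool) (B := Fin 3) (N := 2) (M := 3) finTwoEquiv.symm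
      (Equiv.refl _) (g := fun w => cfb_str (g (w.map finTwoEquiv))) ?_ ?_
    · refine PolyF.comp (f := cfb_str) (g := fun w : List (Fin 2) => g (w.map finTwoEquiv))
        cfb_polyF_str (PolyF.comp (f := g) hg ?_)
      exact PolyF.map (l := fun w : List (Fin 2) => w) (f := fun _ b => finTwoEquiv b)
        (by fun_prop) (by fun_prop)
    · intro w
      rw [cfb_enc]
      simp [List.map_map, Function.comp_def]
  · intro w
    obtain ⟨h1, h2, h3⟩ := cfb_props hBRF hCFI hCFO (g w)
    exact ⟨⟨rfl, h1, h2, h3⟩, (hgL w).trans (cfb_sat hIMG hUMO hBRF (g w)).symm⟩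

end Pool.FE
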