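import Pool.Agent.Work.MP_e24068_el.InterfaceB

set_option autoImplicit false

namespace Pool.FE

theorem cfi_take {α β : Type} {φ : α → List β} {m : ℕ} {S : Set α}
    (hφ : ∀ x ∈ S, (φ x).length = m) : ∀ (j : ℕ) (w : List α), (∀ x ∈ w, x ∈ S) →
    (w.flatMap φ).take (j * m) = (w.take j).flatMap φ ∧
    (w.flatMap φ).drop (j * m) = (w.drop j).flatMap φ := by
  intro j
  induction j with
  | zero => intro w _; simp
  | succ j ih =>
    intro w hw
    cases w with
    | nil => simp
    | cons x w =>
      have hx : (φ x).length = m := hφ x (hw x (by simp))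
      obtain ⟨h1, h2⟩ := ih w (fun y hy => hw y (by simp [hy]))
      have e : (j + 1) * m = (φ x).length + j * m := by rw [hx]; ring
      constructor
      · rw [List.flatMap_cons, List.take_succ_cons, List.flatMap_cons, e,
          List.take_length_add_append, h1]
      · rw [List.flatMap_cons, List.drop_succ_cons, e, List.drop_length_add_append, h2]

theorem cfi_inj {α β : Type} {φ : α → List β} {m : ℕ} {S : Set α} (hm : 0 < m)
    (hφ : ∀ x ∈ S, (φ x).length = m) (hi : Set.InjOn φ S) : ∀ w w' : List α,
    (∀ x ∈ w, x ∈ S) → (∀ x ∈ w', x ∈ S) → w.flatMap φ = w'.flatMap φ → w = w' := by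
  intro w
  induction w with
  | nil =>
    intro w' _ hw' h
    cases w' with
    | nil => rfl
    | cons x w' =>
      exfalso
      have := congrArg List.length h
      rw [List.flatMap_cons, List.length_append, hφ x (hw' x (by simp))] at this
      simp at this
      omega
  | cons x w ih =>
    intro w' hw hw' h
    cases w' with
    | nil =>
      exfalso
      have := congrArg List.length h
      rw [List.flatMap_cons, List.length_append, hφ x (hw x (by simp))] at this
      simp at this
      omega
    | cons x' w' =>
      rw [List.flatMap_cons, List.flatMap_cons] at h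
      have hx := hw x (by simp)
      have hx' := hw' x' (by simp)
      obtain ⟨h1, h2⟩ := List.append_inj h (by rw [hφ x hx, hφ x' hx'])
      rw [hi hx hx' h1, ih w' (fun y hy => hw y (by simp [hy])) (fun y hy => hw' y (by simp [hy])) h2]

theorem cfi_mod {N a : ℕ} (h : (a + 2) % (N + 9) = 2) : ∃ q, a = q * (N + 9) := by
  have h1 : a = (N + 9) * (a / (N + 9)) + a % (N + 9) := (Nat.div_add_mod a (N + 9)).symm
  have h2 : a % (N + 9) < N + 9 := Nat.mod_lt _ (by omega)
  have h3 : (a % (N + 9) + 2) % (N + 9) = 2 := by
    rw [Nat.mod_add_mod]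
    exact h
  have h4 : a % (N + 9) = 0 := by
    by_cases h5 : a % (N + 9) + 2 < N + 9
    · rw [Nat.mod_eq_of_lt h5] at h3
      omega
    · exfalso
      have h6 : a % (N + 9) + 2 = (N + 9) + (a % (N + 9) + 2 - (N + 9)) := by omega
      rw [h6, Nat.add_mod_left, Nat.mod_eq_of_lt (by omega)] at h3
      omega
  exact ⟨a / (N + 9), by rw [h4] at h1; rw [mul_comm]; omega⟩

theorem p_CFI (h1 : Stmt_SYN) (h2 : Stmt_BRF) : Stmt_CFI := by
  intro α e f c N S L M hc hinj hS hL hM
  obtain ⟨hlen, hφi, -⟩ := h2 α e f c N S hc hinj
  refine ⟨?_, ?_⟩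
  · intro h
    obtain ⟨v, hv, hv'⟩ := (hM []).1 h
    have h0 : v = [] := by
      cases v with
      | nil => rfl
      | cons x v => simp [blk] at hv'
    rw [h0] at hv
    exact hL.1 hv
  · intro x' hx' y' hy' z' hz' s t hst
    obtain ⟨x, hx, rfl⟩ := (hM x').1 hx'
    obtain ⟨y, hy, rfl⟩ := (hM y').1 hy'
    obtain ⟨z, hz, rfl⟩ := (hM z').1 hz'
    have hzne : z ≠ [] := by
      rintro rfl
      exact hL.1 hz
    have hu : ((x ++ y).flatMap fun x => blk N (e x) (f x) (c x)) =
        s ++ (z.flatMap fun x => blk N (e x) (f x) (c x)) ++ t := by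
      rw [List.flatMap_append]
      exact hst
    have hxy : ∀ a ∈ x ++ y, a ∈ S := by
      intro a ha
      rcases List.mem_append.1 ha with ha | ha
      · exact hS x hx a ha
      · exact hS y hy a ha
    have hzS : ∀ a ∈ z, a ∈ S := hS z hz
    have hmod : (s.length + 2) % (N + 9) = 2 := by
      obtain ⟨z0, z1, rfl⟩ := List.exists_cons_of_ne_nil hzne
      apply h1 α e f c N (x ++ y) (fun a ha => hc a (hxy a ha))
      · rw [hu, List.append_assoc, List.getElem?_append_right (by omega)]
        have : s.length + 2 - s.length = 2 := by omega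
        rw [this, List.flatMap_cons]
        simp [blk]
      · rw [hu, List.append_assoc, List.getElem?_append_right (by omega)]
        have : s.length + 2 + 1 - s.length = 3 := by omega
        rw [this, List.flatMap_cons]
        simp [blk]
      · rw [hu, List.append_assoc, List.getElem?_append_right (by omega)]
        have : s.length + 2 + 2 - s.length = 4 := by omega
        rw [this, List.flatMap_cons]
        simp [blk]
    obtain ⟨q, hq⟩ := cfi_mod hmod
    obtain ⟨e1, e2⟩ := cfi_take hlen q (x ++ y) hxy
    rw [hu, List.append_assoc, ← hq, List.take_left] at e1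
    rw [hu, List.append_assoc, ← hq, List.drop_left] at e2
    have hd : ∀ a ∈ (x ++ y).drop q, a ∈ S := fun a ha => hxy a (List.mem_of_mem_drop ha)
    obtain ⟨e3, e4⟩ := cfi_take hlen z.length ((x ++ y).drop q) hd
    have hzl : (z.flatMap fun x => blk N (e x) (f x) (c x)).length = z.length * (N + 9) := by
      obtain ⟨g1, -⟩ := cfi_take hlen z.length z hzS
      clear g1
      clear * - hlen hzS
      induction z with
      | nil => simp
      | cons a z ih =>
        rw [List.flatMap_cons, List.length_append, hlen a (hzS a (by simp)),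
          ih (fun b hb => hzS b (by simp [hb])), List.length_cons]
        ring
    rw [← e2, ← hzl, List.take_left] at e3
    rw [← e2, ← hzl, List.drop_left] at e4
    have hz2 : z = ((x ++ y).drop q).take z.length :=
      cfi_inj (by omega) hlen hφi z _ hzS (fun a ha => hd a (List.mem_of_mem_take ha)) e3
    have hfin := hL.2 x hx y hy z hz ((x ++ y).take q) (((x ++ y).drop q).drop z.length) (by
      conv_rhs => rw [List.append_assoc]
      have h6 : z ++ ((x ++ y).drop q).drop z.length = (x ++ y).drop q := by
        conv_lhs => rw [hz2]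
        have h7 : (((x ++ y).drop q).take z.length).length = z.length := by
          rw [← hz2]
        rw [h7]
        exact List.take_append_drop _ _
      rw [h6]
      exact (List.take_append_drop _ _).symm)
    rcases hfin with h | h
    · left
      rw [e1, h]
      rfl
    · right
      rw [e4, h]
      rfl

end Pool.FE
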