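import Pool.Agent.Work.MP_e24068_el.InterfaceB

set_option autoImplicit false

namespace Pool.FE

open Pool.Agent.Work.MP_e24068_lc

theorem CFO_cf (ψ : List Cl) (V : List Var) : CommaFree (LL ψ V) := by
  refine ⟨?_, ?_⟩
  · rintro ⟨r, d, x, -, h⟩
    simp at h
  · rintro x ⟨r1, d1, x1, c1, rfl⟩ y ⟨r2, d2, x2, c2, rfl⟩ z ⟨r3, d3, x3, c3, rfl⟩ s t h
    obtain ⟨R1, D1, F1⟩ := c1.free
    obtain ⟨R2, D2, F2⟩ := c2.free
    obtain ⟨R3, D3, F3⟩ := c3.free
    by_contra hc
    push Not at hc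
    obtain ⟨hs, ht⟩ := hc
    obtain ⟨c, s', rfl⟩ := List.exists_cons_of_ne_nil hs
    obtain ⟨t', e, rfl⟩ : ∃ t' e, t = t' ++ [e] :=
      ⟨t.dropLast, t.getLast ht, (List.dropLast_append_getLast ht).symm⟩
    have h1 : (x1 ++ [d1]) ++ (r2 :: x2) ++ [d2] = s' ++ (r3 :: (x3 ++ [d3] ++ t')) ++ [e] := by
      have := h
      simp only [List.cons_append, List.cons.injEq] at this
      simpa [List.append_assoc] using this.2
    have h2 : (x1 ++ [d1]) ++ (r2 :: x2) = s' ++ (r3 :: (x3 ++ [d3] ++ t')) :=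
      (List.append_inj' h1 rfl).1
    rcases List.append_eq_append_iff.1 h2 with ⟨m, -, hm⟩ | ⟨m, hm1, hm2⟩
    · have hd : d3 ∈ r2 :: x2 := by rw [hm]; simp
      rcases List.mem_cons.1 hd with h3 | h3
      · exact isR_not_isD R2 (h3 ▸ D3)
      · exact (F2 d3 h3).2 D3
    · cases m with
      | nil =>
        have hd : d3 ∈ r2 :: x2 := by
          rw [List.nil_append] at hm2
          rw [← hm2]; simp
        rcases List.mem_cons.1 hd with h3 | h3
        · exact isR_not_isD R2 (h3 ▸ D3)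
        · exact (F2 d3 h3).2 D3
      | cons b m' =>
        simp only [List.cons_append, List.cons.injEq] at hm2
        have hr : r3 ∈ x1 ++ [d1] := by rw [hm1, hm2.1]; simp
        rcases List.mem_append.1 hr with h3 | h3
        · exact (F1 r3 h3).1 R3
        · rw [List.mem_singleton] at h3
          exact isR_not_isD R3 (h3 ▸ D1)

theorem p_CFO : Stmt_CFO := by
  intro ψ V
  refine ⟨CFO_cf ψ V, fun w hw => ⟨?_, length_LL hw⟩⟩
  obtain ⟨r, d, x, -, rfl⟩ := hw
  simp

end Pool.FE
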