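import Pool.Agent.Work.MP_e24068_el.Interface8
set_option autoImplicit false

/-! Block CMB: two sets of numbers with at most eight sums (helper65). -/

namespace Pool.FE

open Finset
open scoped Pointwise

theorem CMB_chain (C : Finset ℕ) (hC : C.card ≤ 8) (c0 c1 c2 c3 c4 c5 c6 c7 c8 : ℕ)
    (h0 : c0 ∈ C) (h1 : c1 ∈ C) (h2 : c2 ∈ C) (h3 : c3 ∈ C) (h4 : c4 ∈ C) (h5 : c5 ∈ C) (h6 : c6 ∈ C)
    (h7 : c7 ∈ C) (h8 : c8 ∈ C) (l0 : c0 < c1) (l1 : c1 < c2) (l2 : c2 < c3) (l3 : c3 < c4)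
    (l4 : c4 < c5) (l5 : c5 < c6) (l6 : c6 < c7) (l7 : c7 < c8) : False := by
  have hn : [c0, c1, c2, c3, c4, c5, c6, c7, c8].Nodup := by
    simp only [List.nodup_cons, List.mem_cons, List.not_mem_nil, List.nodup_nil, or_false, not_or,
      not_false_iff, and_true]
    refine ⟨⟨?_, ?_, ?_, ?_, ?_, ?_, ?_, ?_⟩, ⟨?_, ?_, ?_, ?_, ?_, ?_, ?_⟩, ⟨?_, ?_, ?_, ?_, ?_, ?_⟩,
      ⟨?_, ?_, ?_, ?_, ?_⟩, ⟨?_, ?_, ?_, ?_⟩, ⟨?_, ?_, ?_⟩, ⟨?_, ?_⟩, ?_⟩ <;> omega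
  have hc := List.toFinset_card_of_nodup hn
  have hs : [c0, c1, c2, c3, c4, c5, c6, c7, c8].toFinset ⊆ C := by
    intro x hx
    simp only [List.mem_toFinset, List.mem_cons, List.not_mem_nil, or_false] at hx
    rcases hx with rfl | rfl | rfl | rfl | rfl | rfl | rfl | rfl | rfl <;> assumption
  have h9 := card_le_card hs
  rw [hc] at h9
  simp only [List.length_cons, List.length_nil] at h9
  omega

theorem CMB_s2 (A : Finset ℕ) (h : A.card = 2) : ∃ a0 a1, a0 < a1 ∧ A = {a0, a1} := by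
  have hr := Finset.range_orderEmbOfFin A h
  have hm := (A.orderEmbOfFin h).strictMono
  refine ⟨A.orderEmbOfFin h 0, A.orderEmbOfFin h 1, hm (by decide), ?_⟩
  ext x
  rw [← Finset.mem_coe, ← hr, Set.mem_range]
  constructor
  · rintro ⟨i, rfl⟩
    fin_cases i <;> simp
  · intro hx
    simp only [mem_insert, mem_singleton] at hx
    rcases hx with hx | hx
    · exact ⟨0, hx.symm⟩
    · exact ⟨1, hx.symm⟩

theorem CMB_s3 (A : Finset ℕ) (h : A.card = 3) : ∃ a0 a1 a2, a0 < a1 ∧ a1 < a2 ∧ A = {a0, a1, a2} := by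
  have hr := Finset.range_orderEmbOfFin A h
  have hm := (A.orderEmbOfFin h).strictMono
  refine ⟨A.orderEmbOfFin h 0, A.orderEmbOfFin h 1, A.orderEmbOfFin h 2, hm (by decide), hm (by decide), ?_⟩
  ext x
  rw [← Finset.mem_coe, ← hr, Set.mem_range]
  constructor
  · rintro ⟨i, rfl⟩
    fin_cases i <;> simp
  · intro hx
    simp only [mem_insert, mem_singleton] at hx
    rcases hx with hx | hx | hx
    · exact ⟨0, hx.symm⟩
    · exact ⟨1, hx.symm⟩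
    · exact ⟨2, hx.symm⟩

theorem CMB_s4 (A : Finset ℕ) (h : A.card = 4) : ∃ a0 a1 a2 a3, a0 < a1 ∧ a1 < a2 ∧ a2 < a3 ∧
    A = {a0, a1, a2, a3} := by
  have hr := Finset.range_orderEmbOfFin A h
  have hm := (A.orderEmbOfFin h).strictMono
  refine ⟨A.orderEmbOfFin h 0, A.orderEmbOfFin h 1, A.orderEmbOfFin h 2, A.orderEmbOfFin h 3,
    hm (by decide), hm (by decide), hm (by decide), ?_⟩
  ext x
  rw [← Finset.mem_coe, ← hr, Set.mem_range]
  constructor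
  · rintro ⟨i, rfl⟩
    fin_cases i <;> simp
  · intro hx
    simp only [mem_insert, mem_singleton] at hx
    rcases hx with hx | hx | hx | hx
    · exact ⟨0, hx.symm⟩
    · exact ⟨1, hx.symm⟩
    · exact ⟨2, hx.symm⟩
    · exact ⟨3, hx.symm⟩

theorem CMB_s5 (A : Finset ℕ) (h : A.card = 5) : ∃ a0 a1 a2 a3 a4, a0 < a1 ∧ a1 < a2 ∧ a2 < a3 ∧
    a3 < a4 ∧ A = {a0, a1, a2, a3, a4} := by
  have hr := Finset.range_orderEmbOfFin A h
  have hm := (A.orderEmbOfFin h).strictMono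
  refine ⟨A.orderEmbOfFin h 0, A.orderEmbOfFin h 1, A.orderEmbOfFin h 2, A.orderEmbOfFin h 3,
    A.orderEmbOfFin h 4, hm (by decide), hm (by decide), hm (by decide), hm (by decide), ?_⟩
  ext x
  rw [← Finset.mem_coe, ← hr, Set.mem_range]
  constructor
  · rintro ⟨i, rfl⟩
    fin_cases i <;> simp
  · intro hx
    simp only [mem_insert, mem_singleton] at hx
    rcases hx with hx | hx | hx | hx | hx
    · exact ⟨0, hx.symm⟩
    · exact ⟨1, hx.symm⟩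
    · exact ⟨2, hx.symm⟩
    · exact ⟨3, hx.symm⟩
    · exact ⟨4, hx.symm⟩

theorem CMB_45 (A B : Finset ℕ) (hA : A.card = 4) (hB : B.card = 5)
    (hC : (Finset.image (fun x : ℕ × ℕ => x.1 + x.2) (A ×ˢ B)).card ≤ 8) :
    ∃ a b d, 0 < d ∧ A = {a, a + d, a + 2 * d, a + 3 * d} ∧
      B = {b, b + d, b + 2 * d, b + 3 * d, b + 4 * d} := by
  obtain ⟨a0, a1, a2, a3, p0, p1, p2, rfl⟩ := CMB_s4 A hA
  obtain ⟨b0, b1, b2, b3, b4, q0, q1, q2, q3, rfl⟩ := CMB_s5 B hB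
  have hm : ∀ x y, x ∈ ({a0, a1, a2, a3} : Finset ℕ) → y ∈ ({b0, b1, b2, b3, b4} : Finset ℕ) →
      x + y ∈ Finset.image (fun x : ℕ × ℕ => x.1 + x.2) (({a0, a1, a2, a3} : Finset ℕ) ×ˢ
        ({b0, b1, b2, b3, b4} : Finset ℕ)) := by
    intro x y hx hy
    exact mem_image.2 ⟨(x, y), mem_product.2 ⟨hx, hy⟩, rfl⟩
  have ma0 : a0 ∈ ({a0, a1, a2, a3} : Finset ℕ) := by simp
  have ma1 : a1 ∈ ({a0, a1, a2, a3} : Finset ℕ) := by simp
  have ma2 : a2 ∈ ({a0, a1, a2, a3} : Finset ℕ) := by simp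
  have ma3 : a3 ∈ ({a0, a1, a2, a3} : Finset ℕ) := by simp
  have mb0 : b0 ∈ ({b0, b1, b2, b3, b4} : Finset ℕ) := by simp
  have mb1 : b1 ∈ ({b0, b1, b2, b3, b4} : Finset ℕ) := by simp
  have mb2 : b2 ∈ ({b0, b1, b2, b3, b4} : Finset ℕ) := by simp
  have mb3 : b3 ∈ ({b0, b1, b2, b3, b4} : Finset ℕ) := by simp
  have mb4 : b4 ∈ ({b0, b1, b2, b3, b4} : Finset ℕ) := by simp
  have e00 : a0 + b1 = a1 + b0 := by
    rcases lt_trichotomy (a0 + b1) (a1 + b0) with h | h | h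
    · exact (CMB_chain _ hC (a0 + b0) (a0 + b1) (a1 + b0) (a1 + b1) (a2 + b1) (a3 + b1) (a3 + b2) (a3 + b3) (a3 + b4)
        (hm _ _ ma0 mb0) (hm _ _ ma0 mb1) (hm _ _ ma1 mb0) (hm _ _ ma1 mb1) (hm _ _ ma2 mb1) (hm _ _ ma3 mb1) (hm _ _ ma3 mb2) (hm _ _ ma3 mb3) (hm _ _ ma3 mb4)
        (by omega) (by omega) (by omega) (by omega) (by omega) (by omega) (by omega) (by omega)).elim
    · exact h
    · exact (CMB_chain _ hC (a0 + b0) (a1 + b0) (a0 + b1) (a1 + b1) (a2 + b1) (a3 + b1) (a3 + b2) (a3 + b3) (a3 + b4)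
        (hm _ _ ma0 mb0) (hm _ _ ma1 mb0) (hm _ _ ma0 mb1) (hm _ _ ma1 mb1) (hm _ _ ma2 mb1) (hm _ _ ma3 mb1) (hm _ _ ma3 mb2) (hm _ _ ma3 mb3) (hm _ _ ma3 mb4)
        (by omega) (by omega) (by omega) (by omega) (by omega) (by omega) (by omega) (by omega)).elim
  have e01 : a0 + b2 = a1 + b1 := by
    rcases lt_trichotomy (a0 + b2) (a1 + b1) with h | h | h
    · exact (CMB_chain _ hC (a0 + b0) (a0 + b1) (a0 + b2) (a1 + b1) (a1 + b2) (a2 + b2) (a3 + b2) (a3 + b3) (a3 + b4)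
        (hm _ _ ma0 mb0) (hm _ _ ma0 mb1) (hm _ _ ma0 mb2) (hm _ _ ma1 mb1) (hm _ _ ma1 mb2) (hm _ _ ma2 mb2) (hm _ _ ma3 mb2) (hm _ _ ma3 mb3) (hm _ _ ma3 mb4)
        (by omega) (by omega) (by omega) (by omega) (by omega) (by omega) (by omega) (by omega)).elim
    · exact h
    · exact (CMB_chain _ hC (a0 + b0) (a0 + b1) (a1 + b1) (a0 + b2) (a1 + b2) (a2 + b2) (a3 + b2) (a3 + b3) (a3 + b4)
        (hm _ _ ma0 mb0) (hm _ _ ma0 mb1) (hm _ _ ma1 mb1) (hm _ _ ma0 mb2) (hm _ _ ma1 mb2) (hm _ _ ma2 mb2) (hm _ _ ma3 mb2) (hm _ _ ma3 mb3) (hm _ _ ma3 mb4)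
        (by omega) (by omega) (by omega) (by omega) (by omega) (by omega) (by omega) (by omega)).elim
  have e02 : a0 + b3 = a1 + b2 := by
    rcases lt_trichotomy (a0 + b3) (a1 + b2) with h | h | h
    · exact (CMB_chain _ hC (a0 + b0) (a0 + b1) (a0 + b2) (a0 + b3) (a1 + b2) (a1 + b3) (a2 + b3) (a3 + b3) (a3 + b4)
        (hm _ _ ma0 mb0) (hm _ _ ma0 mb1) (hm _ _ ma0 mb2) (hm _ _ ma0 mb3) (hm _ _ ma1 mb2) (hm _ _ ma1 mb3) (hm _ _ ma2 mb3) (hm _ _ ma3 mb3) (hm _ _ ma3 mb4)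
        (by omega) (by omega) (by omega) (by omega) (by omega) (by omega) (by omega) (by omega)).elim
    · exact h
    · exact (CMB_chain _ hC (a0 + b0) (a0 + b1) (a0 + b2) (a1 + b2) (a0 + b3) (a1 + b3) (a2 + b3) (a3 + b3) (a3 + b4)
        (hm _ _ ma0 mb0) (hm _ _ ma0 mb1) (hm _ _ ma0 mb2) (hm _ _ ma1 mb2) (hm _ _ ma0 mb3) (hm _ _ ma1 mb3) (hm _ _ ma2 mb3) (hm _ _ ma3 mb3) (hm _ _ ma3 mb4)
        (by omega) (by omega) (by omega) (by omega) (by omega) (by omega) (by omega) (by omega)).elim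
  have e03 : a0 + b4 = a1 + b3 := by
    rcases lt_trichotomy (a0 + b4) (a1 + b3) with h | h | h
    · exact (CMB_chain _ hC (a0 + b0) (a0 + b1) (a0 + b2) (a0 + b3) (a0 + b4) (a1 + b3) (a1 + b4) (a2 + b4) (a3 + b4)
        (hm _ _ ma0 mb0) (hm _ _ ma0 mb1) (hm _ _ ma0 mb2) (hm _ _ ma0 mb3) (hm _ _ ma0 mb4) (hm _ _ ma1 mb3) (hm _ _ ma1 mb4) (hm _ _ ma2 mb4) (hm _ _ ma3 mb4)
        (by omega) (by omega) (by omega) (by omega) (by omega) (by omega) (by omega) (by omega)).elim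
    · exact h
    · exact (CMB_chain _ hC (a0 + b0) (a0 + b1) (a0 + b2) (a0 + b3) (a1 + b3) (a0 + b4) (a1 + b4) (a2 + b4) (a3 + b4)
        (hm _ _ ma0 mb0) (hm _ _ ma0 mb1) (hm _ _ ma0 mb2) (hm _ _ ma0 mb3) (hm _ _ ma1 mb3) (hm _ _ ma0 mb4) (hm _ _ ma1 mb4) (hm _ _ ma2 mb4) (hm _ _ ma3 mb4)
        (by omega) (by omega) (by omega) (by omega) (by omega) (by omega) (by omega) (by omega)).elim
  have e10 : a1 + b1 = a2 + b0 := by
    rcases lt_trichotomy (a1 + b1) (a2 + b0) with h | h | h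
    · exact (CMB_chain _ hC (a0 + b0) (a1 + b0) (a1 + b1) (a2 + b0) (a2 + b1) (a3 + b1) (a3 + b2) (a3 + b3) (a3 + b4)
        (hm _ _ ma0 mb0) (hm _ _ ma1 mb0) (hm _ _ ma1 mb1) (hm _ _ ma2 mb0) (hm _ _ ma2 mb1) (hm _ _ ma3 mb1) (hm _ _ ma3 mb2) (hm _ _ ma3 mb3) (hm _ _ ma3 mb4)
        (by omega) (by omega) (by omega) (by omega) (by omega) (by omega) (by omega) (by omega)).elim
    · exact h
    · exact (CMB_chain _ hC (a0 + b0) (a1 + b0) (a2 + b0) (a1 + b1) (a2 + b1) (a3 + b1) (a3 + b2) (a3 + b3) (a3 + b4)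
        (hm _ _ ma0 mb0) (hm _ _ ma1 mb0) (hm _ _ ma2 mb0) (hm _ _ ma1 mb1) (hm _ _ ma2 mb1) (hm _ _ ma3 mb1) (hm _ _ ma3 mb2) (hm _ _ ma3 mb3) (hm _ _ ma3 mb4)
        (by omega) (by omega) (by omega) (by omega) (by omega) (by omega) (by omega) (by omega)).elim
  have e20 : a2 + b1 = a3 + b0 := by
    rcases lt_trichotomy (a2 + b1) (a3 + b0) with h | h | h
    · exact (CMB_chain _ hC (a0 + b0) (a1 + b0) (a2 + b0) (a2 + b1) (a3 + b0) (a3 + b1) (a3 + b2) (a3 + b3) (a3 + b4)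
        (hm _ _ ma0 mb0) (hm _ _ ma1 mb0) (hm _ _ ma2 mb0) (hm _ _ ma2 mb1) (hm _ _ ma3 mb0) (hm _ _ ma3 mb1) (hm _ _ ma3 mb2) (hm _ _ ma3 mb3) (hm _ _ ma3 mb4)
        (by omega) (by omega) (by omega) (by omega) (by omega) (by omega) (by omega) (by omega)).elim
    · exact h
    · exact (CMB_chain _ hC (a0 + b0) (a1 + b0) (a2 + b0) (a3 + b0) (a2 + b1) (a3 + b1) (a3 + b2) (a3 + b3) (a3 + b4)
        (hm _ _ ma0 mb0) (hm _ _ ma1 mb0) (hm _ _ ma2 mb0) (hm _ _ ma3 mb0) (hm _ _ ma2 mb1) (hm _ _ ma3 mb1) (hm _ _ ma3 mb2) (hm _ _ ma3 mb3) (hm _ _ ma3 mb4)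
        (by omega) (by omega) (by omega) (by omega) (by omega) (by omega) (by omega) (by omega)).elim
  refine ⟨a0, b0, a1 - a0, by omega, ?_, ?_⟩
  · have h1 : a1 = a0 + (a1 - a0) := by omega
    have h2 : a2 = a0 + 2 * (a1 - a0) := by omega
    have h3 : a3 = a0 + 3 * (a1 - a0) := by omega
    rw [← h1, ← h2, ← h3]
  · have h1 : b1 = b0 + (a1 - a0) := by omega
    have h2 : b2 = b0 + 2 * (a1 - a0) := by omega
    have h3 : b3 = b0 + 3 * (a1 - a0) := by omega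
    have h4 : b4 = b0 + 4 * (a1 - a0) := by omega
    rw [← h1, ← h2, ← h3, ← h4]

theorem CMB_3 (A : Finset ℕ) (hA : A.Nonempty) (h : A.card ≤ 3) :
    ∃ a l p, a ∈ A ∧ p ∈ A ∧ a ≤ l ∧ l ≤ p ∧ ∀ x ∈ A, x = a ∨ x = l ∨ x = p := by
  have h0 : 0 < A.card := card_pos.2 hA
  have h3 : A.card = 1 ∨ A.card = 2 ∨ A.card = 3 := by omega
  rcases h3 with h3 | h3 | h3
  · obtain ⟨a, rfl⟩ := card_eq_one.1 h3
    refine ⟨a, a, a, by simp, by simp, le_refl _, le_refl _, ?_⟩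
    intro x hx
    left
    exact mem_singleton.1 hx
  · obtain ⟨a0, a1, p0, rfl⟩ := CMB_s2 A h3
    refine ⟨a0, a0, a1, by simp, by simp, le_refl _, p0.le, ?_⟩
    intro x hx
    simp only [mem_insert, mem_singleton] at hx
    tauto
  · obtain ⟨a0, a1, a2, p0, p1, rfl⟩ := CMB_s3 A h3
    refine ⟨a0, a1, a2, by simp, by simp, p0.le, p1.le, ?_⟩
    intro x hx
    simp only [mem_insert, mem_singleton] at hx
    exact hx

theorem p_CMB : Stmt_CMB := by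
  intro A B hA hB hC
  by_cases h1 : A.card ≤ 3
  · exact Or.inl (CMB_3 A hA h1)
  by_cases h2 : B.card ≤ 3
  · exact Or.inr (Or.inl (CMB_3 B hB h2))
  have h3 : A.card + B.card - 1 ≤ 8 := by
    have h4 := cauchy_davenport_add_of_linearOrder_isCancelAdd hA hB
    have h5 : Finset.image (fun x : ℕ × ℕ => x.1 + x.2) (A ×ˢ B) = A + B := by
      exact Finset.image_add_product
    rw [h5] at hC
    omega
  have h4 : (A.card = 4 ∧ B.card = 4) ∨ (A.card = 4 ∧ B.card = 5) ∨ (A.card = 5 ∧ B.card = 4) := by omega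
  rcases h4 with ⟨h4, h5⟩ | ⟨h4, h5⟩ | ⟨h4, h5⟩
  · right; right; left
    obtain ⟨a0, a1, a2, a3, p0, p1, p2, rfl⟩ := CMB_s4 A h4
    obtain ⟨b0, b1, b2, b3, q0, q1, q2, rfl⟩ := CMB_s4 B h5
    refine ⟨a0, a1, a2, a3, b0, b1, b2, b3, by simp, by simp, p0.le, p1.le, p2, ?_, by simp, by simp,
      q0.le, q1.le, q2, ?_⟩
    · intro x hx
      simpa only [mem_insert, mem_singleton] using hx
    · intro x hx
      simpa only [mem_insert, mem_singleton] using hx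
  · right; right; right; left
    exact CMB_45 A B h4 h5 hC
  · right; right; right; right
    have hsw : Finset.image (fun x : ℕ × ℕ => x.1 + x.2) (B ×ˢ A) =
        Finset.image (fun x : ℕ × ℕ => x.1 + x.2) (A ×ˢ B) := by
      ext z
      simp only [mem_image, mem_product, Prod.exists]
      constructor
      · rintro ⟨x, y, ⟨hx, hy⟩, rfl⟩
        exact ⟨y, x, ⟨hy, hx⟩, add_comm _ _⟩
      · rintro ⟨x, y, ⟨hx, hy⟩, rfl⟩
        exact ⟨y, x, ⟨hy, hx⟩, add_comm _ _⟩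
    obtain ⟨a, b, d, hd, e1, e2⟩ := CMB_45 B A h5 h4 (by rw [hsw]; exact hC)
    exact ⟨b, a, d, hd, e2, e1⟩

end Pool.FE
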