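import Pool.Agent.Work.MP_e24068_el.Interface8

/-!
Consequences of missing words of level `2`.
-/

set_option autoImplicit false

namespace Pool.FE

open Pool.Agent.Work.TMLib Pool.Agent.Work.MP_e24068_lc
open Pool.FD (Wd LW mb pre suf len sufs okR okL cov isF cL cR hV hStep hX horn rv hornR sat2 rm
  U0 V0 Ut Vt quads Fac Cls)

theorem F12_split {s t w : Wd} (h : s ++ t = w) : s = w.take s.length ∧ t = w.drop s.length := by
  subst h
  simp

theorem p_F1 : Stmt_F1 := by
  intro L U V a b d u hF hul hu hc x v' hxl hv'l hv'
  have hd := hF.dp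
  have h1 : u ++ (x ++ v') ∈ L := hc _ hv' (by simp [hv'l, hxl]; omega)
  obtain ⟨s, hs, t, ht, hst⟩ := (hF.fc.fac _).1 h1
  have hsl := hF.uj s hs
  have htl := hF.vj t ht
  have hlen := congrArg List.length hst
  simp only [List.length_append, hul, hv'l, hxl] at hlen
  obtain ⟨e1, e2⟩ := F12_split hst
  obtain hl | hl : s.length = a + 2 * d ∨ s.length = a + 3 * d := by omega
  · exfalso
    apply hu
    have : s = u := by
      rw [e1, hl, ← hul]
      simp
    exact this ▸ hs
  · have h3 : u ++ (x ++ v') = (u ++ x) ++ v' := by simp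
    have h4 : s.length = (u ++ x).length := by
      rw [hl, List.length_append, hul, hxl]
      omega
    rw [h3, h4] at e1 e2
    have e3 : s = u ++ x := by
      rw [e1]
      exact List.take_left ..
    have e4 : t = v' := by
      rw [e2]
      exact List.drop_left ..
    exact ⟨e3 ▸ hs, e4 ▸ ht⟩

theorem p_F2 : Stmt_F2 := by
  intro L U V a b d u v hF hul hu hc hvl hv hd x v' hxl hv'l hv'
  have hd0 := hF.dp
  have h1 := (p_F1 L U V a b d u hF hul hu hc x v' hxl hv'l hv').1
  have h2 : (u ++ x) ++ v ∈ L := hd _ h1 (by simp [hul, hxl]; omega)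
  obtain ⟨s, hs, t, ht, hst⟩ := (hF.fc.fac _).1 h2
  have hsl := hF.uj s hs
  have htl := hF.vj t ht
  have hlen := congrArg List.length hst
  simp only [List.length_append, hul, hvl, hxl] at hlen
  obtain ⟨hs', ht'⟩ := F12_split hst
  obtain hl | hl | hl : s.length = a + d ∨ s.length = a + 2 * d ∨ s.length = a + 3 * d := by omega
  · rw [hl] at hs' ht'
    have e1 : s = u.take (a + d) := by
      rw [hs', List.append_assoc, List.take_append_of_le_length (by omega)]
    have e2 : t = u.drop (a + d) ++ (x ++ v) := by
      rw [ht', List.append_assoc, List.drop_append_of_le_length (by omega)]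
    rw [e1] at hs
    rw [e2] at ht
    refine ⟨hs, ht, ?_⟩
    have h3 : (u.drop (a + d)).length = d := by
      rw [List.length_drop, hul]
      omega
    exact (p_F1 L U V a b d u hF hul hu hc _ (x ++ v) h3
      (by rw [List.length_append, hxl, hvl]; omega) ht).2
  · have e1 : s = u := by
      rw [hs', hl, ← hul]
      simp
    exact absurd (e1 ▸ hs) hu
  · have h4 : s.length = (u ++ x).length := by
      rw [hl, List.length_append, hul, hxl]
      omega
    have e2 : t = v := by
      rw [ht', h4]
      exact List.drop_left ..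
    exact absurd (e2 ▸ ht) hv

end Pool.FE
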