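import Pool.Agent.Work.MP_e24068_el.Interface8

/-! Block F3 (helper28), after helper44. -/

set_option autoImplicit false

namespace Pool.FE

open Pool.Agent.Work.TMLib Pool.Agent.Work.MP_e24068_lc
open Pool.FD (Wd LW mb pre suf len sufs okR okL cov isF cL cR hV hStep hX horn rv hornR sat2 rm
  U0 V0 Ut Vt quads Fac Cls)

theorem p_F3 (h1 : Stmt_F2) : Stmt_F3 := by
  intro L U V a b d u v r hF hul huU huL hvl hvV hvL hrl hrU hrL hgd
  have hd := hF.dp
  obtain ⟨t, ht, htl⟩ := hF.fc.vq
  obtain ⟨x, v', hxl0, hv', rfl⟩ : ∃ x v' : Wd, x.length = d ∧ v'.length = b + 3 * d ∧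
      t = x ++ v' := by
    refine ⟨t.take d, t.drop d, ?_, ?_, (List.take_append_drop d t).symm⟩
    · rw [List.length_take]; omega
    · rw [List.length_drop]; omega
  obtain ⟨-, -, hxv⟩ := h1 L U V a b d u v hF hul huU huL hvl hvV hvL x v' hxl0 hv' ht
  have hxl : (x ++ v).length = b + 3 * d := by
    rw [List.length_append, hvl, hxl0]; omega
  have hL : r ++ (x ++ v) ∈ L := hrL _ hxv hxl
  obtain ⟨u1, hu1, v1, hv1, heq⟩ := (hF.fc.fac _).1 hL
  -- u1 and v1 as take and drop
  have e1 : u1 = (r ++ (x ++ v)).take u1.length := by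
    rw [← heq, List.take_left']
    rfl
  have e2 : v1 = (r ++ (x ++ v)).drop u1.length := by
    rw [← heq, List.drop_left']
    rfl
  rcases hF.uj u1 hu1 with h6 | h6 | h6 | h6
  · exfalso
    rw [h6] at e1 e2
    have e3 : (r ++ (x ++ v)).take a = r.take a := by
      rw [List.take_append_of_le_length (by omega)]
    have e4 : (r ++ (x ++ v)).drop a = r.drop a ++ (x ++ v) := by
      rw [List.drop_append_of_le_length (by omega)]
    rw [e3] at e1
    rw [e4] at e2
    rcases hgd with h | h
    · exact h (e1 ▸ hu1)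
    · exact h _ hxl (e2 ▸ hv1)
  · exfalso
    rw [h6] at e1
    have e3 : (r ++ (x ++ v)).take (a + d) = r := by
      rw [← hrl, List.take_left']
      rfl
    rw [e3] at e1
    exact hrU (e1 ▸ hu1)
  · exfalso
    rw [h6] at e2
    have e3 : (r ++ (x ++ v)).drop (a + 2 * d) = v := by
      rw [← List.append_assoc, List.drop_left']
      rw [List.length_append, hrl, hxl0]
      omega
    rw [e3] at e2
    exact hvV (e2 ▸ hv1)
  · rw [h6] at e2
    have e3 : (r ++ (x ++ v)).drop (a + 3 * d) = v.drop d := by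
      have e6 : a + 3 * d = (r ++ x).length + d := by
        rw [List.length_append, hrl, hxl0]
        omega
      rw [← List.append_assoc, e6, ← List.drop_drop, List.drop_left']
      rfl
    rw [e3] at e2
    rw [← e2]
    exact hv1

end Pool.FE
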