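import Pool.Agent.Work.MP_e24068_el.Interface8
import Pool.Agent.Work.MP_e24068_dich.B_FEX
import Pool.Agent.Work.MP_e24068_dich.B_REV

/-!
# Block FEX: lengths of a factorization
(helper38; adapted from the block of helper15)
-/

set_option autoImplicit false

namespace Pool.FE

open Pool.Agent.Work.TMLib Pool.Agent.Work.MP_e24068_lc
open Pool.FD (Wd LW mb pre suf len sufs okR okL cov isF cL cR hV hStep hX horn rv hornR sat2 rm
  U0 V0 Ut Vt quads Fac Cls)

theorem FEX_card (L : List Wd) (U V : Set Wd) (A B : Finset ℕ)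
    (hmem : ∀ w, w ∈ L ↔ ∃ u ∈ U, ∃ v ∈ V, u ++ v = w)
    (hA : ∀ x, x ∈ A ↔ ∃ u ∈ U, u.length = x) (hB : ∀ x, x ∈ B ↔ ∃ v ∈ V, v.length = x)
    (hlen : (L.map List.length).toFinset.card ≤ 8) :
    (Finset.image (fun x : ℕ × ℕ => x.1 + x.2) (A ×ˢ B)).card ≤ 8 := by
  refine le_trans (Finset.card_le_card ?_) hlen
  intro z hz
  rw [Finset.mem_image] at hz
  obtain ⟨⟨x, y⟩, hxy, hz⟩ := hz
  rw [Finset.mem_product] at hxy
  obtain ⟨u, hu, hux⟩ := (hA x).mp hxy.1
  obtain ⟨v, hv, hvy⟩ := (hB y).mp hxy.2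
  rw [List.mem_toFinset, List.mem_map]
  refine ⟨u ++ v, (hmem _).mpr ⟨u, hu, v, hv, rfl⟩, ?_⟩
  rw [List.length_append, hux, hvy]
  exact hz

theorem p_FEX (hCMB : Stmt_CMB) : Stmt_FEX := by
  intro L hL hlen hF
  obtain ⟨L₁, L₂, hf1, hf2, hmul, hn1, hn2⟩ := hF
  have hmem : ∀ w, w ∈ L ↔ ∃ u ∈ (L₁ : Set Wd), ∃ v ∈ (L₂ : Set Wd), u ++ v = w := by
    intro w
    have h : w ∈ LW L ↔ w ∈ L := Iff.rfl
    rw [← h, hmul, Language.mem_mul]
  obtain ⟨w0, hw0⟩ := List.exists_mem_of_ne_nil L hL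
  obtain ⟨u0, hu0, v0, hv0, _⟩ := (hmem w0).mp hw0
  have hU : (L₁ : Set Wd).Nonempty := ⟨u0, hu0⟩
  have hV : (L₂ : Set Wd).Nonempty := ⟨v0, hv0⟩
  obtain ⟨a, p, hul, hua, hup, hap⟩ := Pool.FD.FEX_minmax _ hf1 hU
  obtain ⟨b, q, hvl, hvb, hvq, hbq⟩ := Pool.FD.FEX_minmax _ hf2 hV
  have hun := Pool.FD.FEX_nonempty_word L₁ hU hn1
  have hvn := Pool.FD.FEX_nonempty_word L₂ hV hn2
  have hFac : Fac L (L₁ : Set Wd) (L₂ : Set Wd) a b p q :=
    ⟨hmem, hul, hvl, hua, hup, hvb, hvq, hun, hvn⟩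
  obtain ⟨A, hA⟩ : ∃ A : Finset ℕ, ∀ x, x ∈ A ↔ ∃ u ∈ (L₁ : Set Wd), u.length = x := by
    refine ⟨hf1.toFinset.image List.length, fun x => ?_⟩
    rw [Finset.mem_image]
    constructor
    · rintro ⟨u, hu, h⟩
      exact ⟨u, (Set.Finite.mem_toFinset hf1).mp hu, h⟩
    · rintro ⟨u, hu, h⟩
      exact ⟨u, (Set.Finite.mem_toFinset hf1).mpr hu, h⟩
  obtain ⟨B, hB⟩ : ∃ B : Finset ℕ, ∀ x, x ∈ B ↔ ∃ v ∈ (L₂ : Set Wd), v.length = x := by
    refine ⟨hf2.toFinset.image List.length, fun x => ?_⟩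
    rw [Finset.mem_image]
    constructor
    · rintro ⟨u, hu, h⟩
      exact ⟨u, (Set.Finite.mem_toFinset hf2).mp hu, h⟩
    · rintro ⟨u, hu, h⟩
      exact ⟨u, (Set.Finite.mem_toFinset hf2).mpr hu, h⟩
  have hcard := FEX_card L (L₁ : Set Wd) (L₂ : Set Wd) A B hmem hA hB hlen
  have haA : a ∈ A := (hA a).mpr hua
  have hpA : p ∈ A := (hA p).mpr hup
  have hbB : b ∈ B := (hB b).mpr hvb
  have hqB : q ∈ B := (hB q).mpr hvq
  have hAl : ∀ x ∈ A, a ≤ x ∧ x ≤ p := by
    intro x hx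
    obtain ⟨u, hu, h⟩ := (hA x).mp hx
    rw [← h]
    exact hul u hu
  have hBl : ∀ x ∈ B, b ≤ x ∧ x ≤ q := by
    intro x hx
    obtain ⟨u, hu, h⟩ := (hB x).mp hx
    rw [← h]
    exact hvl u hu
  have hUA : ∀ u ∈ (L₁ : Set Wd), u.length ∈ A := fun u hu => (hA _).mpr ⟨u, hu, rfl⟩
  have hVB : ∀ v ∈ (L₂ : Set Wd), v.length ∈ B := fun v hv => (hB _).mpr ⟨v, hv, rfl⟩
  refine ⟨(L₁ : Set Wd), (L₂ : Set Wd), a, b, p, q, hFac, hap, hbq, ?_, ?_⟩
  · obtain ⟨up, hup1, hup2⟩ := hup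
    obtain ⟨vq, hvq1, hvq2⟩ := hvq
    have h2 : up ++ vq ∈ L := (hmem _).mpr ⟨up, hup1, vq, hvq1, rfl⟩
    have h3 := Pool.FD.FEX_len L _ h2
    rw [List.length_append] at h3
    omega
  · rcases hCMB A B ⟨a, haA⟩ ⟨b, hbB⟩ hcard with h | h | h | h | h
    · obtain ⟨a', l, p', h1, h2, h3, h4, h5⟩ := h
      refine Or.inl ⟨l - a, ?_, ?_⟩
      · have e1 := h5 a haA
        have e2 := h5 p hpA
        have e3 := hAl a' h1
        have e4 := hAl p' h2
        omega
      · intro u hu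
        have e1 := h5 a haA
        have e2 := h5 p hpA
        have e3 := hAl a' h1
        have e4 := hAl p' h2
        have e5 := h5 _ (hUA u hu)
        omega
    · obtain ⟨a', l, p', h1, h2, h3, h4, h5⟩ := h
      refine Or.inr (Or.inl ⟨l - b, ?_, ?_⟩)
      · have e1 := h5 b hbB
        have e2 := h5 q hqB
        have e3 := hBl a' h1
        have e4 := hBl p' h2
        omega
      · intro v hv
        have e1 := h5 b hbB
        have e2 := h5 q hqB
        have e3 := hBl a' h1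
        have e4 := hBl p' h2
        have e5 := h5 _ (hVB v hv)
        omega
    · obtain ⟨a', l, k, p', b', m, j, q', h1, h2, h3, h4, h5, h6, h7, h8, h9, h10, h11, h12⟩ := h
      have e1 := h6 a haA
      have e2 := h6 p hpA
      have e3 := hAl a' h1
      have e4 := hAl p' h2
      have f1 := h12 b hbB
      have f2 := h12 q hqB
      have f3 := hBl b' h7
      have f4 := hBl q' h8
      refine Or.inr (Or.inr (Or.inl ⟨l - a, k, m - b, j, ?_, ?_, ?_, ?_, ?_, ?_⟩))
      · omega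
      · omega
      · omega
      · omega
      · intro u hu
        have e5 := h6 _ (hUA u hu)
        omega
      · intro v hv
        have e5 := h12 _ (hVB v hv)
        omega
    · obtain ⟨a', b', d, hd, hAe, hBe⟩ := h
      have hA' : ∀ x, x ∈ A ↔ x = a' ∨ x = a' + d ∨ x = a' + 2 * d ∨ x = a' + 3 * d := by
        intro x
        rw [hAe]
        simp only [Finset.mem_insert, Finset.mem_singleton]
      have hB' : ∀ x, x ∈ B ↔ x = b' ∨ x = b' + d ∨ x = b' + 2 * d ∨ x = b' + 3 * d ∨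
          x = b' + 4 * d := by
        intro x
        rw [hBe]
        simp only [Finset.mem_insert, Finset.mem_singleton]
      have e1 := (hA' a).mp haA
      have e2 := (hA' p).mp hpA
      have e3 := hAl a' ((hA' a').mpr (Or.inl rfl))
      have e4 := hAl (a' + 3 * d) ((hA' _).mpr (Or.inr (Or.inr (Or.inr rfl))))
      have f1 := (hB' b).mp hbB
      have f2 := (hB' q).mp hqB
      have f3 := hBl b' ((hB' b').mpr (Or.inl rfl))
      have f4 := hBl (b' + 4 * d) ((hB' _).mpr (Or.inr (Or.inr (Or.inr (Or.inr rfl)))))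
      have ea : a' = a := by omega
      have ep : p = a + 3 * d := by omega
      have eb : b' = b := by omega
      have eq : q = b + 4 * d := by omega
      refine Or.inr (Or.inr (Or.inr (Or.inl ⟨d, ep, eq, ?_⟩)))
      refine ⟨?_, hd, ?_, ?_⟩
      · rw [← ep, ← eq]
        exact hFac
      · intro u hu
        rw [← ea]
        exact (hA' _).mp (hUA u hu)
      · intro v hv
        rw [← eb]
        exact (hB' _).mp (hVB v hv)
    · obtain ⟨a', b', d, hd, hAe, hBe⟩ := h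
      have hA' : ∀ x, x ∈ A ↔ x = a' ∨ x = a' + d ∨ x = a' + 2 * d ∨ x = a' + 3 * d ∨
          x = a' + 4 * d := by
        intro x
        rw [hAe]
        simp only [Finset.mem_insert, Finset.mem_singleton]
      have hB' : ∀ x, x ∈ B ↔ x = b' ∨ x = b' + d ∨ x = b' + 2 * d ∨ x = b' + 3 * d := by
        intro x
        rw [hBe]
        simp only [Finset.mem_insert, Finset.mem_singleton]
      have e1 := (hA' a).mp haA
      have e2 := (hA' p).mp hpA
      have e3 := hAl a' ((hA' a').mpr (Or.inl rfl))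
      have e4 := hAl (a' + 4 * d) ((hA' _).mpr (Or.inr (Or.inr (Or.inr (Or.inr rfl)))))
      have f1 := (hB' b).mp hbB
      have f2 := (hB' q).mp hqB
      have f3 := hBl b' ((hB' b').mpr (Or.inl rfl))
      have f4 := hBl (b' + 3 * d) ((hB' _).mpr (Or.inr (Or.inr (Or.inr rfl))))
      have ea : a' = a := by omega
      have ep : p = a + 4 * d := by omega
      have eb : b' = b := by omega
      have eq : q = b + 3 * d := by omega
      refine Or.inr (Or.inr (Or.inr (Or.inr ⟨d, ep, eq, ?_⟩)))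
      refine ⟨?_, hd, ?_, ?_⟩
      · have hr := Pool.FD.p_FRV L _ _ a b p q hFac
        rw [← ep, ← eq]
        exact hr
      · intro w hw
        have hw' : w.reverse ∈ (L₂ : Set Wd) := hw
        have h9 := (hB' _).mp (hVB _ hw')
        rw [List.length_reverse, eb] at h9
        exact h9
      · intro w hw
        have hw' : w.reverse ∈ (L₁ : Set Wd) := hw
        have h9 := (hA' _).mp (hUA _ hw')
        rw [List.length_reverse, ea] at h9
        exact h9

end Pool.FE
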