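import Pool.Agent.Work.MP_e24068_el.InterfaceB

set_option autoImplicit false

namespace Pool.FE

open Pool.Agent.Work.MP_e24068_lc (Letter code HasFactorization Inst Cl Var LL to3 varsL)

theorem IMG_nil {α β : Type} (φ : α → List β) (w : List α) (h : ∀ x ∈ w, φ x ≠ [])
    (h0 : w.flatMap φ = []) : w = [] := by
  rw [List.flatMap_eq_nil_iff] at h0
  cases w with
  | nil => rfl
  | cons x t => exact absurd (h0 x List.mem_cons_self) (h x List.mem_cons_self)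

/-- The image of a language. -/
def IMG_im {α β : Type} (φ : α → List β) (L : Language α) : Language β :=
  (fun w : List α => w.flatMap φ) '' (L : Set (List α))

theorem IMG_mem {α β : Type} (φ : α → List β) (L : Language α) (w : List β) :
    w ∈ IMG_im φ L ↔ ∃ v ∈ L, v.flatMap φ = w := Iff.rfl

theorem IMG_ne {α β : Type} (φ : α → List β) (L₁ : Language α)
    (h : ∀ w ∈ L₁, ∀ x ∈ w, φ x ≠ []) (hne : ∃ w, w ∈ L₁) (h1 : L₁ ≠ 1) : IMG_im φ L₁ ≠ 1 := by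
  intro hcon
  apply h1
  have key : ∀ w ∈ L₁, w = [] := by
    intro w hw
    have hm : w.flatMap φ ∈ IMG_im φ L₁ := (IMG_mem φ L₁ _).2 ⟨w, hw, rfl⟩
    rw [hcon, Language.mem_one] at hm
    exact IMG_nil φ w (h w hw) hm
  ext w
  rw [Language.mem_one]
  constructor
  · exact key w
  · rintro rfl
    obtain ⟨v, hv⟩ := hne
    have := key v hv
    rw [this] at hv
    exact hv

theorem p_IMG : Stmt_IMG := by
  intro α β φ L M hφ hM hL hF
  obtain ⟨L₁, L₂, hf1, hf2, hmul, hn1, hn2⟩ := hF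
  obtain ⟨w0, hw0⟩ := hL
  rw [hmul, Language.mem_mul] at hw0
  obtain ⟨u0, hu0, v0, hv0, _⟩ := hw0
  have hin : ∀ u ∈ L₁, ∀ v ∈ L₂, u ++ v ∈ L := by
    intro u hu v hv
    rw [hmul, Language.mem_mul]
    exact ⟨u, hu, v, hv, rfl⟩
  refine ⟨IMG_im φ L₁, IMG_im φ L₂, hf1.image _, hf2.image _, ?_, ?_, ?_⟩
  · ext w
    rw [hM, Language.mem_mul]
    constructor
    · rintro ⟨v, hv, rfl⟩
      rw [hmul, Language.mem_mul] at hv
      obtain ⟨a, ha, b, hb, rfl⟩ := hv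
      exact ⟨a.flatMap φ, (IMG_mem φ L₁ _).2 ⟨a, ha, rfl⟩, b.flatMap φ,
        (IMG_mem φ L₂ _).2 ⟨b, hb, rfl⟩, (List.flatMap_append).symm⟩
    · rintro ⟨a, ha, b, hb, rfl⟩
      rw [IMG_mem] at ha hb
      obtain ⟨a', ha', rfl⟩ := ha
      obtain ⟨b', hb', rfl⟩ := hb
      exact ⟨a' ++ b', hin a' ha' b' hb', List.flatMap_append⟩
  · exact IMG_ne φ L₁ (fun w hw x hx => hφ (w ++ v0) (hin w hw v0 hv0) x
      (List.mem_append_left _ hx)) ⟨u0, hu0⟩ hn1
  · exact IMG_ne φ L₂ (fun w hw x hx => hφ (u0 ++ w) (hin u0 hu0 w hw) x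
      (List.mem_append_right _ hx)) ⟨v0, hv0⟩ hn2

end Pool.FE
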