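import Pool.Agent.Work.MP_e24068_el.InterfaceB

set_option autoImplicit false

namespace Pool.FE

open Pool.Agent.Work.MP_e24068_lc (Letter code HasFactorization Inst Cl Var LL to3 varsL)

theorem p_MOR (hIMG : Stmt_IMG) (hALN : Stmt_ALN) : Stmt_MOR := by
  intro α β φ m S L M hm hlen hinj hS hfin hnil hM
  constructor
  · intro hF
    obtain ⟨M₁, M₂, _, _, hmul, hn1, hn2⟩ := hF
    have h0 : ([] : List β) ∈ M := (hM []).2 ⟨[], hnil, rfl⟩
    rw [hmul, Language.mem_mul] at h0
    obtain ⟨u, hu, v, _, huv⟩ := h0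
    have hu0 : u = [] := (List.append_eq_nil_iff.1 huv).1
    refine hALN α β φ m S L M M₁ M₂ hm hlen hinj hS hfin ⟨[], hnil⟩ hM hmul hn1 hn2 ⟨u, hu, ?_⟩
    rw [hu0]
    exact dvd_zero m
  · intro hF
    refine hIMG α β φ L M ?_ hM ⟨[], hnil⟩ hF
    intro w hw x hx hx0
    have := hlen x (hS w hw x hx)
    rw [hx0] at this
    simp only [List.length_nil] at this
    omega

end Pool.FE
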