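import Pool.Agent.Work.MP_e24068_el.InterfaceB

/-!
# Block NP9: hardness of FACT over two letters, lengths `0, m, ..., 8 m` (helper86)
-/

set_option autoImplicit false

namespace Pool.FE

open Pool.Agent.Work.MP_e24068_lc (Var Lit Cl Sat3 HasFactorization litsL varsL to3 Inst
  encNum sat3_to3 varsL_spec)
open Pool.Agent.Work.TMLib
open Pool.FD (Lt NP_code NP_wordsOf NP_bound NP_code_inj NP_code_le_bound NP_polyF_code
  NP_polyF_wordsOf NP_polyF_bound LLl Stmt_ML)

/-- The word `0^k 1 0^(N-k)` as a list of numbers. -/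
def NP9_oh (N k : ℕ) : List ℕ :=
  (List.range k).map (fun _ => 0) ++ 1 :: (List.range (N - k)).map (fun _ => 0)

theorem NP9_oh_eq (N k : ℕ) : (oh N k).map Fin.val = NP9_oh N k := by
  unfold oh NP9_oh
  simp [List.map_const']

theorem NP9_polyF_oh {α : Type} [DE α] {f g : α → ℕ} (hf : PolyF f) (hg : PolyF g) :
    PolyF (fun x => NP9_oh (f x) (g x)) := by
  unfold NP9_oh
  refine PolyF.append ?_ (PolyF.cons (by fun_prop) ?_)
  · exact PolyF.map (l := fun x => List.range (g x)) (f := fun _ _ => 0) (by fun_prop)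
      (by fun_prop)
  · exact PolyF.map (l := fun x => List.range (f x - g x)) (f := fun _ _ => 0) (by fun_prop)
      (by fun_prop)

/-- The block of a letter. -/
def NP9_phi (φ : CNF) (x : Lt) : List (Fin 2) := oh (NP_bound φ) (NP_code x)

/-- The instance of a formula. -/
def NP9_instOf (φ : CNF) : Inst := ⟨2, (NP_wordsOf φ).map fun w => w.flatMap (NP9_phi φ)⟩

/-- The string of the instance of a formula. -/
def NP9_strOf (φ : CNF) : List (Fin 3) :=
  encNum 2 ++ (NP_wordsOf φ).flatMap fun w =>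
    ((w.flatMap fun x => NP9_oh (NP_bound φ) (NP_code x)).flatMap fun x => encNum x) ++ [2]

theorem NP9_enc_instOf (φ : CNF) : (NP9_instOf φ).enc = NP9_strOf φ := by
  have key : ((NP_wordsOf φ).map fun w => w.flatMap (NP9_phi φ)).flatMap
        (fun w => (w.flatMap fun x => encNum x.val) ++ [2]) =
      (NP_wordsOf φ).flatMap fun w =>
        ((w.flatMap fun x => NP9_oh (NP_bound φ) (NP_code x)).flatMap fun x => encNum x) ++
          [2] := by
    rw [List.flatMap_map]
    refine List.flatMap_congr fun w _ => ?_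
    congr 1
    have h1 : (w.flatMap fun x => NP9_oh (NP_bound φ) (NP_code x)) =
        (w.flatMap (NP9_phi φ)).map Fin.val := by
      rw [List.map_flatMap]
      refine List.flatMap_congr fun x _ => ?_
      exact (NP9_oh_eq _ _).symm
    rw [h1, List.flatMap_map]
  exact congrArg (fun l => encNum 2 ++ l) key

theorem NP9_polyF_strOf : PolyF NP9_strOf := by
  have hw := NP_polyF_wordsOf
  have hb := NP_polyF_bound
  unfold NP9_strOf
  refine PolyF.append (by fun_prop) ?_
  refine PolyF.flatMap (l := fun φ : CNF => NP_wordsOf φ)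
    (f := fun φ w => ((w.flatMap fun x => NP9_oh (NP_bound φ) (NP_code x)).flatMap
      fun x => encNum x) ++ [2]) hw ?_
  refine PolyF.append ?_ (by fun_prop)
  refine PolyF.flatMap
    (l := fun p : CNF × List Lt => p.2.flatMap fun x => NP9_oh (NP_bound p.1) (NP_code x))
    (f := fun _ x => encNum x) ?_ (by fun_prop)
  refine PolyF.flatMap (l := fun p : CNF × List Lt => p.2)
    (f := fun p x => NP9_oh (NP_bound p.1) (NP_code x)) (by fun_prop) ?_
  refine NP9_polyF_oh ?_ (by fun_prop)
  exact PolyF.comp (f := NP_bound) (g := fun p : (CNF × List Lt) × Lt => p.1.1) hb (by fun_prop)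

theorem NP9_mem (h3 : Stmt_ML) {φ : CNF} (w : List (Fin 2)) :
    w ∈ (NP9_instOf φ).lang ↔
      ∃ v ∈ Pool.FD.LL (to3 φ) (varsL (to3 φ)), v.flatMap (NP9_phi φ) = w := by
  show w ∈ (NP_wordsOf φ).map _ ↔ _
  rw [List.mem_map]
  simp only [NP_wordsOf, (h3 _ _).1]

theorem p_NP9 (h1 : Stmt_MOR) (h2 : Stmt_OHI) : Stmt_NP9 := by
  have hML : Stmt_ML := Pool.FD.p_ML
  have hHF : Pool.FD.Stmt_HF := Pool.FD.p_HF Pool.FD.p_E2 Pool.FD.p_E3 Pool.FD.p_E4 Pool.FD.p_E5
    Pool.FD.p_E6 Pool.FD.p_E7 Pool.FD.p_ML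
  have hHS : Pool.FD.Stmt_HS := Pool.FD.p_HS (Pool.FD.p_TY Pool.FD.p_ML) Pool.FD.p_ML
  intro L hL
  obtain ⟨g, hg, hgL⟩ := cook_levin L hL
  refine ⟨fun w => NP9_instOf (g w), ?_, ?_⟩
  · refine PolyTime.of_PolyF (A := Bool) (B := Fin 3) (N := 2) (M := 3) finTwoEquiv.symm
      (Equiv.refl _) (g := fun w => NP9_strOf (g (w.map finTwoEquiv))) ?_ ?_
    · refine PolyF.comp (f := NP9_strOf) (g := fun w : List (Fin 2) => g (w.map finTwoEquiv))
        NP9_polyF_strOf (PolyF.comp (f := g) hg ?_)
      exact PolyF.map (l := fun w : List (Fin 2) => w) (f := fun _ b => finTwoEquiv b)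
        (by fun_prop) (by fun_prop)
    · intro w
      rw [NP9_enc_instOf]
      simp [List.map_map, Function.comp_def]
  · intro w
    have hmem : [] ∈ Pool.FD.LL (to3 (g w)) (varsL (to3 (g w))) := (hML _ _).2.2.2
    have hcode : ∀ u ∈ Pool.FD.LL (to3 (g w)) (varsL (to3 (g w))), ∀ x ∈ u,
        NP_code x ≤ NP_bound (g w) := fun u hu x hx =>
      NP_code_le_bound (((hML _ _).1 u).2 hu : u ∈ NP_wordsOf (g w)) hx
    have hlen : ∀ u : List Lt, (∀ x ∈ u, NP_code x ≤ NP_bound (g w)) →
        (u.flatMap (NP9_phi (g w))).length = u.length * (NP_bound (g w) + 1) := by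
      intro u
      induction u with
      | nil => intro _; simp
      | cons x u ih =>
        intro hx
        rw [List.flatMap_cons, List.length_append, ih fun y hy => hx y (List.mem_cons_of_mem _ hy)]
        have h5 : (NP9_phi (g w) x).length = NP_bound (g w) + 1 :=
          (h2 _ _ _ (hx x List.mem_cons_self) (hx x List.mem_cons_self)).1
        rw [h5, List.length_cons]
        ring
    have hall : ∀ v ∈ (NP9_instOf (g w)).2, ∃ i ≤ 8, v.length = i * (NP_bound (g w) + 1) := by
      intro v hv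
      obtain ⟨u, hu, huv⟩ := (NP9_mem hML v).1 hv
      refine ⟨u.length, (hML _ _).2.2.1 u hu, ?_⟩
      rw [← huv]
      exact hlen u (hcode u hu)
    refine ⟨⟨rfl, ?_, ⟨NP_bound (g w) + 1, hall⟩, ?_⟩, ?_⟩
    · intro h'
      have h4 : (([] : List (Fin 2)) ∈ (NP9_instOf (g w)).lang) :=
        (NP9_mem hML _).2 ⟨[], hmem, rfl⟩
      have h5 : (([] : List (Fin 2)) ∈ (NP9_instOf (g w)).2) := h4
      have h6 : (NP9_instOf (g w)).2 = [] := h'
      rw [h6] at h5
      exact absurd h5 List.not_mem_nil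
    · have hsub : ((NP9_instOf (g w)).2.map List.length).toFinset ⊆
          (Finset.range 9).image (fun i => i * (NP_bound (g w) + 1)) := by
        intro n hn
        rw [List.mem_toFinset, List.mem_map] at hn
        obtain ⟨v, hv, rfl⟩ := hn
        obtain ⟨i, hi, hvi⟩ := hall v hv
        rw [Finset.mem_image]
        exact ⟨i, Finset.mem_range.2 (by omega), hvi.symm⟩
      refine (Finset.card_le_card hsub).trans (Finset.card_image_le.trans ?_)
      simp
    · rw [hgL w]
      have h6 : HasFactorization (NP9_instOf (g w)).lang ↔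
          HasFactorization (Pool.FD.LL (to3 (g w)) (varsL (to3 (g w)))) := by
        refine h1 Lt (Fin 2) (NP9_phi (g w)) (NP_bound (g w) + 1)
          {x | NP_code x ≤ NP_bound (g w)} (Pool.FD.LL (to3 (g w)) (varsL (to3 (g w))))
          (NP9_instOf (g w)).lang (Nat.succ_pos _) ?_ ?_ ?_ (hML _ _).2.1 hmem
          (fun v => NP9_mem hML v)
        · intro x hx
          exact (h2 _ _ _ hx hx).1
        · intro x hx y hy hxy
          exact NP_code_inj ((h2 _ _ _ hx hy).2 hxy)
        · intro u hu x hx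
          exact hcode u hu x hx
      rw [h6, ← sat3_to3]
      constructor
      · rintro ⟨v, hv⟩
        refine hHF _ _ (fun l => v l.1 == l.2) ⟨?_, ?_⟩
        · rintro ⟨x, b⟩
          simp only [Pool.FD.neg]
          cases v x <;> cases b <;> rfl
        · intro c hc
          simpa using hv c hc
      · exact hHS _ _ (varsL_spec _)

end Pool.FE
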