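import Pool.Agent.Work.MP_e24068_el.InterfaceB

set_option autoImplicit false

namespace Pool.FE

theorem p_OHI : Stmt_OHI := by
  intro N k l hk hl
  refine ⟨?_, fun h => ?_⟩
  · simp only [oh, List.length_append, List.length_replicate, List.length_cons]
    omega
  · have key : ∀ j : ℕ, (oh N j).idxOf 1 = j := by
      intro j
      have h1 : (1 : Fin 2) ∉ List.replicate j (0 : Fin 2) := by
        intro hm
        have := List.eq_of_mem_replicate hm
        exact absurd this (by decide)
      rw [oh, List.idxOf_append_of_notMem h1]
      simp
    rw [← key k, ← key l, h]

end Pool.FE
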