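import Pool.Agent.Work.MP_e24068_dich.FinalP

/-!
The proved blocks of the earlier development, without hypotheses.
-/

set_option autoImplicit false

namespace Pool.FE

theorem o_HOC : Pool.FD.Stmt_HOC := Pool.FD.p_HOC Pool.FD.p_HFX

theorem o_HOR : Pool.FD.Stmt_HOR := Pool.FD.p_HOR Pool.FD.p_HFX Pool.FD.p_FRV

theorem o_PHO : Pool.FD.Stmt_PHO :=
  Pool.FD.p_PHO Pool.FD.p_PEL Pool.FD.p_PTK Pool.FD.p_PAN Pool.FD.p_PIT

theorem o_PSA : Pool.FD.Stmt_PSA :=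
  Pool.FD.p_PSA Pool.FD.p_PEL Pool.FD.p_PTK Pool.FD.p_PAN Pool.FD.p_PIT

end Pool.FE
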