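import Pool.Agent.Work.MP_e24068_el.Interface8
import Pool.Agent.Work.MP_e24068_el.Old8

/-!
Block PP: the decision problem for at most eight word lengths.
-/

set_option autoImplicit false

namespace Pool.FE

open Pool.Agent.Work.TMLib Pool.Agent.Work.MP_e24068_lc
open Pool.FD (Wd LW PP_dec PP_polyF_dec PP_dec_enc)

theorem p_PP (h1 : Stmt_SOC) (h2 : Stmt_SOS) (h3 : Stmt_PSO) : Stmt_PP := by
  refine ⟨fun I => solve (I.2.map fun w => w.map Fin.val), ?_, ?_⟩
  · refine PolyTime.of_PolyF (A := Fin 3) (B := Bool) (N := 3) (M := 2) (Equiv.refl _)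
      finTwoEquiv.symm (g := fun s => [bif solve (PP_dec s) then (1 : Fin 2) else 0]) ?_ ?_
    · have hd : PolyF (fun s : List (Fin 3) => solve (PP_dec s)) :=
        PolyF.comp (f := solve) h3 PP_polyF_dec
      exact PolyF.cons (PolyF.cond hd (PolyF.const _) (PolyF.const _)) (PolyF.const _)
    · intro I
      simp only [Equiv.coe_refl, List.map_id, PP_dec_enc, List.map_cons,
        List.map_nil, List.cons.injEq, and_true]
      cases solve (I.2.map fun w => w.map Fin.val) <;> rfl
  · intro I hne hsp
    have hne' : (I.2.map fun w => w.map Fin.val) ≠ [] := by simpa using hne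
    have hsp' : ((I.2.map fun w => w.map Fin.val).map List.length).toFinset.card ≤ 8 := by
      have : (I.2.map fun w => w.map Fin.val).map List.length = I.2.map List.length := by
        rw [List.map_map]
        refine List.map_congr_left fun w _ => ?_
        exact List.length_map ..
      rw [this]
      exact hsp
    have hiff : HasFactorization (LW (I.2.map fun w => w.map Fin.val)) ↔
        HasFactorization I.lang := by
      refine hasFactorization_map_iff (L := I.lang) ?_ ?_ Fin.val ?_ ?_
      · obtain ⟨w, hw⟩ := List.exists_mem_of_ne_nil _ hne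
        exact ⟨w, hw⟩
      · exact List.finite_toSet I.2
      · intro w _ x _ w' _ y _ hxy
        exact Fin.ext hxy
      · intro w
        show w ∈ (I.2.map fun w => w.map Fin.val) ↔ _
        rw [List.mem_map]
        rfl
    rw [← hiff]
    exact ⟨h2 _ hne', h1 _ hne' hsp'⟩

end Pool.FE
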