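import Pool.Agent.Work.MP_e24068_el.Interface8
import Pool.Agent.Work.MP_e24068_dich.B_PL

/-! Block PSO (helper46; adapted from the block of helper75). -/

set_option autoImplicit false

namespace Pool.FE

open Pool.Agent.Work.TMLib Pool.Agent.Work.MP_e24068_lc
open Pool.FD (Wd LW mb pre suf len sufs okR okL cov isF cL cR hV hStep hX horn rv hornR sat2 rm
  U0 V0 Ut Vt quads Fac Cls)

theorem PSO_rv {α : Type} [DE α] {l : α → List Wd} (hl : PolyF l) : PolyF (fun a => rv (l a)) := by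
  unfold rv
  exact PolyF.map (l := l) (f := fun _ w => w.reverse) hl (by fun_prop)

theorem PSO_quads {α : Type} [DE α] {n : α → ℕ} (hn : PolyF n) :
    PolyF (fun a => quads (n a)) := by
  unfold quads
  refine PolyF.flatMap (l := fun a => List.range (n a)) (f := fun x a =>
    (List.range (n x)).flatMap fun b => (List.range (n x)).flatMap fun p =>
      (List.range (n x)).map fun q => (a, b, p, q)) (by fun_prop) ?_
  refine PolyF.flatMap (l := fun y : α × ℕ => List.range (n y.1)) (f := fun y b =>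
    (List.range (n y.1)).flatMap fun p => (List.range (n y.1)).map fun q => (y.2, b, p, q))
    (by fun_prop) ?_
  refine PolyF.flatMap (l := fun y : (α × ℕ) × ℕ => List.range (n y.1.1)) (f := fun y p =>
    (List.range (n y.1.1)).map fun q => (y.1.2, y.2, p, q)) (by fun_prop) ?_
  refine PolyF.map (l := fun y : ((α × ℕ) × ℕ) × ℕ => List.range (n y.1.1.1)) (f := fun y q =>
    (y.1.1.2, y.1.2, y.2, q)) (by fun_prop) (by fun_prop)

theorem PSO_dks {α : Type} [DE α] {n : α → ℕ} (hn : PolyF n) :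
    PolyF (fun a => dks (n a)) := by
  unfold dks
  refine PolyF.flatMap (l := fun a => List.range (n a)) (f := fun x d =>
    (List.range (n x)).map fun k => (d, k)) (by fun_prop) ?_
  refine PolyF.map (l := fun y : α × ℕ => List.range (n y.1)) (f := fun y k => (y.2, k))
    (by fun_prop) (by fun_prop)

theorem p_PSO (h1 : Stmt_PTR) (h2 : Stmt_PTF) : Stmt_PSO := by
  unfold Stmt_PSO
  have ht : PolyF (fun s : List Wd × ℕ × ℕ × ℕ × ℕ × ℕ × ℕ =>
      tries s.1 s.2.1 s.2.2.1 s.2.2.2.1 s.2.2.2.2.1 s.2.2.2.2.2.1 s.2.2.2.2.2.2) := PolyF.or h1 h2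
  have hs : PolyF (fun L : List Wd => L.flatMap fun w => w) :=
    PolyF.flatMap (l := fun L : List Wd => L) (f := fun _ w => w) (by fun_prop) (by fun_prop)
  unfold solve
  refine Pool.FD.p_PAN (List Wd) (ℕ × ℕ × ℕ × ℕ)
    (fun L => quads ((L.flatMap fun w => w).length + 1))
    (fun L s => (dks ((L.flatMap fun w => w).length + 1)).any fun t =>
      tries L s.1 s.2.1 s.2.2.1 s.2.2.2 t.1 t.2 || tries (rv L) s.1 s.2.1 s.2.2.1 s.2.2.2 t.1 t.2)
    ?_ ?_
  · refine PSO_quads (n := fun L : List Wd => (L.flatMap fun w => w).length + 1) ?_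
    fun_prop
  · refine Pool.FD.p_PAN (List Wd × (ℕ × ℕ × ℕ × ℕ)) (ℕ × ℕ)
      (fun y => dks ((y.1.flatMap fun w => w).length + 1))
      (fun y t => tries y.1 y.2.1 y.2.2.1 y.2.2.2.1 y.2.2.2.2 t.1 t.2 ||
        tries (rv y.1) y.2.1 y.2.2.1 y.2.2.2.1 y.2.2.2.2 t.1 t.2) ?_ ?_
    · refine PSO_dks (n := fun y : List Wd × (ℕ × ℕ × ℕ × ℕ) =>
        (y.1.flatMap fun w => w).length + 1) ?_
      have hs2 : PolyF (fun y : List Wd × (ℕ × ℕ × ℕ × ℕ) => y.1.flatMap fun w => w) :=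
        PolyF.flatMap (l := fun y : List Wd × (ℕ × ℕ × ℕ × ℕ) => y.1) (f := fun _ w => w)
          (by fun_prop) (by fun_prop)
      fun_prop
    · refine PolyF.or ?_ ?_
      · exact PolyF.comp (f := fun s : List Wd × ℕ × ℕ × ℕ × ℕ × ℕ × ℕ =>
          tries s.1 s.2.1 s.2.2.1 s.2.2.2.1 s.2.2.2.2.1 s.2.2.2.2.2.1 s.2.2.2.2.2.2)
          (g := fun p : (List Wd × (ℕ × ℕ × ℕ × ℕ)) × (ℕ × ℕ) =>
            (p.1.1, p.1.2.1, p.1.2.2.1, p.1.2.2.2.1, p.1.2.2.2.2, p.2.1, p.2.2)) ht (by fun_prop)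
      · have hr : PolyF (fun p : (List Wd × (ℕ × ℕ × ℕ × ℕ)) × (ℕ × ℕ) => rv p.1.1) :=
          PSO_rv (by fun_prop)
        exact PolyF.comp (f := fun s : List Wd × ℕ × ℕ × ℕ × ℕ × ℕ × ℕ =>
          tries s.1 s.2.1 s.2.2.1 s.2.2.2.1 s.2.2.2.2.1 s.2.2.2.2.2.1 s.2.2.2.2.2.2)
          (g := fun p : (List Wd × (ℕ × ℕ × ℕ × ℕ)) × (ℕ × ℕ) =>
            (rv p.1.1, p.1.2.1, p.1.2.2.1, p.1.2.2.2.1, p.1.2.2.2.2, p.2.1, p.2.2)) ht
          (by fun_prop)

end Pool.FE
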