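import Pool.Agent.Work.MP_e24068_el.Interface8
import Pool.Agent.Work.MP_e24068_el.Old8

/-! Block PTR: the first five tries are polynomial (helper75, adapted from the block of helper7). -/

set_option autoImplicit false

namespace Pool.FE

open Pool.Agent.Work.TMLib Pool.Agent.Work.MP_e24068_lc
open Pool.FD (Wd LW mb pre suf len sufs okR okL cov isF cL cR hV hStep hX horn rv hornR sat2 rm
  U0 V0 Ut Vt quads Fac Cls)

section

variable {α β γ : Type} [DE α] [DE β] [DE γ]

theorem PTR_peq (α : Type) [DE α] [DecidableEq α] [PEq α] : PEq (List α) :=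
  Pool.FD.p_PEL α

attribute [local instance] PTR_peq

theorem PTR_take {n : α → ℕ} {l : α → List β} (hn : PolyF n) (hl : PolyF l) :
    PolyF (fun x => (l x).take (n x)) := Pool.FD.p_PTK α β n l hn hl

theorem PTR_any {l : α → List β} {f : α → β → Bool} (hl : PolyF l)
    (hf : PolyF (fun p : α × β => f p.1 p.2)) : PolyF (fun x => (l x).any (f x)) :=
  Pool.FD.p_PAN α β l f hl hf

attribute [local fun_prop] PTR_take

@[local fun_prop]
theorem PTR_mb {L : α → List Wd} {w : α → Wd} (hL : PolyF L) (hw : PolyF w) :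
    PolyF (fun a => mb (L a) (w a)) := by
  unfold mb
  exact PTR_any hL (f := fun a (u : Wd) => decide (u = w a)) (by fun_prop)

@[local fun_prop]
theorem PTR_pre {L : α → List Wd} {k : α → ℕ} (hL : PolyF L) (hk : PolyF k) :
    PolyF (fun a => pre (L a) (k a)) := by
  unfold pre
  refine PolyF.map (f := fun a (w : Wd) => w.take (k a)) ?_ (by fun_prop)
  exact PolyF.filter hL (f := fun a (w : Wd) => decide (k a ≤ w.length)) (by fun_prop)

@[local fun_prop]
theorem PTR_suf {L : α → List Wd} {k : α → ℕ} (hL : PolyF L) (hk : PolyF k) :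
    PolyF (fun a => suf (L a) (k a)) := by
  unfold suf
  refine PolyF.map (f := fun a (w : Wd) => w.drop (w.length - k a)) ?_ (by fun_prop)
  exact PolyF.filter hL (f := fun a (w : Wd) => decide (k a ≤ w.length)) (by fun_prop)

@[local fun_prop]
theorem PTR_len {L : α → List Wd} {k : α → ℕ} (hL : PolyF L) (hk : PolyF k) :
    PolyF (fun a => len (L a) (k a)) := by
  unfold len
  exact PolyF.filter hL (f := fun a (w : Wd) => decide (w.length = k a)) (by fun_prop)

@[local fun_prop]
theorem PTR_okR {L K : α → List Wd} {v : α → Wd} (hL : PolyF L) (hK : PolyF K)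
    (hv : PolyF v) : PolyF (fun a => okR (L a) (K a) (v a)) := by
  unfold okR
  exact PolyF.all hK (f := fun a (u : Wd) => mb (L a) (u ++ v a)) (by fun_prop)

@[local fun_prop]
theorem PTR_okL {L K : α → List Wd} {u : α → Wd} (hL : PolyF L) (hK : PolyF K)
    (hu : PolyF u) : PolyF (fun a => okL (L a) (K a) (u a)) := by
  unfold okL
  exact PolyF.all hK (f := fun a (v : Wd) => mb (L a) (u a ++ v)) (by fun_prop)

@[local fun_prop]
theorem PTR_cL {L K : α → List Wd} {k : α → ℕ} (hL : PolyF L) (hK : PolyF K)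
    (hk : PolyF k) : PolyF (fun a => cL (L a) (K a) (k a)) := by
  unfold cL
  exact PolyF.filter (f := fun a (u : Wd) => okL (L a) (K a) u) (by fun_prop) (by fun_prop)

@[local fun_prop]
theorem PTR_cR {L K : α → List Wd} {k : α → ℕ} (hL : PolyF L) (hK : PolyF K)
    (hk : PolyF k) : PolyF (fun a => cR (L a) (K a) (k a)) := by
  unfold cR
  exact PolyF.filter (f := fun a (v : Wd) => okR (L a) (K a) v) (by fun_prop) (by fun_prop)

@[local fun_prop]
theorem PTR_rv {L : α → List Wd} (hL : PolyF L) : PolyF (fun a => rv (L a)) := by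
  unfold rv
  exact PolyF.map hL (f := fun _ (w : Wd) => w.reverse) (by fun_prop)

theorem PTR_horn {L K : α → List Wd} {l : α → ℕ} (hL : PolyF L) (hK : PolyF K)
    (hl : PolyF l) : PolyF (fun a => horn (L a) (K a) (l a)) :=
  PolyF.comp (f := fun s : List Wd × List Wd × ℕ => horn s.1 s.2.1 s.2.2)
    (g := fun a => (L a, K a, l a)) o_PHO (by fun_prop)

theorem PTR_hornR {L K : α → List Wd} {l : α → ℕ} (hL : PolyF L) (hK : PolyF K)
    (hl : PolyF l) : PolyF (fun a => hornR (L a) (K a) (l a)) := by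
  unfold hornR
  exact PTR_horn (by fun_prop) (by fun_prop) hl

@[local fun_prop]
theorem PTR_U0 {L : α → List Wd} {a b : α → ℕ} (hL : PolyF L) (ha : PolyF a) (hb : PolyF b) :
    PolyF (fun s => U0 (L s) (a s) (b s)) := by
  unfold U0
  fun_prop

@[local fun_prop]
theorem PTR_V0 {L : α → List Wd} {a b : α → ℕ} (hL : PolyF L) (ha : PolyF a) (hb : PolyF b) :
    PolyF (fun s => V0 (L s) (a s) (b s)) := by
  unfold V0
  fun_prop

@[local fun_prop]
theorem PTR_Ut {L : α → List Wd} {p q : α → ℕ} (hL : PolyF L) (hp : PolyF p) (hq : PolyF q) :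
    PolyF (fun s => Ut (L s) (p s) (q s)) := by
  unfold Ut
  fun_prop

@[local fun_prop]
theorem PTR_Vt {L : α → List Wd} {p q : α → ℕ} (hL : PolyF L) (hp : PolyF p) (hq : PolyF q) :
    PolyF (fun s => Vt (L s) (p s) (q s)) := by
  unfold Vt
  fun_prop

variable {L : α → List Wd} {a b p q d : α → ℕ}

@[local fun_prop]
theorem PTR_V3 (hL : PolyF L) (ha : PolyF a) (hb : PolyF b) (hp : PolyF p) (hq : PolyF q)
    (hd : PolyF d) : PolyF (fun s => V3 (L s) (a s) (b s) (p s) (q s) (d s)) := by
  unfold V3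
  fun_prop

@[local fun_prop]
theorem PTR_VK (hL : PolyF L) (ha : PolyF a) (hb : PolyF b) (hp : PolyF p) (hq : PolyF q)
    (hd : PolyF d) : PolyF (fun s => VK (L s) (a s) (b s) (p s) (q s) (d s)) := by
  unfold VK
  fun_prop

@[local fun_prop]
theorem PTR_C1 (hL : PolyF L) (ha : PolyF a) (hb : PolyF b) (hp : PolyF p) (hq : PolyF q)
    (hd : PolyF d) : PolyF (fun s => C1 (L s) (a s) (b s) (p s) (q s) (d s)) := by
  unfold C1
  fun_prop

@[local fun_prop]
theorem PTR_C2 (hL : PolyF L) (ha : PolyF a) (hb : PolyF b) (hp : PolyF p) (hq : PolyF q)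
    (hd : PolyF d) : PolyF (fun s => C2 (L s) (a s) (b s) (p s) (q s) (d s)) := by
  unfold C2
  fun_prop

@[local fun_prop]
theorem PTR_D2 (hL : PolyF L) (ha : PolyF a) (hb : PolyF b) (hp : PolyF p) (hq : PolyF q)
    (hd : PolyF d) : PolyF (fun s => D2 (L s) (a s) (b s) (p s) (q s) (d s)) := by
  unfold D2
  fun_prop

@[local fun_prop]
theorem PTR_inX {x : α → Wd} (hL : PolyF L) (hp : PolyF p) (hq : PolyF q) (hd : PolyF d)
    (hx : PolyF x) : PolyF (fun s => inX (L s) (p s) (q s) (d s) (x s)) := by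
  unfold inX
  exact PTR_any (f := fun s (v : Wd) => decide (v.take (d s) = x s)) (by fun_prop) (by fun_prop)

@[local fun_prop]
theorem PTR_gd {r : α → Wd} (hL : PolyF L) (ha : PolyF a) (hb : PolyF b) (hp : PolyF p)
    (hq : PolyF q) (hd : PolyF d) (hr : PolyF r) :
    PolyF (fun s => gd (L s) (a s) (b s) (p s) (q s) (d s) (r s)) := by
  unfold gd
  fun_prop

@[local fun_prop]
theorem PTR_G (hL : PolyF L) (ha : PolyF a) (hb : PolyF b) (hp : PolyF p) (hq : PolyF q)
    (hd : PolyF d) : PolyF (fun s => G (L s) (a s) (b s) (p s) (q s) (d s)) := by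
  unfold G
  refine PolyF.append ?_ ?_
  · exact PolyF.filter (f := fun s (r : Wd) => gd (L s) (a s) (b s) (p s) (q s) (d s) r)
      (by fun_prop) (by fun_prop)
  · exact PolyF.filter (f := fun s (u : Wd) =>
      !(inX (L s) (p s) (q s) (d s) (u.drop (a s + d s))) ||
      !(mb (C1 (L s) (a s) (b s) (p s) (q s) (d s)) (u.take (a s + d s))))
      (by fun_prop) (by fun_prop)

theorem p_PTR : Stmt_PTR := by
  unfold Stmt_PTR
  refine PolyF.or (PolyF.or (PolyF.or (PolyF.or ?_ ?_) ?_) ?_) ?_
  · unfold tryA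
    exact PTR_horn (by fun_prop) (by fun_prop) (by fun_prop)
  · unfold tryB
    exact PTR_horn (by fun_prop) (by fun_prop) (by fun_prop)
  · unfold tryC
    exact PTR_horn (by fun_prop) (by fun_prop) (by fun_prop)
  · unfold tryD
    exact PTR_hornR (by fun_prop) (by fun_prop) (by fun_prop)
  · unfold tryE
    exact PTR_hornR (by fun_prop) (by fun_prop) (by fun_prop)

end

end Pool.FE
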