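import Pool.Agent.Work.MP_e24068_el.InterfaceB

/-! # Block SHF: the cuts can be moved to a place between two blocks -/

set_option autoImplicit false

namespace Pool.FE

theorem SHF_cut {α β : Type} (φ : α → List β) (m s : ℕ) (hs : 0 < s) :
    ∀ (v : List α) (A B : List β), (∀ x ∈ v, (φ x).length = m) → v.flatMap φ = A ++ B →
      A.length % m = s → ∃ v1 x v2, v = v1 ++ x :: v2 ∧ A = v1.flatMap φ ++ (φ x).take s ∧
        B = (φ x).drop s ++ v2.flatMap φ := by
  intro v
  induction v with
  | nil =>
    intro A B _ h hA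
    simp only [List.flatMap_nil] at h
    have hA0 : A = [] := (List.append_eq_nil_iff.mp h.symm).1
    subst hA0
    simp at hA
    omega
  | cons x v ih =>
    intro A B hl h hA
    rw [List.flatMap_cons] at h
    have hx : (φ x).length = m := hl x List.mem_cons_self
    by_cases hlt : A.length < m
    · have hAs : A.length = s := by rw [← hA, Nat.mod_eq_of_lt hlt]
      refine ⟨[], x, v, rfl, ?_, ?_⟩
      · have h1 := congrArg (List.take s) h
        rw [List.take_append_of_le_length (by omega)] at h1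
        rw [List.flatMap_nil, List.nil_append, h1, ← hAs, List.take_left']
        rfl
      · have h1 := congrArg (List.drop s) h
        rw [List.drop_append_of_le_length (by omega)] at h1
        rw [h1, ← hAs, List.drop_left']
        rfl
    · push Not at hlt
      have h1 := congrArg (List.take m) h
      have h2 := congrArg (List.drop m) h
      rw [← hx, List.take_left' rfl, hx, List.take_append_of_le_length hlt] at h1
      rw [← hx, List.drop_left' rfl, hx, List.drop_append_of_le_length hlt] at h2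
      have hA' : A = φ x ++ A.drop m := by
        conv_lhs => rw [← List.take_append_drop m A, ← h1]
      obtain ⟨v1, y, v2, e1, e2, e3⟩ := ih (A.drop m) B
        (fun z hz => hl z (List.mem_cons_of_mem _ hz)) h2 (by
          rw [List.length_drop, ← hA]
          exact (Nat.mod_eq_sub_mod hlt).symm)
      refine ⟨x :: v1, y, v2, by rw [e1]; rfl, ?_, e3⟩
      rw [List.flatMap_cons, List.append_assoc, ← e2]
      exact hA'

theorem p_SHF : Stmt_SHF := by
  intro α β φ m S L M M₁ M₂ hm hlen _ hLS _ hne hM hMM hRF hhd htl hu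
  -- lengths of the words of M
  have hML : ∀ w ∈ M, m ∣ w.length := by
    intro w hw
    obtain ⟨v, hv, rfl⟩ := (hM w).mp hw
    have : ∀ v : List α, (∀ x ∈ v, x ∈ S) → (v.flatMap φ).length = m * v.length := by
      intro v
      induction v with
      | nil => intro _; simp
      | cons x v ih =>
        intro h
        rw [List.flatMap_cons, List.length_append, hlen x (h x List.mem_cons_self),
          ih (fun z hz => h z (List.mem_cons_of_mem _ hz)), List.length_cons]
        ring
    rw [this v (hLS v hv)]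
    exact dvd_mul_right _ _
  have hmem : ∀ u ∈ M₁, ∀ v ∈ M₂, u ++ v ∈ M := by
    intro u hu v hv
    rw [hMM]
    exact Language.append_mem_mul hu hv
  have hmem' : ∀ w ∈ M, ∃ u ∈ M₁, ∃ v ∈ M₂, u ++ v = w := by
    intro w hw
    rw [hMM] at hw
    obtain ⟨u, hu, v, hv, h⟩ := Language.mem_mul.mp hw
    exact ⟨u, hu, v, hv, h⟩
  obtain ⟨w0, hw0⟩ := hne
  obtain ⟨_, _, v₀, hv₀, _⟩ := hmem' _ ((hM _).mpr ⟨w0, hw0, rfl⟩)
  obtain ⟨u₀, hu₀, hnd⟩ := hu
  set s := u₀.length % m with hs
  have hs0 : 0 < s := Nat.pos_of_ne_zero (fun h => hnd (Nat.dvd_of_mod_eq_zero h))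
  have hsm : s < m := Nat.mod_lt _ hm
  have hv : ∀ v ∈ M₂, v.length % m = m - s := by
    intro v hv
    have h1 := hML _ (hmem u₀ hu₀ v hv)
    rw [List.length_append] at h1
    have h2 : (s + v.length % m) % m = 0 := by
      rw [hs, ← Nat.add_mod]; exact Nat.mod_eq_zero_of_dvd h1
    have h3 : v.length % m < m := Nat.mod_lt _ hm
    have h4 : m ∣ s + v.length % m := Nat.dvd_of_mod_eq_zero h2
    obtain ⟨c, hc⟩ := h4
    have : c = 1 := by
      have hc2 : c < 2 := by
        by_contra h
        have : m * 2 ≤ m * c := Nat.mul_le_mul_left m (by omega)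
        omega
      have hc0 : c ≠ 0 := by rintro rfl; omega
      omega
    rw [this] at hc
    omega
  have hul : ∀ u ∈ M₁, u.length % m = s := by
    intro u hu
    have h1 := hML _ (hmem u hu v₀ hv₀)
    rw [List.length_append] at h1
    have h5 := hv v₀ hv₀
    have h2 : (u.length % m + (m - s)) % m = 0 := by
      rw [← h5, ← Nat.add_mod]; exact Nat.mod_eq_zero_of_dvd h1
    have h3 : u.length % m < m := Nat.mod_lt _ hm
    obtain ⟨c, hc⟩ := Nat.dvd_of_mod_eq_zero h2
    have : c = 1 := by
      have hc2 : c < 2 := by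
        by_contra h
        have : m * 2 ≤ m * c := Nat.mul_le_mul_left m (by omega)
        omega
      have hc0 : c ≠ 0 := by rintro rfl; omega
      omega
    rw [this] at hc
    omega
  -- the block at the cut
  have key : ∀ u ∈ M₁, ∀ v ∈ M₂, ∃ x ∈ S, u.drop (u.length - s) = (φ x).take s ∧
      v.take (m - s) = (φ x).drop s := by
    intro u hu v hv'
    obtain ⟨W, hW, e⟩ := (hM _).mp (hmem u hu v hv')
    obtain ⟨v1, x, v2, e1, e2, e3⟩ := SHF_cut φ m s hs0 W u v
      (fun x hx => hlen x (hLS W hW x hx)) e (hul u hu)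
    have hxS : x ∈ S := hLS W hW x (by rw [e1]; simp)
    have hl := hlen x hxS
    refine ⟨x, hxS, ?_, ?_⟩
    · rw [e2]
      apply List.drop_left'
      simp only [List.length_append, List.length_take, hl]
      omega
    · rw [e3]
      apply List.take_left'
      simp [hl]
  have hus : ∀ u ∈ M₁, s ≤ u.length := fun u hu => by
    rw [← hul u hu]; exact Nat.mod_le _ _
  have hvs : ∀ v ∈ M₂, m - s ≤ v.length := fun v hv' => by
    rw [← hv v hv']; exact Nat.mod_le _ _
  have hY := hRF s {y | y ∈ S ∧ ∃ u ∈ M₁, u.drop (u.length - s) = (φ y).take s}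
    {z | z ∈ S ∧ ∃ v ∈ M₂, v.take (m - s) = (φ z).drop s} hs0 hsm (fun y hy => hy.1)
    (fun z hz => hz.1)
    (by obtain ⟨x, hx, h1, h2⟩ := key u₀ hu₀ v₀ hv₀; exact ⟨x, hx, u₀, hu₀, h1⟩)
    (by obtain ⟨x, hx, h1, h2⟩ := key u₀ hu₀ v₀ hv₀; exact ⟨x, hx, v₀, hv₀, h2⟩)
    (by
      rintro y ⟨hy, u, hu, h1⟩ z ⟨hz, v, hv', h2⟩
      obtain ⟨x, hx, h3, h4⟩ := key u hu v hv'
      refine ⟨x, hx, ?_⟩
      rw [← h1, ← h2, h3, h4, List.take_append_drop])
  rcases hY with hY | hZ
  · -- all the last parts of the words of M₁ agree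
    have hp : ∀ u ∈ M₁, u.drop (u.length - s) = u₀.drop (u₀.length - s) := by
      intro u hu
      obtain ⟨x, hx, h1, h2⟩ := key u hu v₀ hv₀
      obtain ⟨x', hx', h1', h2'⟩ := key u₀ hu₀ v₀ hv₀
      rw [h1, h1']
      exact hY x ⟨hx, u, hu, h1⟩ x' ⟨hx', u₀, hu₀, h1'⟩
    set p := u₀.drop (u₀.length - s) with hpd
    have hpl : p.length = s := by
      rw [hpd, List.length_drop]
      have := hus u₀ hu₀
      omega
    obtain ⟨A, hA⟩ : ∃ A : Language β, ∀ w, w ∈ A ↔ w ++ p ∈ M₁ :=
      ⟨{w | w ++ p ∈ M₁}, fun w => Iff.rfl⟩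
    obtain ⟨B, hB⟩ : ∃ B : Language β, ∀ w, w ∈ B ↔ ∃ v ∈ M₂, w = p ++ v :=
      ⟨{w | ∃ v ∈ M₂, w = p ++ v}, fun w => Iff.rfl⟩
    refine ⟨A, B, ?_, ?_, ?_, ?_⟩
    · ext w
      rw [Language.mem_mul]
      constructor
      · intro hw
        obtain ⟨u, hu, v, hv', e⟩ := hmem' w hw
        refine ⟨u.take (u.length - s), ?_, p ++ v, (hB _).mpr ⟨v, hv', rfl⟩, ?_⟩
        · rw [hA, ← hp u hu, List.take_append_drop]; exact hu
        · rw [← List.append_assoc, ← hp u hu, List.take_append_drop]; exact e
      · rintro ⟨a, ha, b, hb, rfl⟩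
        obtain ⟨v, hv', rfl⟩ := (hB b).mp hb
        rw [← List.append_assoc]
        exact hmem _ ((hA a).mp ha) _ hv'
    · intro h1
      obtain ⟨w, hw, w', hw', hne'⟩ := hhd
      apply hne'
      have : ∀ w ∈ M, w.head? = p.head? := by
        intro w hw
        obtain ⟨u, hu, v, hv', e⟩ := hmem' w hw
        have h2 : u.take (u.length - s) ∈ A := by
          rw [hA, ← hp u hu, List.take_append_drop]; exact hu
        rw [h1, Language.mem_one] at h2
        have h3 : u = p := by
          conv_lhs => rw [← List.take_append_drop (u.length - s) u]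
          rw [h2, hp u hu]; rfl
        rw [← e, h3, List.head?_append_of_ne_nil]
        intro h; rw [h] at hpl; simp at hpl; omega
      rw [this w hw, this w' hw']
    · intro h1
      have h2 : p ++ v₀ ∈ B := (hB _).mpr ⟨v₀, hv₀, rfl⟩
      rw [h1, Language.mem_one] at h2
      have h3 := congrArg List.length h2
      simp only [List.length_append, List.length_nil] at h3
      omega
    · refine ⟨u₀.take (u₀.length - s), ?_, ?_⟩
      · rw [hA, hpd, List.take_append_drop]; exact hu₀
      · rw [List.length_take]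
        have := hus u₀ hu₀
        rw [min_eq_left (by omega)]
        exact Nat.dvd_sub_mod u₀.length
  · -- all the first parts of the words of M₂ agree
    have hr : ∀ v ∈ M₂, v.take (m - s) = v₀.take (m - s) := by
      intro v hv'
      obtain ⟨x, hx, h1, h2⟩ := key u₀ hu₀ v hv'
      obtain ⟨x', hx', h1', h2'⟩ := key u₀ hu₀ v₀ hv₀
      rw [h2, h2']
      exact hZ x ⟨hx, v, hv', h2⟩ x' ⟨hx', v₀, hv₀, h2'⟩
    set r := v₀.take (m - s) with hrd
    have hrl : r.length = m - s := by
      rw [hrd, List.length_take]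
      have := hvs v₀ hv₀
      omega
    obtain ⟨A, hA⟩ : ∃ A : Language β, ∀ w, w ∈ A ↔ ∃ u ∈ M₁, w = u ++ r :=
      ⟨{w | ∃ u ∈ M₁, w = u ++ r}, fun w => Iff.rfl⟩
    obtain ⟨B, hB⟩ : ∃ B : Language β, ∀ w, w ∈ B ↔ r ++ w ∈ M₂ :=
      ⟨{w | r ++ w ∈ M₂}, fun w => Iff.rfl⟩
    refine ⟨A, B, ?_, ?_, ?_, ?_⟩
    · ext w
      rw [Language.mem_mul]
      constructor
      · intro hw
        obtain ⟨u, hu, v, hv', e⟩ := hmem' w hw
        refine ⟨u ++ r, (hA _).mpr ⟨u, hu, rfl⟩, v.drop (m - s), ?_, ?_⟩
        · rw [hB, ← hr v hv', List.take_append_drop]; exact hv'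
        · rw [List.append_assoc, ← hr v hv', List.take_append_drop]; exact e
      · rintro ⟨a, ha, b, hb, rfl⟩
        obtain ⟨u, hu, rfl⟩ := (hA a).mp ha
        rw [List.append_assoc]
        exact hmem _ hu _ ((hB b).mp hb)
    · intro h1
      have h2 : u₀ ++ r ∈ A := (hA _).mpr ⟨u₀, hu₀, rfl⟩
      rw [h1, Language.mem_one] at h2
      have h3 := congrArg List.length h2
      simp only [List.length_append, List.length_nil] at h3
      omega
    · intro h1
      obtain ⟨w, hw, w', hw', hne'⟩ := htl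
      apply hne'
      have : ∀ w ∈ M, w.getLast? = r.getLast? := by
        intro w hw
        obtain ⟨u, hu, v, hv', e⟩ := hmem' w hw
        have h2 : v.drop (m - s) ∈ B := by
          rw [hB, ← hr v hv', List.take_append_drop]; exact hv'
        rw [h1, Language.mem_one] at h2
        have h3 : v = r := by
          conv_lhs => rw [← List.take_append_drop (m - s) v]
          rw [h2, hr v hv', List.append_nil]
        rw [← e, h3, List.getLast?_append_of_ne_nil]
        intro h; rw [h] at hrl; simp at hrl; omega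
      rw [this w hw, this w' hw']
    · refine ⟨u₀ ++ r, (hA _).mpr ⟨u₀, hu₀, rfl⟩, ?_⟩
      rw [List.length_append, hrl]
      have h1 := Nat.div_add_mod u₀.length m
      refine ⟨u₀.length / m + 1, ?_⟩
      rw [mul_add, mul_one]
      omega
end Pool.FE
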