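import Pool.Agent.Work.MP_e24068_el.Interface8
import Pool.Agent.Work.MP_e24068_dich.B_REV

/-!
# Block SOC: the algorithm accepts if there is a factorization
(helper46; adapted from the block of helper21)
-/

set_option autoImplicit false

namespace Pool.FE

open Pool.Agent.Work.TMLib Pool.Agent.Work.MP_e24068_lc
open Pool.FD (Wd LW mb pre suf len sufs okR okL cov isF cL cR hV hStep hX horn rv hornR sat2 rm
  U0 V0 Ut Vt quads Fac Cls)

theorem SOC_tries {L : List Wd} {a b p q d k : ℕ}
    (h : tryA L a b p q d = true ∨ tryB L a b p q d k = true ∨ tryC L a b p q d = true ∨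
      tryD L a b p q d = true ∨ tryE L a b p q d = true ∨ tryF L a b p q d = true) :
    tries L a b p q d k = true := by
  unfold tries
  rcases h with h | h | h | h | h | h <;> simp [h]

theorem SOC_34 (hTV3 : Stmt_TV3) (hTC : Stmt_TC) (hTD : Stmt_TD) (hTE : Stmt_TE)
    (hTF : Stmt_TF) {L : List Wd} {U V : Set Wd} {a b d : ℕ} (hF : FacD L U V a b d) :
    tries L a b (a + 3 * d) (b + 4 * d) d (a + 2 * d) = true := by
  rcases hTV3 L U V a b d hF with h | h3
  · exact SOC_tries (Or.inr (Or.inl h))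
  · by_cases hC : ∀ u ∈ C2 L a b (a + 3 * d) (b + 4 * d) d, u ∈ U
    · exact SOC_tries (Or.inr (Or.inr (Or.inl (hTC L U V a b d hF h3 hC))))
    · by_cases hD : ∀ v ∈ D2 L a b (a + 3 * d) (b + 4 * d) d, v ∈ V
      · exact SOC_tries (Or.inr (Or.inr (Or.inr (Or.inl (hTD L U V a b d hF h3 hD)))))
      · have hC' : ∃ u ∈ C2 L a b (a + 3 * d) (b + 4 * d) d, u ∉ U := by
          push Not at hC
          exact hC
        have hD' : ∃ v ∈ D2 L a b (a + 3 * d) (b + 4 * d) d, v ∉ V := by
          push Not at hD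
          exact hD
        by_cases hG : ∀ r ∈ C1 L a b (a + 3 * d) (b + 4 * d) d,
            gd L a b (a + 3 * d) (b + 4 * d) d r = true → r ∈ U
        · exact SOC_tries (Or.inr (Or.inr (Or.inr (Or.inr (Or.inl
            (hTE L U V a b d hF h3 hC' hD' hG))))))
        · have hG' : ∃ r ∈ C1 L a b (a + 3 * d) (b + 4 * d) d,
              gd L a b (a + 3 * d) (b + 4 * d) d r = true ∧ r ∉ U := by
            push Not at hG
            exact hG
          exact SOC_tries (Or.inr (Or.inr (Or.inr (Or.inr (Or.inr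
            (hTF L U V a b d hF h3 hC' hD' hG'))))))

theorem SOC_mem {N a b p q : ℕ} (ha : a < N) (hb : b < N) (hp : p < N) (hq : q < N) :
    (a, b, p, q) ∈ quads N := by
  unfold quads
  rw [List.mem_flatMap]
  refine ⟨a, List.mem_range.mpr ha, ?_⟩
  rw [List.mem_flatMap]
  refine ⟨b, List.mem_range.mpr hb, ?_⟩
  rw [List.mem_flatMap]
  refine ⟨p, List.mem_range.mpr hp, ?_⟩
  rw [List.mem_map]
  exact ⟨q, List.mem_range.mpr hq, rfl⟩

theorem SOC_mem2 {N d k : ℕ} (hd : d < N) (hk : k < N) : (d, k) ∈ dks N := by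
  unfold dks
  rw [List.mem_flatMap]
  refine ⟨d, List.mem_range.mpr hd, ?_⟩
  rw [List.mem_map]
  exact ⟨k, List.mem_range.mpr hk, rfl⟩

theorem SOC_solve {L : List Wd} {a b p q d k : ℕ}
    (ha : a < (L.flatMap fun w => w).length + 1) (hb : b < (L.flatMap fun w => w).length + 1)
    (hp : p < (L.flatMap fun w => w).length + 1) (hq : q < (L.flatMap fun w => w).length + 1)
    (hd : d < (L.flatMap fun w => w).length + 1) (hk : k < (L.flatMap fun w => w).length + 1)
    (h : tries L a b p q d k = true ∨ tries (rv L) a b p q d k = true) : solve L = true := by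
  unfold solve
  rw [List.any_eq_true]
  refine ⟨(a, b, p, q), SOC_mem ha hb hp hq, ?_⟩
  rw [List.any_eq_true]
  refine ⟨(d, k), SOC_mem2 hd hk, ?_⟩
  rcases h with h | h <;> simp [h]

theorem p_SOC (hFEX : Stmt_FEX) (hTA : Stmt_TA) (hT44 : Stmt_T44) (hTV3 : Stmt_TV3)
    (hTC : Stmt_TC) (hTD : Stmt_TD) (hTE : Stmt_TE) (hTF : Stmt_TF) : Stmt_SOC := by
  intro L hL hlen hfac
  obtain ⟨U, V, a, b, p, q, hF, hap, hbq, hpq, hcase⟩ := hFEX L hL hlen hfac
  have hR := Pool.FD.p_FRV L U V a b p q hF
  rcases hcase with ⟨d, hd, hU⟩ | ⟨d, hd, hV⟩ | ⟨d, k, e, j, hdk, hkp, hej, hjq, hU, hV⟩ |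
    ⟨d, hp, hq, hD⟩ | ⟨d, hp, hq, hD⟩
  · exact SOC_solve (a := a) (b := b) (p := p) (q := q) (d := d) (k := 0) (by omega) (by omega)
      (by omega) (by omega) (by omega) (by omega)
      (Or.inl (SOC_tries (Or.inl (hTA L U V a b p q d hF hU))))
  · refine SOC_solve (a := b) (b := a) (p := q) (q := p) (d := d) (k := 0) (by omega) (by omega)
      (by omega) (by omega) (by omega) (by omega)
      (Or.inr (SOC_tries (Or.inl (hTA (rv L) _ _ b a q p d hR ?_))))
    intro u hu
    have := hV u.reverse hu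
    rwa [List.length_reverse] at this
  · rcases hT44 L U V a b p q d k e j hF hU hV hdk hkp hej hjq with h | h
    · exact SOC_solve (a := a) (b := b) (p := p) (q := q) (d := d) (k := k) (by omega) (by omega)
        (by omega) (by omega) (by omega) (by omega) (Or.inl (SOC_tries (Or.inr (Or.inl h))))
    · exact SOC_solve (a := b) (b := a) (p := q) (q := p) (d := e) (k := j) (by omega) (by omega)
        (by omega) (by omega) (by omega) (by omega) (Or.inr (SOC_tries (Or.inr (Or.inl h))))
  · subst hp hq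
    exact SOC_solve (by omega) (by omega) (by omega) (by omega) (by omega) (by omega)
      (Or.inl (SOC_34 hTV3 hTC hTD hTE hTF hD))
  · subst hp hq
    exact SOC_solve (by omega) (by omega) (by omega) (by omega) (by omega) (by omega)
      (Or.inr (SOC_34 hTV3 hTC hTD hTE hTF hD))

end Pool.FE
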