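import Pool.Agent.Work.MP_e24068_el.Interface8
import Pool.Agent.Work.MP_e24068_dich.B_REV

/-! # Block SOS: the algorithm is sound (helper54, after helper87) -/

set_option autoImplicit false

namespace Pool.FE

open Pool.Agent.Work.TMLib Pool.Agent.Work.MP_e24068_lc
open Pool.FD (Wd LW rv)

theorem p_SOS (hT : Stmt_TSO) : Stmt_SOS := by
  intro L hL h
  unfold solve at h
  obtain ⟨s, -, hs⟩ := List.any_eq_true.1 h
  obtain ⟨t, -, ht⟩ := List.any_eq_true.1 hs
  rcases Bool.or_eq_true_iff.1 ht with h1 | h1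
  · exact hT L _ _ _ _ _ _ hL h1
  · refine (Pool.FD.p_REV L).1 (hT (rv L) _ _ _ _ _ _ ?_ h1)
    unfold rv
    simpa using hL

end Pool.FE
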