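import Pool.Agent.Work.MP_e24068_el.InterfaceB

/-! Block SYN (helper54). -/

set_option autoImplicit false

namespace Pool.FE

theorem SYN_get {α β : Type} (g : α → List β) (m : ℕ) (_hm : 0 < m) (w : List α)
    (h : ∀ x ∈ w, (g x).length = m) (q r : ℕ) (hr : r < m) :
    (w.flatMap g)[m * q + r]? = (w[q]?).bind (fun x => (g x)[r]?) := by
  induction w generalizing q with
  | nil => simp
  | cons a w ih =>
    have ha : (g a).length = m := h a (by simp)
    have hw : ∀ x ∈ w, (g x).length = m := fun x hx => h x (by simp [hx])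
    rw [List.flatMap_cons]
    cases q with
    | zero =>
      rw [List.getElem?_append_left (by rw [ha]; omega)]
      simp
    | succ q =>
      rw [List.getElem?_append_right (by rw [ha]; nlinarith), ha]
      have : m * (q + 1) + r - m = m * q + r := by
        rw [Nat.mul_succ]; omega
      rw [this, ih hw q]
      simp

theorem SYN_len (N : ℕ) (e f : Bool) (k : ℕ) (hk : k ≤ N) : (blk N e f k).length = N + 9 := by
  simp [blk, oh]
  omega

theorem SYN_one (N : ℕ) (e f : Bool) (k j : ℕ) (hk : k ≤ N) (h : (blk N e f k)[j]? = some 1) :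
    j = 0 ∨ j = 2 ∨ j = 3 ∨ j = 4 ∨ j = 6 + k ∨ j = N + 8 := by
  rcases j with _ | _ | _ | _ | _ | _ | j
  · simp
  · simp [blk] at h
  · simp
  · simp
  · simp
  · simp [blk] at h
  · have h' : (oh N k ++ [0, bit f])[j]? = some 1 := by
      simpa [blk] using h
    have hl : (oh N k).length = N + 1 := by simp [oh]; omega
    by_cases h1 : j < N + 1
    · rw [List.getElem?_append_left (by rw [hl]; exact h1)] at h'
      unfold oh at h'
      by_cases h2 : j < k
      · rw [List.getElem?_append_left (by simpa using h2), List.getElem?_replicate, if_pos h2] at h'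
        simp at h'
      · rw [List.getElem?_append_right (by simpa using Nat.le_of_not_lt h2), List.length_replicate] at h'
        by_cases h3 : j = k
        · omega
        · obtain ⟨d, hd⟩ : ∃ d, j - k = d + 1 := ⟨j - k - 1, by omega⟩
          rw [hd, List.getElem?_cons_succ, List.getElem?_replicate] at h'
          split_ifs at h' with h4
          simp at h'
    · rw [List.getElem?_append_right (by rw [hl]; omega), hl] at h'
      have h5 : j - (N + 1) < 2 := by
        by_contra hc
        rw [List.getElem?_eq_none (by simp; omega)] at h'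
        simp at h'
      have h6 : j = N + 1 ∨ j = N + 2 := by omega
      rcases h6 with rfl | rfl
      · simp at h'
      · omega

theorem p_SYN : Stmt_SYN := by
  intro α e f c N w hw i h0 h1 h2
  set g : α → List (Fin 2) := fun x => blk N (e x) (f x) (c x) with hg
  have hlen : ∀ x ∈ w, (g x).length = N + 9 := fun x hx => SYN_len N _ _ _ (hw x hx)
  have hget : ∀ q r, r < N + 9 → (w.flatMap g)[(N + 9) * q + r]? = (w[q]?).bind (fun x => (g x)[r]?) :=
    fun q r hr => SYN_get g (N + 9) (by omega) w hlen q r hr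
  have hone : ∀ q r, r < N + 9 → (w.flatMap g)[(N + 9) * q + r]? = some 1 →
      ∃ x, w[q]? = some x ∧ c x ≤ N ∧ (r = 0 ∨ r = 2 ∨ r = 3 ∨ r = 4 ∨ r = 6 + c x ∨ r = N + 8) := by
    intro q r hr h
    rw [hget q r hr] at h
    obtain ⟨x, hx, hx'⟩ := Option.bind_eq_some_iff.1 h
    have hxw : x ∈ w := List.mem_of_getElem? hx
    exact ⟨x, hx, hw x hxw, SYN_one N _ _ _ r (hw x hxw) hx'⟩
  obtain ⟨q, r, hr, rfl⟩ : ∃ q r, r < N + 9 ∧ i = (N + 9) * q + r :=
    ⟨i / (N + 9), i % (N + 9), Nat.mod_lt _ (by omega), (Nat.div_add_mod i (N + 9)).symm⟩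
  rw [Nat.mul_add_mod, Nat.mod_eq_of_lt hr]
  obtain ⟨x0, hx0, hc0, hr0⟩ := hone q r hr h0
  by_cases hr1 : r + 1 < N + 9
  · obtain ⟨x1, hx1, hc1, hr1'⟩ := hone q (r + 1) hr1 h1
    have hx01 : x1 = x0 := by
      rw [hx0] at hx1
      exact (Option.some.inj hx1).symm
    subst hx01
    by_cases hr2 : r + 2 < N + 9
    · obtain ⟨x2, hx2, hc2, hr2'⟩ := hone q (r + 2) hr2 h2
      have hx02 : x2 = x1 := by
        rw [hx0] at hx2
        exact (Option.some.inj hx2).symm
      subst hx02
      omega
    · omega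
  · have hr3 : r = N + 8 := by omega
    have e2 : (N + 9) * q + r + 2 = (N + 9) * (q + 1) + 1 := by
      rw [hr3, Nat.mul_succ]; omega
    rw [e2] at h2
    obtain ⟨x2, hx2, hc2, hr2'⟩ := hone (q + 1) 1 (by omega) h2
    omega

end Pool.FE
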