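import Pool.Agent.Work.MP_e24068_el.Interface8
import Pool.Agent.Work.MP_e24068_el.Old8

set_option autoImplicit false

namespace Pool.FE

open Pool.Agent.Work.TMLib Pool.Agent.Work.MP_e24068_lc
open Pool.FD (Wd LW mb pre suf len sufs okR okL cov isF cL cR hV hStep hX horn rv hornR sat2 rm
  U0 V0 Ut Vt quads Fac Cls)

theorem T44_mem_rv (L : List Wd) (w : Wd) : w ∈ rv L ↔ w.reverse ∈ L := by
  unfold Pool.FD.rv
  rw [List.mem_map]
  constructor
  · rintro ⟨x, hx, rfl⟩
    rw [List.reverse_reverse]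
    exact hx
  · intro h
    exact ⟨w.reverse, h, List.reverse_reverse w⟩

theorem p_T44 (h1 : Stmt_TOP) (h2 : Stmt_TB) : Stmt_T44 := by
  intro L U V a b p q d k e j h hU hV hk1 hk2 hj1 hj2
  by_contra hcon
  rw [not_or] at hcon
  obtain ⟨n1, n2⟩ := hcon
  have hr := Pool.FD.p_FRV L U V a b p q h
  have hUr : ∀ u ∈ {w : Wd | w.reverse ∈ V},
      u.length = b ∨ u.length = b + e ∨ u.length = j ∨ u.length = q := by
    intro u hu
    rw [Set.mem_ofPred_eq] at hu
    have := hV _ hu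
    rw [List.length_reverse] at this
    exact this
  have g1 : ∃ u ∈ cL L (V0 L a b ++ Vt L p q) k, u ∉ U := by
    by_contra hg
    refine n1 (h2 L U V a b p q d k h hU fun u hu => ?_)
    by_contra hu'
    exact hg ⟨u, hu, hu'⟩
  have g2 : ∃ v ∈ cL (rv L) (V0 (rv L) b a ++ Vt (rv L) q p) j,
      v ∉ {w : Wd | w.reverse ∈ V} := by
    by_contra hg
    refine n2 (h2 (rv L) _ _ b a q p e j hr hUr fun u hu => ?_)
    by_contra hu'
    exact hg ⟨u, hu, hu'⟩
  obtain ⟨u, hu, hu'⟩ := g1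
  obtain ⟨v, hv, hv'⟩ := g2
  have c1 := ((Pool.FD.p_CAM L _ _).1 u).1 hu
  have c2 := ((Pool.FD.p_CAM (rv L) _ _).1 v).1 hv
  have e1 := (Pool.FD.p_LEV L U V a b p q h).2.2.2
  have e2 := (Pool.FD.p_LEV (rv L) _ _ b a q p hr).2.2.2
  refine h1 L U V a b p q k j u v.reverse h ?_ hk2 ?_ hj2 c1.1 hu' ?_ ?_ ?_ ?_
  · intro u' hu2
    rcases hU u' hu2 with h3 | h3 | h3 | h3
    · left; omega
    · left; omega
    · left; omega
    · right; exact h3
  · intro v' hv2
    rcases hV v' hv2 with h3 | h3 | h3 | h3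
    · left; omega
    · left; omega
    · left; omega
    · right; exact h3
  · intro v' hv'' hl
    exact c1.2.2 v' (List.mem_append_right _ ((e1 v').2 ⟨hv'', hl⟩))
  · rw [List.length_reverse, c2.1]
  · exact hv'
  · intro u' hu'' hl
    have k1 : u'.reverse ∈ Vt (rv L) q p := by
      refine (e2 u'.reverse).2 ⟨?_, ?_⟩
      · rw [Set.mem_ofPred_eq, List.reverse_reverse]
        exact hu''
      · rw [List.length_reverse, hl]
    have k2 := c2.2.2 u'.reverse (List.mem_append_right _ k1)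
    rw [T44_mem_rv, List.reverse_append, List.reverse_reverse] at k2
    exact k2

end Pool.FE
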