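import Pool.Agent.Work.MP_e24068_el.Interface8
import Pool.Agent.Work.MP_e24068_el.Old8

/-! Blocks TA, TB (adapted from helper75's blocks). -/

set_option autoImplicit false

namespace Pool.FE

open Pool.Agent.Work.TMLib Pool.Agent.Work.MP_e24068_lc
open Pool.FD (Wd LW mb pre suf len sufs okR okL cov isF cL cR hV hStep hX horn rv hornR sat2 rm
  U0 V0 Ut Vt quads Fac Cls)

theorem TAB_ne {L : List Wd} {U V : Set Wd} {a b p q : ℕ} (h : Fac L U V a b p q)
    (h2 : Pool.FD.Stmt_LEV) : ∃ w ∈ Ut L p q, w ≠ [] := by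
  obtain ⟨u, hu, hne⟩ := h.un
  obtain ⟨w, hw, hl⟩ := h.up
  refine ⟨w, ((h2 L U V a b p q h).2.2.1 w).2 ⟨hw, hl⟩, ?_⟩
  rintro rfl
  have h3 := (h.ul u hu).2
  simp only [List.length_nil] at hl
  exact hne (List.length_eq_zero_iff.1 (by omega))

theorem p_TA : Stmt_TA := by
  intro L U V a b p q d h hp
  have h1 := o_HOC
  have h2 := Pool.FD.p_LEV
  obtain ⟨l1, l2, l3, l4⟩ := h2 L U V a b p q h
  refine h1 L U V a b p q (U0 L a b ++ Ut L p q) (a + d) h ?_ ?_ ?_
  · intro w hw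
    rcases List.mem_append.1 hw with hw | hw
    · exact ((l1 w).1 hw).1
    · exact ((l3 w).1 hw).1
  · intro u hu
    rcases hp u hu with h4 | h4 | h4
    · exact Or.inl (List.mem_append.2 (Or.inl ((l1 u).2 ⟨hu, h4⟩)))
    · exact Or.inr h4
    · exact Or.inl (List.mem_append.2 (Or.inr ((l3 u).2 ⟨hu, h4⟩)))
  · obtain ⟨w, hw, hne⟩ := TAB_ne h h2
    exact ⟨w, List.mem_append.2 (Or.inr hw), hne⟩

theorem p_TB : Stmt_TB := by
  intro L U V a b p q d k h hU hc
  have h1 := o_HOC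
  have h2 := Pool.FD.p_LEV
  have h3 := Pool.FD.p_CAN
  obtain ⟨l1, l2, l3, l4⟩ := h2 L U V a b p q h
  refine h1 L U V a b p q
    (U0 L a b ++ cL L (V0 L a b ++ Vt L p q) k ++ Ut L p q) (a + d) h ?_ ?_ ?_
  · intro w hw
    rcases List.mem_append.1 hw with hw | hw
    · rcases List.mem_append.1 hw with hw | hw
      · exact ((l1 w).1 hw).1
      · exact hc w hw
    · exact ((l3 w).1 hw).1
  · intro u hu
    rcases hU u hu with h4 | h4 | h4 | h4
    · exact Or.inl (List.mem_append.2 (Or.inl (List.mem_append.2 (Or.inl ((l1 u).2 ⟨hu, h4⟩)))))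
    · exact Or.inr h4
    · refine Or.inl (List.mem_append.2 (Or.inl (List.mem_append.2 (Or.inr ?_))))
      refine (h3 L U V a b p q (V0 L a b ++ Vt L p q) k h).1 ?_ u hu h4
      intro w hw
      rcases List.mem_append.1 hw with hw | hw
      · exact ((l2 w).1 hw).1
      · exact ((l4 w).1 hw).1
    · exact Or.inl (List.mem_append.2 (Or.inr ((l3 u).2 ⟨hu, h4⟩)))
  · obtain ⟨w, hw, hne⟩ := TAB_ne h h2
    exact ⟨w, List.mem_append.2 (Or.inr hw), hne⟩

end Pool.FE
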