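import Pool.Agent.Work.MP_e24068_el.Interface8
import Pool.Agent.Work.MP_e24068_el.Old8

/-!
# Blocks TC and TD (adapted from the original by helper44)
-/

set_option autoImplicit false

namespace Pool.FE

open Pool.Agent.Work.TMLib Pool.Agent.Work.MP_e24068_lc
open Pool.FD (Wd LW mb pre suf len sufs okR okL cov isF cL cR hV hStep hX horn rv hornR sat2 rm
  U0 V0 Ut Vt quads Fac Cls)

theorem TCD_VK (L : List Wd) (U V : Set Wd) (a b d : ℕ)
    (hF : Fac L U V a b (a + 3 * d) (b + 4 * d))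
    (hV3 : ∀ w, w ∈ V3 L a b (a + 3 * d) (b + 4 * d) d ↔ w ∈ V ∧ w.length = b + 3 * d) :
    ∀ w ∈ VK L a b (a + 3 * d) (b + 4 * d) d, w ∈ V := by
  intro w hw
  unfold VK at hw
  rw [List.mem_append, List.mem_append] at hw
  obtain ⟨-, l2, -, l4⟩ := Pool.FD.p_LEV L U V a b _ _ hF
  rcases hw with (hw | hw) | hw
  · exact ((l2 w).1 hw).1
  · exact ((hV3 w).1 hw).1
  · exact ((l4 w).1 hw).1

theorem p_TC : Stmt_TC := by
  intro L U V a b d hFD hV3 hC2
  obtain ⟨hF, hd, huj, hvj⟩ := hFD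
  obtain ⟨l1, l2, l3, l4⟩ := Pool.FD.p_LEV L U V a b _ _ hF
  unfold tryC
  refine o_HOC L U V a b _ _ _ _ hF ?_ ?_ ?_
  · intro w hw
    rw [List.mem_append, List.mem_append] at hw
    rcases hw with (hw | hw) | hw
    · exact ((l1 w).1 hw).1
    · exact hC2 w hw
    · exact ((l3 w).1 hw).1
  · intro u hu
    rw [List.mem_append, List.mem_append]
    rcases huj u hu with h6 | h6 | h6 | h6
    · exact Or.inl (Or.inl (Or.inl ((l1 u).2 ⟨hu, h6⟩)))
    · exact Or.inr h6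
    · exact Or.inl (Or.inl (Or.inr ((Pool.FD.p_CAN L U V a b _ _
        (VK L a b (a + 3 * d) (b + 4 * d) d) (a + 2 * d) hF).1
        (TCD_VK L U V a b d hF hV3) u hu h6)))
    · exact Or.inl (Or.inr ((l3 u).2 ⟨hu, h6⟩))
  · obtain ⟨u, hu, hul⟩ := hF.up
    refine ⟨u, ?_, ?_⟩
    · rw [List.mem_append]
      exact Or.inr ((l3 u).2 ⟨hu, hul⟩)
    · rintro rfl
      simp at hul
      omega

theorem p_TD : Stmt_TD := by
  intro L U V a b d hFD hV3 hD2
  obtain ⟨hF, hd, huj, hvj⟩ := hFD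
  obtain ⟨l1, l2, l3, l4⟩ := Pool.FD.p_LEV L U V a b _ _ hF
  unfold tryD
  refine o_HOR L U V a b _ _ _ _ hF ?_ ?_ ?_
  · intro w hw
    rw [List.mem_append] at hw
    rcases hw with hw | hw
    · exact TCD_VK L U V a b d hF hV3 w hw
    · exact hD2 w hw
  · intro v hv
    rw [List.mem_append]
    unfold VK
    rw [List.mem_append, List.mem_append]
    rcases hvj v hv with h6 | h6 | h6 | h6 | h6
    · exact Or.inl (Or.inl (Or.inl (Or.inl ((l2 v).2 ⟨hv, h6⟩))))
    · exact Or.inr h6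
    · refine Or.inl (Or.inr ((Pool.FD.p_CAN L U V a b _ _
        (U0 L a b ++ Ut L (a + 3 * d) (b + 4 * d)) (b + 2 * d) hF).2 ?_ v hv h6))
      intro w hw
      rw [List.mem_append] at hw
      rcases hw with hw | hw
      · exact ((l1 w).1 hw).1
      · exact ((l3 w).1 hw).1
    · exact Or.inl (Or.inl (Or.inl (Or.inr ((hV3 v).2 ⟨hv, h6⟩))))
    · exact Or.inl (Or.inl (Or.inr ((l4 v).2 ⟨hv, h6⟩)))
  · obtain ⟨v, hv, hvl⟩ := hF.vq
    refine ⟨v, ?_, ?_⟩
    · unfold VK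
      rw [List.mem_append, List.mem_append]
      exact Or.inl (Or.inr ((l4 v).2 ⟨hv, hvl⟩))
    · rintro rfl
      simp at hvl
      omega

end Pool.FE
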