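import Pool.Agent.Work.MP_e24068_el.Interface8
import Pool.Agent.Work.MP_e24068_el.Old8

/-!
Try E is complete.
-/

set_option autoImplicit false

namespace Pool.FE

open Pool.Agent.Work.TMLib Pool.Agent.Work.MP_e24068_lc
open Pool.FD (Wd LW mb pre suf len sufs okR okL cov isF cL cR hV hStep hX horn rv hornR sat2 rm
  U0 V0 Ut Vt quads Fac Cls p_LEV p_CAN p_CAM)

theorem TE_mb {L : List Wd} {w : Wd} : mb L w = true ↔ w ∈ L := by
  simp [mb]

theorem TE_inX {L : List Wd} {p q d : ℕ} {x : Wd} :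
    inX L p q d x = true ↔ ∃ v ∈ Vt L p q, v.take d = x := by
  simp [inX]

theorem TE_VK {L : List Wd} {U V : Set Wd} {a b d : ℕ}
    (hF : FacD L U V a b d)
    (hV3 : ∀ w, w ∈ V3 L a b (a + 3 * d) (b + 4 * d) d ↔ w ∈ V ∧ w.length = b + 3 * d) :
    ∀ w, w ∈ VK L a b (a + 3 * d) (b + 4 * d) d ↔
      w ∈ V ∧ (w.length = b ∨ w.length = b + 3 * d ∨ w.length = b + 4 * d) := by
  obtain ⟨l1, l2, l3, l4⟩ := p_LEV L U V a b (a + 3 * d) (b + 4 * d) hF.fc
  intro w
  simp only [VK, List.mem_append, l2, l4, hV3]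
  tauto

theorem TE_G (h2 : Stmt_F2)
    {L : List Wd} {U V : Set Wd} {a b d : ℕ}
    (hF : FacD L U V a b d)
    (hV3 : ∀ w, w ∈ V3 L a b (a + 3 * d) (b + 4 * d) d ↔ w ∈ V ∧ w.length = b + 3 * d)
    (hv : ∃ v ∈ D2 L a b (a + 3 * d) (b + 4 * d) d, v ∉ V) {u : Wd}
    (hu : u ∈ C2 L a b (a + 3 * d) (b + 4 * d) d) (huU : u ∉ U) :
    u.take (a + d) ∈ U ∧ inX L (a + 3 * d) (b + 4 * d) d (u.drop (a + d)) = true := by
  obtain ⟨l1, l2, l3, l4⟩ := p_LEV L U V a b (a + 3 * d) (b + 4 * d) hF.fc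
  have hVK := TE_VK hF hV3
  obtain ⟨v, hv, hvV⟩ := hv
  rw [C2, (p_CAM L _ _).1] at hu
  rw [D2, (p_CAM L _ _).2] at hv
  obtain ⟨w, hw, hwl⟩ := hF.fc.vq
  have hx1 : (w.take d).length = d := by
    rw [List.length_take]
    omega
  have hx2 : (w.drop d).length = b + 3 * d := by
    rw [List.length_drop]
    omega
  obtain ⟨c1, c2, c3⟩ := h2 L U V a b d u v hF hu.1 huU
    (fun v' hv' hl => hu.2.2 v' ((hVK v').2 ⟨hv', by omega⟩)) hv.1 hvV
    (fun u' hu' hl => hv.2.2 u' (List.mem_append_right _ ((l3 u').2 ⟨hu', hl⟩)))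
    (w.take d) (w.drop d) hx1 hx2 (by rw [List.take_append_drop]; exact hw)
  have hx3 : (u.drop (a + d)).length = d := by
    rw [List.length_drop, hu.1]
    omega
  refine ⟨c1, TE_inX.2 ⟨u.drop (a + d) ++ (w.take d ++ v), (l4 _).2 ⟨c2, ?_⟩, ?_⟩⟩
  · rw [List.length_append, List.length_append, hx3, hx1, hv.1]
    omega
  · have h6 : (u.drop (a + d) ++ (w.take d ++ v)).take (u.drop (a + d)).length =
        u.drop (a + d) := List.take_left ..
    rw [hx3] at h6
    exact h6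

theorem p_TE (h2 : Stmt_F2) : Stmt_TE := by
  intro L U V a b d hF hV3 hu hv hG
  have hd0 := hF.dp
  obtain ⟨l1, l2, l3, l4⟩ := p_LEV L U V a b (a + 3 * d) (b + 4 * d) hF.fc
  have hVK := TE_VK hF hV3
  have hLG : ∀ w ∈ G L a b (a + 3 * d) (b + 4 * d) d, w ∈ U := by
    intro w hw
    rw [G, List.mem_append, List.mem_filter, List.mem_filter] at hw
    rcases hw with ⟨hw, hg⟩ | ⟨hw, hg⟩
    · exact hG w hw hg
    · by_contra hwU
      obtain ⟨c1, c2⟩ := TE_G h2 hF hV3 hv hw hwU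
      have hw' := hw
      rw [C2, (p_CAM L _ _).1] at hw'
      have c3 : w.take (a + d) ∈ C1 L a b (a + 3 * d) (b + 4 * d) d :=
        (p_CAN L U V a b (a + 3 * d) (b + 4 * d) _ (a + d) hF.fc).1
          (fun w hw => ((hVK w).1 hw).1) _ c1 (by
            rw [List.length_take, hw'.1]
            omega)
      rw [c2, TE_mb.2 c3] at hg
      simp at hg
  set K2 := cR L (U0 L a b ++ Ut L (a + 3 * d) (b + 4 * d) ++
    G L a b (a + 3 * d) (b + 4 * d) d) (b + 2 * d) with hK2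
  obtain ⟨u₀, hu₀, hu₀U⟩ := hu
  have hu₀' := hu₀
  rw [C2, (p_CAM L _ _).1] at hu₀'
  -- the new words are compatible with the first factor
  have key : ∀ v ∈ K2, ∀ u ∈ U, u ++ v ∈ L := by
    intro v hv' u hu
    by_cases hvV : v ∈ V
    · exact (hF.fc.fac _).2 ⟨u, hu, v, hvV, rfl⟩
    rw [hK2, (p_CAM L _ _).2] at hv'
    have hX : ∀ x : Wd, inX L (a + 3 * d) (b + 4 * d) d x = true →
        x ++ v ∈ V ∧ x.length = d := by
      intro x hx
      obtain ⟨w, hw, hwx⟩ := TE_inX.1 hx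
      rw [l4] at hw
      obtain ⟨hw, hwl⟩ := hw
      have hx1 : (w.take d).length = d := by
        rw [List.length_take]
        omega
      have hx2 : (w.drop d).length = b + 3 * d := by
        rw [List.length_drop]
        omega
      obtain ⟨-, -, c3⟩ := h2 L U V a b d u₀ v hF hu₀'.1 hu₀U
        (fun v' hv' hl => hu₀'.2.2 v' ((hVK v').2 ⟨hv', by omega⟩)) hv'.1 hvV
        (fun u' hu' hl => hv'.2.2 u' (by
          simp only [List.mem_append]
          exact .inl (.inr ((l3 u').2 ⟨hu', hl⟩))))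
        (w.take d) (w.drop d) hx1 hx2 (by rw [List.take_append_drop]; exact hw)
      rw [← hwx]
      exact ⟨c3, hx1⟩
    have hin : ∀ w, (w ∈ U0 L a b ∨ w ∈ Ut L (a + 3 * d) (b + 4 * d) ∨
        w ∈ G L a b (a + 3 * d) (b + 4 * d) d) → w ++ v ∈ L := by
      intro w hw
      apply hv'.2.2 w
      simp only [List.mem_append]
      tauto
    obtain hl | hl | hl | hl := hF.uj u hu
    · exact hin u (.inl ((l1 u).2 ⟨hu, hl⟩))
    · have huC : u ∈ C1 L a b (a + 3 * d) (b + 4 * d) d :=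
        (p_CAN L U V a b (a + 3 * d) (b + 4 * d) _ (a + d) hF.fc).1
          (fun w hw => ((hVK w).1 hw).1) _ hu hl
      by_cases hg : gd L a b (a + 3 * d) (b + 4 * d) d u = true
      · refine hin u (.inr (.inr ?_))
        rw [G, List.mem_append, List.mem_filter]
        exact .inl ⟨huC, hg⟩
      · simp only [gd, Bool.or_eq_true, Bool.not_eq_true', not_or, Bool.not_eq_false] at hg
        obtain ⟨g1, g2⟩ := hg
        rw [TE_mb, l1] at g1
        have h6 : u ++ v = u.take a ++ (u.drop a ++ v) := by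
          rw [← List.append_assoc, List.take_append_drop]
        rw [h6]
        exact (hF.fc.fac _).2 ⟨_, g1.1, _, (hX _ g2).1, rfl⟩
    · have huC : u ∈ C2 L a b (a + 3 * d) (b + 4 * d) d :=
        (p_CAN L U V a b (a + 3 * d) (b + 4 * d) _ (a + 2 * d) hF.fc).1
          (fun w hw => ((hVK w).1 hw).1) _ hu hl
      by_cases hg : (!(inX L (a + 3 * d) (b + 4 * d) d (u.drop (a + d))) ||
          !(mb (C1 L a b (a + 3 * d) (b + 4 * d) d) (u.take (a + d)))) = true
      · refine hin u (.inr (.inr ?_))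
        rw [G, List.mem_append, List.mem_filter, List.mem_filter]
        exact .inr ⟨huC, hg⟩
      · simp only [Bool.or_eq_true, Bool.not_eq_true', not_or, Bool.not_eq_false] at hg
        obtain ⟨g1, g2⟩ := hg
        rw [TE_mb, C1, (p_CAM L _ _).1] at g2
        have h6 : u ++ v = u.take (a + d) ++ (u.drop (a + d) ++ v) := by
          rw [← List.append_assoc, List.take_append_drop]
        rw [h6]
        obtain ⟨e1, e2⟩ := hX _ g1
        refine g2.2.2 _ ((hVK _).2 ⟨e1, ?_⟩)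
        rw [List.length_append, e2, hv'.1]
        omega
    · exact hin u (.inr (.inl ((l3 u).2 ⟨hu, hl⟩)))
  have hF' : Fac L U (V ∪ {w | w ∈ K2}) a b (a + 3 * d) (b + 4 * d) := by
    refine ⟨?_, hF.fc.ul, ?_, hF.fc.ua, hF.fc.up, ?_, ?_, hF.fc.un, ?_⟩
    · intro w
      constructor
      · intro hw
        obtain ⟨u, hu, v, hv, rfl⟩ := (hF.fc.fac w).1 hw
        exact ⟨u, hu, v, .inl hv, rfl⟩
      · rintro ⟨u, hu, v, hv | hv, rfl⟩
        · exact (hF.fc.fac _).2 ⟨u, hu, v, hv, rfl⟩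
        · exact key v hv u hu
    · rintro v (hv | hv)
      · exact hF.fc.vl v hv
      · have : v ∈ K2 := hv
        rw [hK2, (p_CAM L _ _).2] at this
        omega
    · obtain ⟨v, hv, hl⟩ := hF.fc.vb
      exact ⟨v, .inl hv, hl⟩
    · obtain ⟨v, hv, hl⟩ := hF.fc.vq
      exact ⟨v, .inl hv, hl⟩
    · obtain ⟨v, hv, hl⟩ := hF.fc.vn
      exact ⟨v, .inl hv, hl⟩
  refine o_HOR L U (V ∪ {w | w ∈ K2}) a b (a + 3 * d) (b + 4 * d) _ (b + d) hF' ?_ ?_ ?_
  · intro w hw
    rw [List.mem_append] at hw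
    rcases hw with hw | hw
    · exact .inl ((hVK w).1 hw).1
    · exact .inr hw
  · rintro v (hv | hv)
    · rw [List.mem_append, hVK]
      obtain hl | hl | hl | hl | hl := hF.vj v hv
      · exact .inl (.inl ⟨hv, .inl hl⟩)
      · exact .inr hl
      · left; right
        refine (p_CAN L U V a b (a + 3 * d) (b + 4 * d) _ (b + 2 * d) hF.fc).2 ?_ v hv hl
        intro w hw
        simp only [List.mem_append] at hw
        rcases hw with (hw | hw) | hw
        · exact ((l1 w).1 hw).1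
        · exact ((l3 w).1 hw).1
        · exact hLG w hw
      · exact .inl (.inl ⟨hv, .inr (.inl hl)⟩)
      · exact .inl (.inl ⟨hv, .inr (.inr hl)⟩)
    · left
      rw [List.mem_append]
      exact .inr hv
  · obtain ⟨v, hv, hl⟩ := hF.fc.vq
    refine ⟨v, ?_, ?_⟩
    · rw [List.mem_append, hVK]
      exact .inl ⟨hv, .inr (.inr hl)⟩
    · rintro rfl
      rw [List.length_nil] at hl
      omega

end Pool.FE
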