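import Pool.Agent.Work.MP_e24068_el.Interface8
import Pool.Agent.Work.MP_e24068_el.Old8

/-! Block TF (helper28), after helper75. -/

set_option autoImplicit false

namespace Pool.FE

open Pool.Agent.Work.TMLib Pool.Agent.Work.MP_e24068_lc
open Pool.FD (Wd LW mb pre suf len sufs okR okL cov isF cL cR hV hStep hX horn rv hornR sat2 rm
  U0 V0 Ut Vt quads Fac Cls)

theorem TF_mb (L : List Wd) (w : Wd) : mb L w = true ↔ w ∈ L := by
  simp [mb]

theorem TF_cov (U V : List Wd) (w : Wd) : cov U V w = true ↔ ∃ u ∈ U, ∃ v ∈ V, u ++ v = w := by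
  simp [cov]

open scoped Classical in
theorem p_TF (h1 : Stmt_F2) (h2 : Stmt_F3) : Stmt_TF := by
  intro L U V a b d hD hV3 ⟨u₁, hu₁, hu₁n⟩ ⟨v₁, hv₁, hv₁n⟩ ⟨r, hr, hgd, hrn⟩
  have h := hD.fc
  have hdp := hD.dp
  have h3 := Pool.FD.p_LEV
  have h4 := Pool.FD.p_CAN
  have h5 := Pool.FD.p_CAM
  have h6 := Pool.FD.p_SAC
  obtain ⟨l1, l2, l3, l4⟩ := h3 L U V a b (a + 3 * d) (b + 4 * d) h
  have hVK : ∀ w ∈ VK L a b (a + 3 * d) (b + 4 * d) d, w ∈ V := by
    intro w hw
    rcases List.mem_append.1 hw with hw | hw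
    · rcases List.mem_append.1 hw with hw | hw
      · exact ((l2 w).1 hw).1
      · exact ((hV3 w).1 hw).1
    · exact ((l4 w).1 hw).1
  have hUK : ∀ w ∈ U0 L a b ++ Ut L (a + 3 * d) (b + 4 * d), w ∈ U := by
    intro w hw
    rcases List.mem_append.1 hw with hw | hw
    · exact ((l1 w).1 hw).1
    · exact ((l3 w).1 hw).1
  have hL : ∀ u ∈ U, ∀ v ∈ V, u ++ v ∈ L := fun u hu v hv => (h.fac _).2 ⟨u, hu, v, hv, rfl⟩
  -- the words of the factors are candidates
  have hUmax : ∀ u ∈ U, u ∈ Umax L a b (a + 3 * d) (b + 4 * d) d := by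
    intro u hu
    have h7 := hD.uj u hu
    have hcan := fun k hk => (h4 L U V a b (a + 3 * d) (b + 4 * d) (VK L a b (a + 3 * d) (b + 4 * d) d) k h).1 hVK u
      hu hk
    unfold Umax C1 C2
    simp only [List.mem_append]
    by_cases e0 : u.length = a
    · exact Or.inl (Or.inl ((l1 u).2 ⟨hu, e0⟩))
    · by_cases e1 : u.length = a + d
      · exact Or.inr (Or.inl (hcan _ e1))
      · by_cases e2 : u.length = a + 2 * d
        · exact Or.inr (Or.inr (hcan _ e2))
        · exact Or.inl (Or.inr ((l3 u).2 ⟨hu, by omega⟩))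
  have hVmax : ∀ v ∈ V, v ∈ Vmax L a b (a + 3 * d) (b + 4 * d) d := by
    intro v hv
    have h7 := hD.vj v hv
    have hcan := fun k hk => (h4 L U V a b (a + 3 * d) (b + 4 * d)
      (U0 L a b ++ Ut L (a + 3 * d) (b + 4 * d)) k h).2 hUK v hv hk
    unfold Vmax VK D1 D2
    simp only [List.mem_append]
    by_cases e0 : v.length = b
    · exact Or.inl (Or.inl (Or.inl ((l2 v).2 ⟨hv, e0⟩)))
    · by_cases e1 : v.length = b + d
      · exact Or.inr (Or.inl (hcan _ e1))
      · by_cases e2 : v.length = b + 2 * d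
        · exact Or.inr (Or.inr (hcan _ e2))
        · by_cases e3 : v.length = b + 3 * d
          · exact Or.inl (Or.inl (Or.inr ((hV3 v).2 ⟨hv, e3⟩)))
          · exact Or.inl (Or.inr ((l4 v).2 ⟨hv, by omega⟩))
  -- the words of level `2`
  have hC2 : ∀ u ∈ C2 L a b (a + 3 * d) (b + 4 * d) d, u.length = a + 2 * d ∧
      ∀ v' ∈ V, v'.length = b + 4 * d → u ++ v' ∈ L := by
    intro u hu
    obtain ⟨c1, _, c3⟩ := ((h5 L (VK L a b (a + 3 * d) (b + 4 * d) d) (a + 2 * d)).1 u).1 hu
    refine ⟨c1, fun v' hv' hl => c3 v' ?_⟩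
    exact List.mem_append.2 (Or.inr ((l4 v').2 ⟨hv', hl⟩))
  have hC1 : ∀ u ∈ C1 L a b (a + 3 * d) (b + 4 * d) d, u.length = a + d ∧
      ∀ v' ∈ V, v'.length = b + 3 * d → u ++ v' ∈ L := by
    intro u hu
    obtain ⟨c1, _, c3⟩ := ((h5 L (VK L a b (a + 3 * d) (b + 4 * d) d) (a + d)).1 u).1 hu
    refine ⟨c1, fun v' hv' hl => c3 v' ?_⟩
    exact List.mem_append.2 (Or.inl (List.mem_append.2 (Or.inr ((hV3 v').2 ⟨hv', hl⟩))))
  have hD2 : ∀ v ∈ D2 L a b (a + 3 * d) (b + 4 * d) d, v.length = b + 2 * d ∧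
      ∀ u' ∈ U, u'.length = a + 3 * d → u' ++ v ∈ L := by
    intro v hv
    obtain ⟨c1, _, c3⟩ := ((h5 L (U0 L a b ++ Ut L (a + 3 * d) (b + 4 * d)) (b + 2 * d)).2 v).1 hv
    refine ⟨c1, fun u' hu' hl => c3 u' ?_⟩
    exact List.mem_append.2 (Or.inr ((l3 u').2 ⟨hu', hl⟩))
  -- a word of the top level
  obtain ⟨vt, hvt, hvtl⟩ := h.vq
  obtain ⟨x, v', hxl, hv'l, rfl⟩ : ∃ x v' : Wd, x.length = d ∧ v'.length = b + 3 * d ∧
      vt = x ++ v' := by
    refine ⟨vt.take d, vt.drop d, ?_, ?_, (List.take_append_drop d vt).symm⟩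
    · rw [List.length_take]; omega
    · rw [List.length_drop]; omega
  have hUt : Ut L (a + 3 * d) (b + 4 * d) ≠ [] := by
    obtain ⟨w, hw, hl⟩ := h.up
    exact List.ne_nil_of_mem ((l3 w).2 ⟨hw, hl⟩)
  have hVt : Vt L (a + 3 * d) (b + 4 * d) ≠ [] := List.ne_nil_of_mem ((l4 _).2 ⟨hvt, hvtl⟩)
  -- the condition on `r`
  have hr1 := hC1 r hr
  have hgd' : r.take a ∉ U ∨ ∀ v' : Wd, v'.length = b + 3 * d → r.drop a ++ v' ∉ V := by
    unfold gd at hgd
    simp only [Bool.or_eq_true, Bool.not_eq_true', Bool.eq_false_iff, ne_eq] at hgd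
    rcases hgd with hgd | hgd
    · left
      intro hc
      apply hgd
      rw [TF_mb, l1]
      exact ⟨hc, by rw [List.length_take]; omega⟩
    · right
      intro w hw hc
      apply hgd
      have hd : (r.drop a).length = d := by rw [List.length_drop, hr1.1]; omega
      unfold inX
      rw [List.any_eq_true]
      refine ⟨r.drop a ++ w, (l4 _).2 ⟨hc, by rw [List.length_append, hd, hw]; omega⟩, ?_⟩
      rw [decide_eq_true_eq]
      exact List.take_left' hd
  unfold tryF
  simp only [Bool.and_eq_true, decide_eq_true_eq, Bool.not_eq_true']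
  refine ⟨⟨⟨⟨⟨⟨⟨hdp, trivial⟩, trivial⟩, ?_⟩, ?_⟩, ?_⟩, ?_⟩, ?_⟩
  · rw [List.all_eq_true]
    intro u hu
    unfold okL
    rw [List.all_eq_true]
    intro v hv
    rw [TF_mb]
    exact hL u (hUK u hu) v (hVK v hv)
  · rw [List.all_eq_true]
    intro w hw
    rw [TF_cov]
    obtain ⟨u, hu, v, hv, e⟩ := (h.fac w).1 hw
    exact ⟨u, hUmax u hu, v, hVmax v hv, e⟩
  · rw [List.isEmpty_eq_false_iff]
    exact hUt
  · rw [List.isEmpty_eq_false_iff]
    exact hVt
  · refine h6 (Bool × Wd) _
      (fun x => if x.1 = true then decide (x.2 ∈ V) else decide (x.2 ∈ U)) ?_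
    intro c hc
    rcases List.mem_append.1 hc with hc | hc
    · rcases List.mem_append.1 hc with hc | hc
      · rcases List.mem_append.1 hc with hc | hc
        · -- kl1
          unfold kl1 at hc
          rw [List.mem_flatMap] at hc
          obtain ⟨x, hx, hc⟩ := hc
          rw [List.mem_map] at hc
          obtain ⟨y, hy, rfl⟩ := hc
          rw [List.mem_filter, List.any_eq_true] at hy
          obtain ⟨hy, w, hw, hcov⟩ := hy
          by_contra hcon
          push Not at hcon
          obtain ⟨hx', hy'⟩ := hcon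
          simp only [ne_eq, Bool.not_eq_true] at hx' hy'
          rw [Bool.not_eq_true', Bool.eq_false_iff] at hcov
          apply hcov
          rw [TF_cov]
          obtain ⟨u, hu, v, hv, e⟩ := (h.fac w).1 hw
          refine ⟨u, ?_, v, ?_, e⟩
          · unfold rm
            rw [List.mem_filter]
            refine ⟨hUmax u hu, ?_⟩
            simp only [Bool.not_eq_true', Bool.or_eq_false_iff, decide_eq_false_iff_not]
            constructor
            · rintro rfl
              simp [hu] at hx'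
            · rintro rfl
              simp [hu] at hy'
          · unfold rm
            rw [List.mem_filter]
            refine ⟨hVmax v hv, ?_⟩
            simp only [Bool.not_eq_true', Bool.or_eq_false_iff, decide_eq_false_iff_not]
            constructor
            · rintro rfl
              simp [hv] at hx'
            · rintro rfl
              simp [hv] at hy'
        · -- kl2
          unfold kl2 at hc
          rw [List.mem_flatMap] at hc
          obtain ⟨u, hu, hc⟩ := hc
          rw [List.mem_map] at hc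
          obtain ⟨v, hv, rfl⟩ := hc
          rw [List.mem_filter, Bool.not_eq_true', Bool.eq_false_iff, ne_eq, TF_mb] at hv
          by_contra hcon
          push Not at hcon
          obtain ⟨hx', hy'⟩ := hcon
          simp only [Bool.false_eq_true, if_false, if_true, ne_eq, Bool.not_eq_false,
            decide_eq_true_eq] at hx' hy'
          exact hv.2 (hL u hx' v hy')
      · -- kl3
        unfold kl3 at hc
        rw [List.mem_map] at hc
        obtain ⟨u, hu, rfl⟩ := hc
        rw [List.mem_filter] at hu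
        simp only [Bool.false_eq_true, if_false, decide_eq_true_eq]
        by_cases hc : u ∈ U
        · exact Or.inr hc
        · left
          exact (h1 L U V a b d u v₁ hD (hC2 u hu.1).1 hc (hC2 u hu.1).2 (hD2 v₁ hv₁).1 hv₁n
            (hD2 v₁ hv₁).2 x v' hxl hv'l hvt).1
    · -- kl4
      unfold kl4 at hc
      rw [List.mem_map] at hc
      obtain ⟨v, hv, rfl⟩ := hc
      rw [List.mem_filter] at hv
      simp only [if_true, decide_eq_true_eq]
      by_cases hc : v ∈ V
      · exact Or.inr hc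
      · left
        exact h2 L U V a b d u₁ v r hD (hC2 u₁ hu₁).1 hu₁n (hC2 u₁ hu₁).2 (hD2 v hv.1).1 hc
          (hD2 v hv.1).2 hr1.1 hrn hr1.2 hgd'

end Pool.FE
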