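import Pool.Agent.Work.MP_e24068_el.Interface8
import Pool.Agent.Work.MP_e24068_el.Old8

/-!
Try F is sound.
-/

set_option autoImplicit false

namespace Pool.FE

open Pool.Agent.Work.TMLib Pool.Agent.Work.MP_e24068_lc
open Pool.FD (Wd LW mb pre suf len sufs okR okL cov isF cL cR hV hStep hX horn rv hornR sat2 rm
  U0 V0 Ut Vt quads Fac Cls)

theorem TFS_mb {L : List Wd} {w : Wd} : mb L w = true ↔ w ∈ L := by
  simp [mb]

theorem TFS_cov {U V : List Wd} {w : Wd} : cov U V w = true ↔ ∃ u ∈ U, ∃ v ∈ V, u ++ v = w := by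
  simp [cov]

theorem TFS_okL {L K : List Wd} {u : Wd} : okL L K u = true ↔ ∀ v ∈ K, u ++ v ∈ L := by
  simp [okL, TFS_mb]

theorem TFS_rm {s : Bool} {x y : Bool × Wd} {A : List Wd} {u : Wd} :
    u ∈ rm s x y A ↔ u ∈ A ∧ x ≠ (s, u) ∧ y ≠ (s, u) := by
  simp [rm]

/-- The four unknown words. -/
def TFS_zz (a b d : ℕ) (w : Wd) : Fin 4 → Bool × Wd :=
  ![(false, w.take (a + d)), (false, w.take (a + 2 * d)), (true, w.drop (w.length - (b + 2 * d))),
    (true, w.drop (w.length - (b + d)))]

theorem p_TFS : Stmt_TFS := by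
  have h1 := @Pool.FD.p_SAS
  have h2 := @Pool.FD.p_CAM
  intro L a b p q d hL hF
  simp only [tryF, Bool.and_eq_true, decide_eq_true_eq, Bool.not_eq_true',
    List.isEmpty_eq_false_iff, List.all_eq_true] at hF
  obtain ⟨⟨⟨⟨⟨⟨⟨hd0, rfl⟩, rfl⟩, hK⟩, hcov⟩, hUt⟩, hVt⟩, hsat⟩ := hF
  obtain ⟨f, hf⟩ := h1 _ _ hsat
  set p := a + 3 * d with hp
  set q := b + 4 * d with hq
  have hC1 : ∀ u, u ∈ C1 L a b p q d ↔ _ := (h2 L (VK L a b p q d) (a + d)).1
  have hC2 : ∀ u, u ∈ C2 L a b p q d ↔ _ := (h2 L (VK L a b p q d) (a + 2 * d)).1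
  have hD1 : ∀ u, u ∈ D1 L a b p q d ↔ _ := (h2 L (U0 L a b ++ Ut L p q) (b + d)).2
  have hD2 : ∀ u, u ∈ D2 L a b p q d ↔ _ := (h2 L (U0 L a b ++ Ut L p q) (b + 2 * d)).2
  -- the clauses
  have hk1 : ∀ x ∈ vars L a b p q d, ∀ y ∈ vars L a b p q d, ∀ w ∈ L,
      cov (rm false x y (Umax L a b p q d)) (rm true x y (Vmax L a b p q d)) w = false →
      f x = true ∨ f y = true := by
    intro x hx y hy w hw hc
    refine hf ((x, true), (y, true)) ?_
    refine List.mem_append_left _ (List.mem_append_left _ (List.mem_append_left _ ?_))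
    rw [kl1, List.mem_flatMap]
    refine ⟨x, hx, List.mem_map.2 ⟨y, List.mem_filter.2 ⟨hy, ?_⟩, rfl⟩⟩
    rw [List.any_eq_true]
    exact ⟨w, hw, by simp [hc]⟩
  have hk2 : ∀ u ∈ C1 L a b p q d ++ C2 L a b p q d, ∀ v ∈ D1 L a b p q d ++ D2 L a b p q d,
      u ++ v ∉ L → f (false, u) = false ∨ f (true, v) = false := by
    intro u hu v hv huv
    refine hf (((false, u), false), ((true, v), false)) ?_
    refine List.mem_append_left _ (List.mem_append_left _ (List.mem_append_right _ ?_))
    rw [kl2, List.mem_flatMap]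
    refine ⟨u, hu, List.mem_map.2 ⟨v, List.mem_filter.2 ⟨hv, ?_⟩, rfl⟩⟩
    rw [Bool.not_eq_true', ← Bool.not_eq_true, TFS_mb]
    exact huv
  have hk3 : ∀ u ∈ C2 L a b p q d, u.take (a + d) ∈ C1 L a b p q d →
      f (false, u.take (a + d)) = true ∨ f (false, u) = true := by
    intro u hu hu'
    refine hf (((false, u.take (a + d)), true), ((false, u), true)) ?_
    refine List.mem_append_left _ (List.mem_append_right _ ?_)
    rw [kl3]
    exact List.mem_map.2 ⟨u, List.mem_filter.2 ⟨hu, TFS_mb.2 hu'⟩, rfl⟩
  have hk4 : ∀ v ∈ D2 L a b p q d, v.drop d ∈ D1 L a b p q d →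
      f (true, v.drop d) = true ∨ f (true, v) = true := by
    intro u hu hu'
    refine hf (((true, u.drop d), true), ((true, u), true)) ?_
    refine List.mem_append_right _ ?_
    rw [kl4]
    exact List.mem_map.2 ⟨u, List.mem_filter.2 ⟨hu, TFS_mb.2 hu'⟩, rfl⟩
  clear hf hsat
  -- the factors
  set U : Language ℕ := {u | u ∈ U0 L a b ++ Ut L p q ∨
    (u ∈ C1 L a b p q d ++ C2 L a b p q d ∧ f (false, u) = true)} with hU
  set V : Language ℕ := {v | v ∈ VK L a b p q d ∨
    (v ∈ D1 L a b p q d ++ D2 L a b p q d ∧ f (true, v) = true)} with hV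
  have hUm : ∀ u, u ∈ U ↔ (u ∈ U0 L a b ++ Ut L p q ∨
    (u ∈ C1 L a b p q d ++ C2 L a b p q d ∧ f (false, u) = true)) := fun u => Iff.rfl
  have hVm : ∀ u, u ∈ V ↔ (u ∈ VK L a b p q d ∨
    (u ∈ D1 L a b p q d ++ D2 L a b p q d ∧ f (true, u) = true)) := fun u => Iff.rfl
  have hsub : ∀ u ∈ U, ∀ v ∈ V, u ++ v ∈ L := by
    intro u hu v hv
    rw [hUm] at hu
    rw [hVm] at hv
    rcases hu with hu | ⟨hu, hfu⟩
    · rcases hv with hv | ⟨hv, hfv⟩
      · exact TFS_okL.1 (hK u hu) v hv
      · rw [List.mem_append, hD1, hD2] at hv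
        rcases hv with hv | hv
        · exact hv.2.2 u hu
        · exact hv.2.2 u hu
    · rcases hv with hv | ⟨hv, hfv⟩
      · rw [List.mem_append, hC1, hC2] at hu
        rcases hu with hu | hu
        · exact hu.2.2 v hv
        · exact hu.2.2 v hv
      · by_contra hcon
        rcases hk2 u hu v hv hcon with h | h
        · rw [hfu] at h
          exact absurd h (by simp)
        · rw [hfv] at h
          exact absurd h (by simp)
  have hsup : ∀ w ∈ L, ∃ u ∈ U, ∃ v ∈ V, u ++ v = w := by
    intro w hw
    by_contra hno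
    push Not at hno
    set zz := TFS_zz a b d w with hzz
    set Z : Fin 4 → Prop := ![w.take (a + d) ∈ C1 L a b p q d, w.take (a + 2 * d) ∈ C2 L a b p q d,
      w.drop (w.length - (b + 2 * d)) ∈ D2 L a b p q d, w.drop (w.length - (b + d)) ∈ D1 L a b p q d]
      with hZ
    have step : ∀ u v, u ∈ Umax L a b p q d → v ∈ Vmax L a b p q d → u ++ v = w →
        (∃ i : Fin 4, Z i ∧ f (zz i) = false ∧ (zz i = (false, u) ∨ zz i = (true, v))) := by
      intro u v hu hv huv
      have h3 := hno u
      by_cases hu' : u ∈ U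
      · have h4 : v ∉ V := fun hv' => hno u hu' v hv' huv
        rw [hVm] at h4
        rw [Vmax, List.mem_append] at hv
        push Not at h4
        rcases hv with hv | hv
        · exact absurd hv h4.1
        have h5 : f (true, v) = false := by simpa using h4.2 hv
        rw [List.mem_append] at hv
        rcases hv with hv | hv
        · have hl := ((hD1 v).1 hv).1
          have h6 : w.drop (w.length - (b + d)) = v := by
            rw [← huv, List.length_append, hl]
            simp
          refine ⟨3, ?_, ?_, .inr ?_⟩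
          · show w.drop (w.length - (b + d)) ∈ D1 L a b p q d
            rw [h6]
            exact hv
          · show f (true, w.drop (w.length - (b + d))) = false
            rw [h6]
            exact h5
          · show (true, w.drop (w.length - (b + d))) = _
            rw [h6]
        · have hl := ((hD2 v).1 hv).1
          have h6 : w.drop (w.length - (b + 2 * d)) = v := by
            rw [← huv, List.length_append, hl]
            simp
          refine ⟨2, ?_, ?_, .inr ?_⟩
          · show w.drop (w.length - (b + 2 * d)) ∈ D2 L a b p q d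
            rw [h6]
            exact hv
          · show f (true, w.drop (w.length - (b + 2 * d))) = false
            rw [h6]
            exact h5
          · show (true, w.drop (w.length - (b + 2 * d))) = _
            rw [h6]
      · rw [hUm] at hu'
        rw [Umax, List.mem_append] at hu
        push Not at hu'
        rcases hu with hu | hu
        · exact absurd hu hu'.1
        have h5 : f (false, u) = false := by simpa using hu'.2 hu
        rw [List.mem_append] at hu
        rcases hu with hu | hu
        · have hl := ((hC1 u).1 hu).1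
          have h6 : w.take (a + d) = u := by
            rw [← huv, ← hl]
            simp
          refine ⟨0, ?_, ?_, .inl ?_⟩
          · show w.take (a + d) ∈ C1 L a b p q d
            rw [h6]
            exact hu
          · show f (false, w.take (a + d)) = false
            rw [h6]
            exact h5
          · show (false, w.take (a + d)) = _
            rw [h6]
        · have hl := ((hC2 u).1 hu).1
          have h6 : w.take (a + 2 * d) = u := by
            rw [← huv, ← hl]
            simp
          refine ⟨1, ?_, ?_, .inl ?_⟩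
          · show w.take (a + 2 * d) ∈ C2 L a b p q d
            rw [h6]
            exact hu
          · show f (false, w.take (a + 2 * d)) = false
            rw [h6]
            exact h5
          · show (false, w.take (a + 2 * d)) = _
            rw [h6]
    have hvars : ∀ i, Z i → zz i ∈ vars L a b p q d := by
      intro i hi
      rw [vars, List.mem_append, List.mem_map, List.mem_map]
      fin_cases i
      · exact .inl ⟨_, List.mem_append_left _ hi, rfl⟩
      · exact .inl ⟨_, List.mem_append_right _ hi, rfl⟩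
      · exact .inr ⟨_, List.mem_append_right _ hi, rfl⟩
      · exact .inr ⟨_, List.mem_append_left _ hi, rfl⟩
    have next : ∀ i j, Z i → f (zz i) = false → Z j → f (zz j) = false →
        ∃ k, Z k ∧ f (zz k) = false ∧ k ≠ i ∧ k ≠ j := by
      intro i j hi hfi hj hfj
      have h3 : cov (rm false (zz i) (zz j) (Umax L a b p q d)) (rm true (zz i) (zz j)
          (Vmax L a b p q d)) w = true := by
        by_contra hcon
        rw [Bool.not_eq_true] at hcon
        rcases hk1 _ (hvars i hi) _ (hvars j hj) w hw hcon with h | h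
        · rw [hfi] at h
          exact absurd h (by simp)
        · rw [hfj] at h
          exact absurd h (by simp)
      rw [TFS_cov] at h3
      obtain ⟨u, hu, v, hv, huv⟩ := h3
      rw [TFS_rm] at hu hv
      obtain ⟨k, hk, hfk, hk'⟩ := step u v hu.1 hv.1 huv
      refine ⟨k, hk, hfk, ?_, ?_⟩
      · rintro rfl
        rcases hk' with h | h
        · exact hu.2.1 h
        · exact hv.2.1 h
      · rintro rfl
        rcases hk' with h | h
        · exact hu.2.2 h
        · exact hv.2.2 h
    have n01 : ¬ ((Z 0 ∧ f (zz 0) = false) ∧ (Z 1 ∧ f (zz 1) = false)) := by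
      rintro ⟨⟨h3, h4⟩, h5, h6⟩
      have h3' : w.take (a + d) ∈ C1 L a b p q d := h3
      have h5' : w.take (a + 2 * d) ∈ C2 L a b p q d := h5
      have h4' : f (false, w.take (a + d)) = false := h4
      have h6' : f (false, w.take (a + 2 * d)) = false := h6
      have h7 : (w.take (a + 2 * d)).take (a + d) = w.take (a + d) := by
        rw [List.take_take]
        congr 1
        omega
      have h8 := hk3 _ h5' (by rw [h7]; exact h3')
      rw [h7, h4', h6'] at h8
      simp at h8
    have n23 : ¬ ((Z 2 ∧ f (zz 2) = false) ∧ (Z 3 ∧ f (zz 3) = false)) := by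
      rintro ⟨⟨h3, h4⟩, h5, h6⟩
      have h3' : w.drop (w.length - (b + 2 * d)) ∈ D2 L a b p q d := h3
      have h5' : w.drop (w.length - (b + d)) ∈ D1 L a b p q d := h5
      have h4' : f (true, w.drop (w.length - (b + 2 * d))) = false := h4
      have h6' : f (true, w.drop (w.length - (b + d))) = false := h6
      have hl := ((hD2 _).1 h3').1
      have h7 : (w.drop (w.length - (b + 2 * d))).drop d = w.drop (w.length - (b + d)) := by
        rw [List.drop_drop]
        congr 1
        rw [List.length_drop] at hl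
        omega
      have h8 := hk4 _ h3' (by rw [h7]; exact h5')
      rw [h7, h4', h6'] at h8
      simp at h8
    obtain ⟨u, hu, v, hv, huv⟩ := TFS_cov.1 (hcov w hw)
    obtain ⟨i, hi, hfi, -⟩ := step u v hu hv huv
    obtain ⟨j, hj, hfj, hji, -⟩ := next i i hi hfi hi hfi
    obtain ⟨k, hk, hfk, hki, hkj⟩ := next i j hi hfi hj hfj
    have h01 : ∀ i : Fin 4, Z i → f (zz i) = false → i = 0 → ¬ (Z 1 ∧ f (zz 1) = false) := by
      rintro i h h' rfl h''
      exact n01 ⟨⟨h, h'⟩, h''⟩
    have h23 : ∀ i : Fin 4, Z i → f (zz i) = false → i = 2 → ¬ (Z 3 ∧ f (zz 3) = false) := by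
      rintro i h h' rfl h''
      exact n23 ⟨⟨h, h'⟩, h''⟩
    have hcases : ∀ i j k : Fin 4, j ≠ i → k ≠ i → k ≠ j →
        ((i = 0 ∨ j = 0 ∨ k = 0) ∧ (i = 1 ∨ j = 1 ∨ k = 1)) ∨
        ((i = 2 ∨ j = 2 ∨ k = 2) ∧ (i = 3 ∨ j = 3 ∨ k = 3)) := by decide
    have hP : ∀ n : Fin 4, (i = n ∨ j = n ∨ k = n) → Z n ∧ f (zz n) = false := by
      rintro n (rfl | rfl | rfl)
      · exact ⟨hi, hfi⟩
      · exact ⟨hj, hfj⟩
      · exact ⟨hk, hfk⟩
    rcases hcases i j k hji hki hkj with ⟨h3, h4⟩ | ⟨h3, h4⟩
    · exact n01 ⟨hP 0 h3, hP 1 h4⟩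
    · exact n23 ⟨hP 2 h3, hP 3 h4⟩
  refine ⟨U, V, ?_, ?_, ?_, ?_, ?_⟩
  · refine ((U0 L a b ++ Ut L p q) ++ (C1 L a b p q d ++ C2 L a b p q d)).finite_toSet.subset ?_
    intro u hu
    rcases (hUm u).1 hu with h | h
    · exact List.mem_append_left _ h
    · exact List.mem_append_right _ h.1
  · refine (VK L a b p q d ++ (D1 L a b p q d ++ D2 L a b p q d)).finite_toSet.subset ?_
    intro u hu
    rcases (hVm u).1 hu with h | h
    · exact List.mem_append_left _ h
    · exact List.mem_append_right _ h.1
  · ext w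
    rw [Language.mem_mul]
    constructor
    · intro hw
      exact hsup w hw
    · rintro ⟨u, hu, v, hv, rfl⟩
      exact hsub u hu v hv
  · intro h
    obtain ⟨u, hu⟩ := List.exists_mem_of_ne_nil _ hUt
    have h3 : u ∈ U := .inl (List.mem_append_right _ hu)
    rw [h, Language.mem_one] at h3
    subst h3
    rw [Ut, pre, List.mem_map] at hu
    obtain ⟨w, hw, hwu⟩ := hu
    rw [List.mem_filter, decide_eq_true_eq] at hw
    have h4 := congrArg List.length hwu
    rw [List.length_take] at h4
    simp only [List.length_nil] at h4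
    omega
  · intro h
    obtain ⟨u, hu⟩ := List.exists_mem_of_ne_nil _ hVt
    have h3 : u ∈ V := .inl (List.mem_append_right _ hu)
    rw [h, Language.mem_one] at h3
    subst h3
    rw [Vt, suf, List.mem_map] at hu
    obtain ⟨w, hw, hwu⟩ := hu
    rw [List.mem_filter, decide_eq_true_eq] at hw
    have h4 := congrArg List.length hwu
    rw [List.length_drop] at h4
    simp only [List.length_nil] at h4
    omega

end Pool.FE
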