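import Pool.Agent.Work.MP_e24068_el.Interface8

/-!
# Block TOP: missing candidates just below the top levels (helper84)
-/

set_option autoImplicit false

namespace Pool.FE

open Pool.Agent.Work.TMLib Pool.Agent.Work.MP_e24068_lc
open Pool.FD (Wd LW mb pre suf len sufs okR okL cov isF cL cR hV hStep hX horn rv hornR sat2 rm
  U0 V0 Ut Vt quads Fac Cls)

theorem p_TOP : Stmt_TOP := by
  intro L U V a b p q k j u v h hUk hkp hVj hjq hul hu hu2 hvl hv hv2
  obtain ⟨vs, hvs, hvsl⟩ := h.vq
  obtain ⟨u1, hu1, v1, hv1, he⟩ := (h.fac (u ++ vs)).1 (hu2 vs hvs hvsl)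
  have l1 := hUk u1 hu1
  have l2 := (h.vl v1 hv1).2
  have l2' := hVj v1 hv1
  have l3 : u1.length + v1.length = u.length + vs.length := by
    have := congrArg List.length he
    simpa [List.length_append] using this
  rcases List.append_eq_append_iff.1 he with ⟨c, hc1, hc2⟩ | ⟨c, hc1, hc2⟩
  · -- u = u1 ++ c
    have l4 : u.length = u1.length + c.length := by
      rw [hc1, List.length_append]
    have l5 : c.length = 0 := by omega
    have hc : c = [] := List.length_eq_zero_iff.1 l5
    rw [hc, List.append_nil] at hc1
    exact hu (hc1 ▸ hu1)
  · -- u1 = u ++ c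
    have l4 : u1.length = u.length + c.length := by
      rw [hc1, List.length_append]
    by_cases l5 : c.length = 0
    · have hc : c = [] := List.length_eq_zero_iff.1 l5
      rw [hc, List.append_nil] at hc1
      exact hu (hc1 ▸ hu1)
    · have l6 : u1.length = p := by omega
      obtain ⟨u2, hu2', v2, hv2', he2⟩ := (h.fac (u1 ++ v)).1 (hv2 u1 hu1 l6)
      have m1 := (h.ul u2 hu2').2
      have m1' := hUk u2 hu2'
      have m2 := hVj v2 hv2'
      have m3 : u2.length + v2.length = u1.length + v.length := by
        have := congrArg List.length he2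
        simpa [List.length_append] using this
      by_cases m4 : v2.length = v.length
      · have := (List.append_inj' he2 m4).2
        exact hv (this ▸ hv2')
      · have m5 : u2.length = u.length := by omega
        have he3 : u2 ++ v2 = u ++ (c ++ v) := by
          rw [he2, hc1, List.append_assoc]
        have := (List.append_inj he3 m5).1
        exact hu (this ▸ hu2')

end Pool.FE
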