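import Pool.Agent.Work.MP_e24068_el.Interface8
import Pool.Agent.Work.MP_e24068_dich.B_TSO
import Pool.Agent.Work.MP_e24068_dich.B_ISF
import Pool.Agent.Work.MP_e24068_dich.B_REV

/-! # Block TSO: all tries are sound (helper63, after helper87) -/

set_option autoImplicit false

namespace Pool.FE

open Pool.Agent.Work.TMLib Pool.Agent.Work.MP_e24068_lc
open Pool.FD (Wd LW mb pre suf len sufs okR okL cov isF cL cR hV hStep hX horn rv hornR sat2 rm
  U0 V0 Ut Vt quads Fac Cls)

theorem p_TSO (hT : Stmt_TFS) : Stmt_TSO := by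
  intro L a b p q d k hL h
  unfold tries at h
  simp only [Bool.or_eq_true] at h
  rcases h with ((((h | h) | h) | h) | h) | h
  · exact Pool.FD.TSO_horn Pool.FD.p_ISF hL h
  · exact Pool.FD.TSO_horn Pool.FD.p_ISF hL h
  · exact Pool.FD.TSO_horn Pool.FD.p_ISF hL h
  · exact Pool.FD.TSO_hornR Pool.FD.p_ISF Pool.FD.p_REV hL h
  · exact Pool.FD.TSO_hornR Pool.FD.p_ISF Pool.FD.p_REV hL h
  · exact hT L a b p q d hL h

end Pool.FE
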