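import Pool.Agent.Work.MP_e24068_el.Interface8
import Pool.Agent.Work.MP_e24068_el.Old8

set_option autoImplicit false

namespace Pool.FE

open Pool.Agent.Work.TMLib Pool.Agent.Work.MP_e24068_lc
open Pool.FD (Wd LW mb pre suf len sufs okR okL cov isF cL cR hV hStep hX horn rv hornR sat2 rm
  U0 V0 Ut Vt quads Fac Cls)

theorem p_TV3 (hTOP : Stmt_TOP) (hTB : Stmt_TB) : Stmt_TV3 := by
  intro L U V a b d hF
  by_cases hall : ∀ u ∈ cL L (V0 L a b ++ Vt L (a + 3 * d) (b + 4 * d)) (a + 2 * d), u ∈ U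
  · exact Or.inl (hTB L U V a b (a + 3 * d) (b + 4 * d) d (a + 2 * d) hF.fc hF.uj hall)
  · right
    push Not at hall
    obtain ⟨u, hu, huU⟩ := hall
    obtain ⟨hU0, hV0, hUt, hVt⟩ := Pool.FD.p_LEV L U V a b (a + 3 * d) (b + 4 * d) hF.fc
    obtain ⟨hul, _, huv⟩ := ((Pool.FD.p_CAM L (V0 L a b ++ Vt L (a + 3 * d) (b + 4 * d))
      (a + 2 * d)).1 u).1 hu
    have hd := hF.dp
    have huv' : ∀ v' ∈ V, v'.length = b + 4 * d → u ++ v' ∈ L := by
      intro v' hv' hl
      exact huv v' (List.mem_append.2 (Or.inr ((hVt v').2 ⟨hv', hl⟩)))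
    have hK : ∀ w ∈ U0 L a b ++ Ut L (a + 3 * d) (b + 4 * d), w ∈ U := by
      intro w hw
      rcases List.mem_append.1 hw with h | h
      · exact ((hU0 w).1 h).1
      · exact ((hUt w).1 h).1
    intro w
    constructor
    · intro hw
      obtain ⟨hwl, _, hwu⟩ := ((Pool.FD.p_CAM L (U0 L a b ++ Ut L (a + 3 * d) (b + 4 * d))
        (b + 3 * d)).2 w).1 hw
      refine ⟨?_, hwl⟩
      by_contra hwV
      refine hTOP L U V a b (a + 3 * d) (b + 4 * d) (a + 2 * d) (b + 3 * d) u w hF.fc ?_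
        (by omega) ?_ (by omega) hul huU huv' hwl hwV ?_
      · intro u' hu'
        rcases hF.uj u' hu' with h3 | h3 | h3 | h3
        · left; omega
        · left; omega
        · left; omega
        · right; exact h3
      · intro v' hv'
        rcases hF.vj v' hv' with h3 | h3 | h3 | h3 | h3
        · left; omega
        · left; omega
        · left; omega
        · left; omega
        · right; exact h3
      · intro u' hu' hl
        exact hwu u' (List.mem_append.2 (Or.inr ((hUt u').2 ⟨hu', hl⟩)))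
    · rintro ⟨hwV, hwl⟩
      exact (Pool.FD.p_CAN L U V a b (a + 3 * d) (b + 4 * d)
        (U0 L a b ++ Ut L (a + 3 * d) (b + 4 * d)) (b + 3 * d) hF.fc).2 hK w hwV hwl

end Pool.FE
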