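import Pool.Agent.Work.MP_e24068_el.InterfaceB

set_option autoImplicit false

namespace Pool.FE

open Pool.Agent.Work.MP_e24068_lc (Letter code HasFactorization Inst Cl Var LL to3 varsL)

theorem p_UMO (hALN : Stmt_ALN) (hSHF : Stmt_SHF) : Stmt_UMO := by
  intro α β φ m S L M hm hlen hinj hS hfin hne hM hR hh ht hF
  obtain ⟨M₁, M₂, _, _, hmul, hn1, hn2⟩ := hF
  by_cases hd : ∃ u ∈ M₁, m ∣ u.length
  · exact hALN α β φ m S L M M₁ M₂ hm hlen hinj hS hfin hne hM hmul hn1 hn2 hd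
  · obtain ⟨v, hv⟩ := hne
    have hv' : v.flatMap φ ∈ M := (hM _).2 ⟨v, hv, rfl⟩
    rw [hmul, Language.mem_mul] at hv'
    obtain ⟨u, hu, _, _, _⟩ := hv'
    obtain ⟨M₁', M₂', hmul', hn1', hn2', hd'⟩ :=
      hSHF α β φ m S L M M₁ M₂ hm hlen hinj hS hfin ⟨v, hv⟩ hM hmul hR hh ht
        ⟨u, hu, fun hdu => hd ⟨u, hu, hdu⟩⟩
    exact hALN α β φ m S L M M₁' M₂' hm hlen hinj hS hfin ⟨v, hv⟩ hM hmul' hn1' hn2' hd'

end Pool.FE
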