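import Pool.Agent.Work.MP_e24068_dich.DefsP

/-!
Factorization of finite languages with at most eight word lengths: the algorithm.
-/

set_option autoImplicit false

namespace Pool.FE

open Pool.Agent.Work.TMLib Pool.Agent.Work.MP_e24068_lc
open Pool.FD (Wd LW mb pre suf len sufs okR okL cov isF cL cR hV hStep hX horn rv hornR sat2 rm
  U0 V0 Ut Vt quads Fac Cls)

/-! ### The tries -/

section tries

variable (L : List Wd) (a b p q d : ℕ)

/-- At most one unknown level. -/
def tryA : Bool := horn L (U0 L a b ++ Ut L p q) (a + d)

/-- Level `k` consists of all candidates. -/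
def tryB (k : ℕ) : Bool :=
  horn L (U0 L a b ++ cL L (V0 L a b ++ Vt L p q) k ++ Ut L p q) (a + d)

/-- Level `3` of the second factor. -/
def V3 : List Wd := cR L (U0 L a b ++ Ut L p q) (b + 3 * d)
/-- The known part of the second factor. -/
def VK : List Wd := V0 L a b ++ V3 L a b p q d ++ Vt L p q
/-- Candidates for level `1` of the first factor. -/
def C1 : List Wd := cL L (VK L a b p q d) (a + d)
/-- Candidates for level `2` of the first factor. -/
def C2 : List Wd := cL L (VK L a b p q d) (a + 2 * d)
/-- Candidates for level `1` of the second factor. -/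
def D1 : List Wd := cR L (U0 L a b ++ Ut L p q) (b + d)
/-- Candidates for level `2` of the second factor. -/
def D2 : List Wd := cR L (U0 L a b ++ Ut L p q) (b + 2 * d)

/-- Level `2` of the first factor consists of all candidates. -/
def tryC : Bool := horn L (U0 L a b ++ C2 L a b p q d ++ Ut L p q) (a + d)

/-- Level `2` of the second factor consists of all candidates. -/
def tryD : Bool := hornR L (VK L a b p q d ++ D2 L a b p q d) (b + d)

/-- The word `x` (of length `d`) is a prefix of a word of the top level. -/
def inX (x : Wd) : Bool := (Vt L p q).any fun v => decide (v.take d = x)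

/-- Words of level `1` which must be in the first factor. -/
def gd (r : Wd) : Bool := !(mb (U0 L a b) (r.take a)) || !(inX L p q d (r.drop a))

/-- Words which must be in the first factor. -/
def G : List Wd :=
  ((C1 L a b p q d).filter fun r => gd L a b p q d r) ++
  ((C2 L a b p q d).filter fun u => !(inX L p q d (u.drop (a + d))) ||
    !(mb (C1 L a b p q d) (u.take (a + d))))

/-- Level `2` of the second factor is determined. -/
def tryE : Bool :=
  hornR L (VK L a b p q d ++ cR L (U0 L a b ++ Ut L p q ++ G L a b p q d) (b + 2 * d)) (b + d)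

/-- The variables. -/
def vars : List (Bool × Wd) :=
  ((C1 L a b p q d ++ C2 L a b p q d).map fun u => (false, u)) ++
  ((D1 L a b p q d ++ D2 L a b p q d).map fun v => (true, v))

/-- The largest first factor. -/
def Umax : List Wd := U0 L a b ++ Ut L p q ++ (C1 L a b p q d ++ C2 L a b p q d)
/-- The largest second factor. -/
def Vmax : List Wd := VK L a b p q d ++ (D1 L a b p q d ++ D2 L a b p q d)

/-- One of the two words is needed. -/
def kl1 : Cls :=
  (vars L a b p q d).flatMap fun x => ((vars L a b p q d).filter fun y =>
    L.any fun w => !cov (rm false x y (Umax L a b p q d)) (rm true x y (Vmax L a b p q d)) w).map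
      fun y => ((x, true), (y, true))

/-- Not both words. -/
def kl2 : Cls :=
  (C1 L a b p q d ++ C2 L a b p q d).flatMap fun u =>
    ((D1 L a b p q d ++ D2 L a b p q d).filter fun v => !mb L (u ++ v)).map
      fun v => (((false, u), false), ((true, v), false))

/-- A word of level `2` of the first factor or its prefix. -/
def kl3 : Cls :=
  ((C2 L a b p q d).filter fun u => mb (C1 L a b p q d) (u.take (a + d))).map
    fun u => (((false, u.take (a + d)), true), ((false, u), true))

/-- A word of level `2` of the second factor or its suffix. -/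
def kl4 : Cls :=
  ((D2 L a b p q d).filter fun v => mb (D1 L a b p q d) (v.drop d)).map
    fun v => (((true, v.drop d), true), ((true, v), true))

/-- The 2-SAT case. -/
def tryF : Bool :=
  decide (0 < d) && decide (p = a + 3 * d) && decide (q = b + 4 * d) &&
  (U0 L a b ++ Ut L p q).all (fun u => okL L (VK L a b p q d) u) &&
  L.all (fun w => cov (Umax L a b p q d) (Vmax L a b p q d) w) &&
  !(Ut L p q).isEmpty && !(Vt L p q).isEmpty &&
  sat2 (kl1 L a b p q d ++ kl2 L a b p q d ++ kl3 L a b p q d ++ kl4 L a b p q d)

/-- All tries. -/
def tries (k : ℕ) : Bool :=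
  tryA L a b p q d || tryB L a b p q d k || tryC L a b p q d || tryD L a b p q d ||
  tryE L a b p q d || tryF L a b p q d

end tries

/-- Pairs of parameters. -/
def dks (N : ℕ) : List (ℕ × ℕ) :=
  (List.range N).flatMap fun d => (List.range N).map fun k => (d, k)

/-- The algorithm. -/
def solve (L : List Wd) : Bool :=
  (quads ((L.flatMap fun w => w).length + 1)).any fun s =>
    (dks ((L.flatMap fun w => w).length + 1)).any fun t =>
      tries L s.1 s.2.1 s.2.2.1 s.2.2.2 t.1 t.2 || tries (rv L) s.1 s.2.1 s.2.2.1 s.2.2.2 t.1 t.2

/-- `L = U V` with `4` lengths for `U` and `5` lengths for `V`, in arithmetic progressions with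
difference `d`. -/
structure FacD (L : List Wd) (U V : Set Wd) (a b d : ℕ) : Prop where
  fc : Fac L U V a b (a + 3 * d) (b + 4 * d)
  dp : 0 < d
  uj : ∀ u ∈ U, u.length = a ∨ u.length = a + d ∨ u.length = a + 2 * d ∨ u.length = a + 3 * d
  vj : ∀ v ∈ V, v.length = b ∨ v.length = b + d ∨ v.length = b + 2 * d ∨ v.length = b + 3 * d ∨
    v.length = b + 4 * d

end Pool.FE
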