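import Pool.Agent.Work.MP_e24068_lc.Poly

/-!
Binary codes: factorizations of languages over a two-letter alphabet.
-/

set_option autoImplicit false

namespace Pool.FE

open Pool.Agent.Work.MP_e24068_lc (Letter code HasFactorization)

/-- `C` is a comma-free code: no word of `C` is a factor of the product of two words of `C`,
except as the first or as the last factor. -/
def CommaFree {α : Type*} (C : Language α) : Prop :=
  [] ∉ C ∧ ∀ x ∈ C, ∀ y ∈ C, ∀ z ∈ C, ∀ s t : List α, x ++ y = s ++ z ++ t → s = [] ∨ t = []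

/-- `1` or `0`. -/
def bit (b : Bool) : Fin 2 := bif b then 1 else 0

/-- The word `0^k 1 0^(N-k)`. -/
def oh (N k : ℕ) : List (Fin 2) := List.replicate k 0 ++ 1 :: List.replicate (N - k) 0

/-- The word `e 0 1 1 1 0 0^k 1 0^(N-k) 0 f`, of length `N + 9`. -/
def blk (N : ℕ) (e f : Bool) (k : ℕ) : List (Fin 2) :=
  bit e :: 0 :: 1 :: 1 :: 1 :: 0 :: (oh N k ++ [0, bit f])

/-- The binary word of a letter. -/
def blkL (N : ℕ) (x : Letter) : List (Fin 2) :=
  blk N (!decide (x = Letter.he)) (decide (x = Letter.dF)) (code x)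

end Pool.FE
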