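import Pool.Agent.Work.MP_e24068_el.B_PTR
import Pool.Agent.Work.MP_e24068_el.B_PTF
import Pool.Agent.Work.MP_e24068_el.B_PSO
import Pool.Agent.Work.MP_e24068_el.B_TOP
import Pool.Agent.Work.MP_e24068_el.B_F12
import Pool.Agent.Work.MP_e24068_el.B_F3
import Pool.Agent.Work.MP_e24068_el.B_TAB
import Pool.Agent.Work.MP_e24068_el.B_T44
import Pool.Agent.Work.MP_e24068_el.B_TV3
import Pool.Agent.Work.MP_e24068_el.B_TCD
import Pool.Agent.Work.MP_e24068_el.B_TE
import Pool.Agent.Work.MP_e24068_el.B_TF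
import Pool.Agent.Work.MP_e24068_el.B_TFS
import Pool.Agent.Work.MP_e24068_el.B_TSO
import Pool.Agent.Work.MP_e24068_el.B_CMB
import Pool.Agent.Work.MP_e24068_el.B_FEX
import Pool.Agent.Work.MP_e24068_el.B_SOC
import Pool.Agent.Work.MP_e24068_el.B_SOS
import Pool.Agent.Work.MP_e24068_el.B_PP

/-!
FACT is in P for languages with at most `8` word lengths.
-/

set_option autoImplicit false

namespace Pool.FE

theorem final_P8 : Stmt_PP := by
  have hF2 : Stmt_F2 := p_F2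
  have hF3 : Stmt_F3 := p_F3 hF2
  have hTA : Stmt_TA := p_TA
  have hTB : Stmt_TB := p_TB
  have hT44 : Stmt_T44 := p_T44 p_TOP hTB
  have hTV3 : Stmt_TV3 := p_TV3 p_TOP hTB
  have hTC : Stmt_TC := p_TC
  have hTD : Stmt_TD := p_TD
  have hTE : Stmt_TE := p_TE hF2
  have hTF : Stmt_TF := p_TF hF2 hF3
  have hSOC : Stmt_SOC := p_SOC (p_FEX p_CMB) hTA hT44 hTV3 hTC hTD hTE hTF
  have hSOS : Stmt_SOS := p_SOS (p_TSO p_TFS)
  exact p_PP hSOC hSOS (p_PSO p_PTR p_PTF)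

end Pool.FE
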