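import Pool.Agent.Work.MP_e24068_el.B_IMG
import Pool.Agent.Work.MP_e24068_el.B_ALN
import Pool.Agent.Work.MP_e24068_el.B_MOR
import Pool.Agent.Work.MP_e24068_el.B_SHF
import Pool.Agent.Work.MP_e24068_el.B_UMO
import Pool.Agent.Work.MP_e24068_el.B_OHI
import Pool.Agent.Work.MP_e24068_el.B_NP9
import Pool.Agent.Work.MP_e24068_el.B_BRF
import Pool.Agent.Work.MP_e24068_el.B_SYN
import Pool.Agent.Work.MP_e24068_el.B_CFI
import Pool.Agent.Work.MP_e24068_el.B_CFO
import Pool.Agent.Work.MP_e24068_el.B_CFB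

/-!
FACT is NP-hard over a two-letter alphabet.
-/

set_option autoImplicit false

namespace Pool.FE

theorem final_NP9 : Stmt_NP9 := p_NP9 (p_MOR p_IMG p_ALN) p_OHI

theorem final_CFB : Stmt_CFB :=
  p_CFB p_IMG (p_UMO p_ALN p_SHF) p_BRF (p_CFI p_SYN p_BRF) p_CFO

end Pool.FE
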