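import Pool.Agent.Work.MP_e24068_el.Defs8
import Pool.Agent.Work.MP_e24068_dich.InterfaceP

/-!
Statements of the blocks: at most eight word lengths.
-/

set_option autoImplicit false

namespace Pool.FE

open Pool.Agent.Work.TMLib Pool.Agent.Work.MP_e24068_lc
open Pool.FD (Wd LW mb pre suf len sufs okR okL cov isF cL cR hV hStep hX horn rv hornR sat2 rm
  U0 V0 Ut Vt quads Fac Cls)

/-! ### Polynomial time -/

/-- The first five tries; the parameters are `L`, `a`, `b`, `p`, `q`, `d`, `k`. -/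
def Stmt_PTR : Prop := PolyF (fun s : List Wd × ℕ × ℕ × ℕ × ℕ × ℕ × ℕ =>
  tryA s.1 s.2.1 s.2.2.1 s.2.2.2.1 s.2.2.2.2.1 s.2.2.2.2.2.1 ||
  tryB s.1 s.2.1 s.2.2.1 s.2.2.2.1 s.2.2.2.2.1 s.2.2.2.2.2.1 s.2.2.2.2.2.2 ||
  tryC s.1 s.2.1 s.2.2.1 s.2.2.2.1 s.2.2.2.2.1 s.2.2.2.2.2.1 ||
  tryD s.1 s.2.1 s.2.2.1 s.2.2.2.1 s.2.2.2.2.1 s.2.2.2.2.2.1 ||
  tryE s.1 s.2.1 s.2.2.1 s.2.2.2.1 s.2.2.2.2.1 s.2.2.2.2.2.1)

/-- The last try. -/
def Stmt_PTF : Prop := PolyF (fun s : List Wd × ℕ × ℕ × ℕ × ℕ × ℕ × ℕ =>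
  tryF s.1 s.2.1 s.2.2.1 s.2.2.2.1 s.2.2.2.2.1 s.2.2.2.2.2.1)

/-- The algorithm. -/
def Stmt_PSO : Prop := PolyF solve

/-! ### Correctness -/

/-- Missing candidates just below the top levels contradict each other. -/
def Stmt_TOP : Prop := ∀ (L : List Wd) (U V : Set Wd) (a b p q k j : ℕ) (u v : Wd),
  Fac L U V a b p q → (∀ u' ∈ U, u'.length ≤ k ∨ u'.length = p) → k < p →
  (∀ v' ∈ V, v'.length ≤ j ∨ v'.length = q) → j < q →
  u.length = k → u ∉ U → (∀ v' ∈ V, v'.length = q → u ++ v' ∈ L) →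
  v.length = j → v ∉ V → (∀ u' ∈ U, u'.length = p → u' ++ v ∈ L) → False

/-- Consequence of a missing word of level `2`. -/
def Stmt_F1 : Prop := ∀ (L : List Wd) (U V : Set Wd) (a b d : ℕ) (u : Wd),
  FacD L U V a b d → u.length = a + 2 * d → u ∉ U →
  (∀ v' ∈ V, v'.length = b + 4 * d → u ++ v' ∈ L) →
  ∀ x v' : Wd, x.length = d → v'.length = b + 3 * d → x ++ v' ∈ V → u ++ x ∈ U ∧ v' ∈ V

/-- Consequence of missing words of level `2` on both sides. -/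
def Stmt_F2 : Prop := ∀ (L : List Wd) (U V : Set Wd) (a b d : ℕ) (u v : Wd),
  FacD L U V a b d → u.length = a + 2 * d → u ∉ U →
  (∀ v' ∈ V, v'.length = b + 4 * d → u ++ v' ∈ L) → v.length = b + 2 * d → v ∉ V →
  (∀ u' ∈ U, u'.length = a + 3 * d → u' ++ v ∈ L) →
  ∀ x v' : Wd, x.length = d → v'.length = b + 3 * d → x ++ v' ∈ V →
    u.take (a + d) ∈ U ∧ u.drop (a + d) ++ (x ++ v) ∈ V ∧ x ++ v ∈ V

/-- If level `1` of the first factor lacks a good candidate: a missing word of level `2` of the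
second factor has its suffix in the second factor. -/
def Stmt_F3 : Prop := ∀ (L : List Wd) (U V : Set Wd) (a b d : ℕ) (u v r : Wd),
  FacD L U V a b d → u.length = a + 2 * d → u ∉ U →
  (∀ v' ∈ V, v'.length = b + 4 * d → u ++ v' ∈ L) → v.length = b + 2 * d → v ∉ V →
  (∀ u' ∈ U, u'.length = a + 3 * d → u' ++ v ∈ L) →
  r.length = a + d → r ∉ U → (∀ v' ∈ V, v'.length = b + 3 * d → r ++ v' ∈ L) →
  (r.take a ∉ U ∨ ∀ v' : Wd, v'.length = b + 3 * d → r.drop a ++ v' ∉ V) → v.drop d ∈ V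

/-- Try A: at most one unknown level. -/
def Stmt_TA : Prop := ∀ (L : List Wd) (U V : Set Wd) (a b p q d : ℕ), Fac L U V a b p q →
  (∀ u ∈ U, u.length = a ∨ u.length = a + d ∨ u.length = p) → tryA L a b p q d = true

/-- Try B. -/
def Stmt_TB : Prop := ∀ (L : List Wd) (U V : Set Wd) (a b p q d k : ℕ), Fac L U V a b p q →
  (∀ u ∈ U, u.length = a ∨ u.length = a + d ∨ u.length = k ∨ u.length = p) →
  (∀ u ∈ cL L (V0 L a b ++ Vt L p q) k, u ∈ U) → tryB L a b p q d k = true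

/-- Four lengths on both sides. -/
def Stmt_T44 : Prop := ∀ (L : List Wd) (U V : Set Wd) (a b p q d k e j : ℕ), Fac L U V a b p q →
  (∀ u ∈ U, u.length = a ∨ u.length = a + d ∨ u.length = k ∨ u.length = p) →
  (∀ v ∈ V, v.length = b ∨ v.length = b + e ∨ v.length = j ∨ v.length = q) →
  a + d ≤ k → k < p → b + e ≤ j → j < q →
  tryB L a b p q d k = true ∨ tryB (rv L) b a q p e j = true

/-- If try B fails, level `3` of the second factor consists of all candidates. -/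
def Stmt_TV3 : Prop := ∀ (L : List Wd) (U V : Set Wd) (a b d : ℕ), FacD L U V a b d →
  tryB L a b (a + 3 * d) (b + 4 * d) d (a + 2 * d) = true ∨
    ∀ w, w ∈ V3 L a b (a + 3 * d) (b + 4 * d) d ↔ w ∈ V ∧ w.length = b + 3 * d

/-- Try C. -/
def Stmt_TC : Prop := ∀ (L : List Wd) (U V : Set Wd) (a b d : ℕ), FacD L U V a b d →
  (∀ w, w ∈ V3 L a b (a + 3 * d) (b + 4 * d) d ↔ w ∈ V ∧ w.length = b + 3 * d) →
  (∀ u ∈ C2 L a b (a + 3 * d) (b + 4 * d) d, u ∈ U) →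
  tryC L a b (a + 3 * d) (b + 4 * d) d = true

/-- Try D. -/
def Stmt_TD : Prop := ∀ (L : List Wd) (U V : Set Wd) (a b d : ℕ), FacD L U V a b d →
  (∀ w, w ∈ V3 L a b (a + 3 * d) (b + 4 * d) d ↔ w ∈ V ∧ w.length = b + 3 * d) →
  (∀ v ∈ D2 L a b (a + 3 * d) (b + 4 * d) d, v ∈ V) →
  tryD L a b (a + 3 * d) (b + 4 * d) d = true

/-- Try E. -/
def Stmt_TE : Prop := ∀ (L : List Wd) (U V : Set Wd) (a b d : ℕ), FacD L U V a b d →
  (∀ w, w ∈ V3 L a b (a + 3 * d) (b + 4 * d) d ↔ w ∈ V ∧ w.length = b + 3 * d) →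
  (∃ u ∈ C2 L a b (a + 3 * d) (b + 4 * d) d, u ∉ U) →
  (∃ v ∈ D2 L a b (a + 3 * d) (b + 4 * d) d, v ∉ V) →
  (∀ r ∈ C1 L a b (a + 3 * d) (b + 4 * d) d,
    gd L a b (a + 3 * d) (b + 4 * d) d r = true → r ∈ U) →
  tryE L a b (a + 3 * d) (b + 4 * d) d = true

/-- Try F. -/
def Stmt_TF : Prop := ∀ (L : List Wd) (U V : Set Wd) (a b d : ℕ), FacD L U V a b d →
  (∀ w, w ∈ V3 L a b (a + 3 * d) (b + 4 * d) d ↔ w ∈ V ∧ w.length = b + 3 * d) →
  (∃ u ∈ C2 L a b (a + 3 * d) (b + 4 * d) d, u ∉ U) →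
  (∃ v ∈ D2 L a b (a + 3 * d) (b + 4 * d) d, v ∉ V) →
  (∃ r ∈ C1 L a b (a + 3 * d) (b + 4 * d) d,
    gd L a b (a + 3 * d) (b + 4 * d) d r = true ∧ r ∉ U) →
  tryF L a b (a + 3 * d) (b + 4 * d) d = true

/-- Try F is sound. -/
def Stmt_TFS : Prop := ∀ (L : List Wd) (a b p q d : ℕ), L ≠ [] → tryF L a b p q d = true →
  HasFactorization (LW L)

/-- All tries are sound. -/
def Stmt_TSO : Prop := ∀ (L : List Wd) (a b p q d k : ℕ), L ≠ [] →
  tries L a b p q d k = true → HasFactorization (LW L)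

/-- Two sets of numbers with at most `8` sums. -/
def Stmt_CMB : Prop := ∀ A B : Finset ℕ, A.Nonempty → B.Nonempty →
  (Finset.image (fun x : ℕ × ℕ => x.1 + x.2) (A ×ˢ B)).card ≤ 8 →
  (∃ a l p, a ∈ A ∧ p ∈ A ∧ a ≤ l ∧ l ≤ p ∧ ∀ x ∈ A, x = a ∨ x = l ∨ x = p) ∨
  (∃ b m q, b ∈ B ∧ q ∈ B ∧ b ≤ m ∧ m ≤ q ∧ ∀ y ∈ B, y = b ∨ y = m ∨ y = q) ∨
  (∃ a l k p b m j q, a ∈ A ∧ p ∈ A ∧ a ≤ l ∧ l ≤ k ∧ k < p ∧
    (∀ x ∈ A, x = a ∨ x = l ∨ x = k ∨ x = p) ∧ b ∈ B ∧ q ∈ B ∧ b ≤ m ∧ m ≤ j ∧ j < q ∧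
    (∀ y ∈ B, y = b ∨ y = m ∨ y = j ∨ y = q)) ∨
  (∃ a b d, 0 < d ∧ A = {a, a + d, a + 2 * d, a + 3 * d} ∧
    B = {b, b + d, b + 2 * d, b + 3 * d, b + 4 * d}) ∨
  (∃ a b d, 0 < d ∧ A = {a, a + d, a + 2 * d, a + 3 * d, a + 4 * d} ∧
    B = {b, b + d, b + 2 * d, b + 3 * d})

/-- Lengths of a factorization. -/
def Stmt_FEX : Prop := ∀ L : List Wd, L ≠ [] → (L.map List.length).toFinset.card ≤ 8 →
  HasFactorization (LW L) → ∃ (U V : Set Wd) (a b p q : ℕ), Fac L U V a b p q ∧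
    a ≤ p ∧ b ≤ q ∧ p + q < (L.flatMap fun w => w).length + 1 ∧
    ((∃ d, a + d ≤ p ∧ ∀ u ∈ U, u.length = a ∨ u.length = a + d ∨ u.length = p) ∨
     (∃ d, b + d ≤ q ∧ ∀ v ∈ V, v.length = b ∨ v.length = b + d ∨ v.length = q) ∨
     (∃ d k e j, a + d ≤ k ∧ k < p ∧ b + e ≤ j ∧ j < q ∧
       (∀ u ∈ U, u.length = a ∨ u.length = a + d ∨ u.length = k ∨ u.length = p) ∧
       (∀ v ∈ V, v.length = b ∨ v.length = b + e ∨ v.length = j ∨ v.length = q)) ∨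
     (∃ d, p = a + 3 * d ∧ q = b + 4 * d ∧ FacD L U V a b d) ∨
     (∃ d, p = a + 4 * d ∧ q = b + 3 * d ∧
       FacD (rv L) {w | w.reverse ∈ V} {w | w.reverse ∈ U} b a d))

/-- The algorithm accepts if there is a factorization. -/
def Stmt_SOC : Prop := ∀ L : List Wd, L ≠ [] → (L.map List.length).toFinset.card ≤ 8 →
  HasFactorization (LW L) → solve L = true

/-- The algorithm accepts only if there is a factorization. -/
def Stmt_SOS : Prop := ∀ L : List Wd, L ≠ [] → solve L = true → HasFactorization (LW L)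

/-- The decision problem for languages with at most `8` word lengths. -/
def Stmt_PP : Prop := ∃ f : Inst → Bool, PolyTime Inst.enc (fun b : Bool => [b]) f ∧
  ∀ I : Inst, I.2 ≠ [] → (I.2.map List.length).toFinset.card ≤ 8 →
    (f I = true ↔ HasFactorization I.lang)

end Pool.FE
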