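import Pool.Agent.Work.MP_e24068_el.DefsB
import Pool.Agent.Work.MP_e24068_dich.FinalH

/-!
Statements of the blocks: hardness over a two-letter alphabet.
-/

set_option autoImplicit false

namespace Pool.FE

open Pool.Agent.Work.MP_e24068_lc (Letter code HasFactorization Inst Cl Var LL to3 varsL)
open Pool.Agent.Work.TMLib

/-! ### Uniform morphisms -/

/-- Factorizations have images. -/
def Stmt_IMG : Prop := ∀ (α β : Type) (φ : α → List β) (L : Language α) (M : Language β),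
  (∀ w ∈ L, ∀ x ∈ w, φ x ≠ []) → (∀ w, w ∈ M ↔ ∃ v ∈ L, v.flatMap φ = w) → (∃ w, w ∈ L) →
  HasFactorization L → HasFactorization M

/-- A factorization of the image whose cuts are between blocks comes from a factorization. -/
def Stmt_ALN : Prop := ∀ (α β : Type) (φ : α → List β) (m : ℕ) (S : Set α) (L : Language α)
  (M M₁ M₂ : Language β), 0 < m → (∀ x ∈ S, (φ x).length = m) → Set.InjOn φ S →
  (∀ w ∈ L, ∀ x ∈ w, x ∈ S) → Set.Finite (L : Set (List α)) → (∃ w, w ∈ L) →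
  (∀ w, w ∈ M ↔ ∃ v ∈ L, v.flatMap φ = w) → M = M₁ * M₂ → M₁ ≠ 1 → M₂ ≠ 1 →
  (∃ u ∈ M₁, m ∣ u.length) → HasFactorization L

/-- If the empty word is in the language, then all cuts are between blocks. -/
def Stmt_MOR : Prop := ∀ (α β : Type) (φ : α → List β) (m : ℕ) (S : Set α) (L : Language α)
  (M : Language β), 0 < m → (∀ x ∈ S, (φ x).length = m) → Set.InjOn φ S →
  (∀ w ∈ L, ∀ x ∈ w, x ∈ S) → Set.Finite (L : Set (List α)) → [] ∈ L →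
  (∀ w, w ∈ M ↔ ∃ v ∈ L, v.flatMap φ = w) → (HasFactorization M ↔ HasFactorization L)

/-- The cuts can be moved to the next or the previous place between two blocks. -/
def Stmt_SHF : Prop := ∀ (α β : Type) (φ : α → List β) (m : ℕ) (S : Set α) (L : Language α)
  (M M₁ M₂ : Language β), 0 < m → (∀ x ∈ S, (φ x).length = m) → Set.InjOn φ S →
  (∀ w ∈ L, ∀ x ∈ w, x ∈ S) → Set.Finite (L : Set (List α)) → (∃ w, w ∈ L) →
  (∀ w, w ∈ M ↔ ∃ v ∈ L, v.flatMap φ = w) → M = M₁ * M₂ →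
  (∀ (s : ℕ) (Y Z : Set α), 0 < s → s < m → Y ⊆ S → Z ⊆ S → Y.Nonempty → Z.Nonempty →
    (∀ y ∈ Y, ∀ z ∈ Z, ∃ w ∈ S, φ w = (φ y).take s ++ (φ z).drop s) →
    (∀ y ∈ Y, ∀ y' ∈ Y, (φ y).take s = (φ y').take s) ∨
      (∀ z ∈ Z, ∀ z' ∈ Z, (φ z).drop s = (φ z').drop s)) →
  (∃ w ∈ M, ∃ w' ∈ M, w.head? ≠ w'.head?) → (∃ w ∈ M, ∃ w' ∈ M, w.getLast? ≠ w'.getLast?) →
  (∃ u ∈ M₁, ¬ m ∣ u.length) →
  ∃ M₁' M₂' : Language β, M = M₁' * M₂' ∧ M₁' ≠ 1 ∧ M₂' ≠ 1 ∧ ∃ u ∈ M₁', m ∣ u.length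

/-- Uniform morphisms without rectangles. -/
def Stmt_UMO : Prop := ∀ (α β : Type) (φ : α → List β) (m : ℕ) (S : Set α) (L : Language α)
  (M : Language β), 0 < m → (∀ x ∈ S, (φ x).length = m) → Set.InjOn φ S →
  (∀ w ∈ L, ∀ x ∈ w, x ∈ S) → Set.Finite (L : Set (List α)) → (∃ w, w ∈ L) →
  (∀ w, w ∈ M ↔ ∃ v ∈ L, v.flatMap φ = w) →
  (∀ (s : ℕ) (Y Z : Set α), 0 < s → s < m → Y ⊆ S → Z ⊆ S → Y.Nonempty → Z.Nonempty →
    (∀ y ∈ Y, ∀ z ∈ Z, ∃ w ∈ S, φ w = (φ y).take s ++ (φ z).drop s) →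
    (∀ y ∈ Y, ∀ y' ∈ Y, (φ y).take s = (φ y').take s) ∨
      (∀ z ∈ Z, ∀ z' ∈ Z, (φ z).drop s = (φ z').drop s)) →
  (∃ w ∈ M, ∃ w' ∈ M, w.head? ≠ w'.head?) → (∃ w ∈ M, ∃ w' ∈ M, w.getLast? ≠ w'.getLast?) →
  HasFactorization M → HasFactorization L

/-! ### Nine lengths -/

/-- The words `0^k 1 0^(N-k)`. -/
def Stmt_OHI : Prop := ∀ N k l : ℕ, k ≤ N → l ≤ N → (oh N k).length = N + 1 ∧
  (oh N k = oh N l → k = l)

/-- Hardness over two letters, lengths `0, m, 2m, ..., 8m`. -/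
def Stmt_NP9 : Prop := ∀ L : Set (List Bool), InNP L →
  ∃ f : List Bool → Inst, PolyTime id Inst.enc f ∧
    ∀ w, ((f w).1 = 2 ∧ (f w).2 ≠ [] ∧ (∃ m, ∀ v ∈ (f w).2, ∃ i ≤ 8, v.length = i * m) ∧
      ((f w).2.map List.length).toFinset.card ≤ 9) ∧ (w ∈ L ↔ HasFactorization (f w).lang)

/-! ### Comma-free codes -/

/-- There are no rectangles of words `blk N e f k`. -/
def Stmt_BRF : Prop := ∀ (α : Type) (e f : α → Bool) (c : α → ℕ) (N : ℕ) (S : Set α),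
  (∀ x ∈ S, c x ≤ N) → Set.InjOn c S →
  (∀ x ∈ S, (blk N (e x) (f x) (c x)).length = N + 9) ∧
  Set.InjOn (fun x => blk N (e x) (f x) (c x)) S ∧
  ∀ (s : ℕ) (Y Z : Set α), 0 < s → s < N + 9 → Y ⊆ S → Z ⊆ S → Y.Nonempty → Z.Nonempty →
    (∀ y ∈ Y, ∀ z ∈ Z, ∃ w ∈ S, blk N (e w) (f w) (c w) =
      (blk N (e y) (f y) (c y)).take s ++ (blk N (e z) (f z) (c z)).drop s) →
    (∀ y ∈ Y, ∀ y' ∈ Y,
      (blk N (e y) (f y) (c y)).take s = (blk N (e y') (f y') (c y')).take s) ∨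
      (∀ z ∈ Z, ∀ z' ∈ Z,
        (blk N (e z) (f z) (c z)).drop s = (blk N (e z') (f z') (c z')).drop s)

/-- The word `111` occurs only at the third place of a block. -/
def Stmt_SYN : Prop := ∀ (α : Type) (e f : α → Bool) (c : α → ℕ) (N : ℕ) (w : List α),
  (∀ x ∈ w, c x ≤ N) → ∀ i,
  (w.flatMap fun x => blk N (e x) (f x) (c x))[i]? = some 1 →
  (w.flatMap fun x => blk N (e x) (f x) (c x))[i + 1]? = some 1 →
  (w.flatMap fun x => blk N (e x) (f x) (c x))[i + 2]? = some 1 → i % (N + 9) = 2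

/-- Images of comma-free codes are comma-free. -/
def Stmt_CFI : Prop := ∀ (α : Type) (e f : α → Bool) (c : α → ℕ) (N : ℕ) (S : Set α)
  (L : Language α) (M : Language (Fin 2)), (∀ x ∈ S, c x ≤ N) → Set.InjOn c S →
  (∀ w ∈ L, ∀ x ∈ w, x ∈ S) → CommaFree L →
  (∀ w, w ∈ M ↔ ∃ v ∈ L, (v.flatMap fun x => blk N (e x) (f x) (c x)) = w) → CommaFree M

/-- The language of a formula is a comma-free code. -/
def Stmt_CFO : Prop := ∀ (ψ : List Cl) (V : List Var),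
  CommaFree (LL ψ V) ∧ ∀ w ∈ LL ψ V, 2 ≤ w.length ∧ w.length ≤ 15

/-- Hardness for comma-free codes over two letters. -/
def Stmt_CFB : Prop := ∀ L : Set (List Bool), InNP L →
  ∃ f : List Bool → Inst, PolyTime id Inst.enc f ∧
    ∀ w, ((f w).1 = 2 ∧ (f w).2 ≠ [] ∧ CommaFree (f w).lang ∧
      ((f w).2.map List.length).toFinset.card ≤ 14) ∧ (w ∈ L ↔ HasFactorization (f w).lang)

end Pool.FE
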